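import Mathlib

/-! Laurent polynomials with coefficients depending on a bounded real parameter. -/
set_option autoImplicit false
open Filter Topology

namespace Pool.Agent.Q191.TP

noncomputable section

/-- polynomials in the parameter -/
abbrev R1 := Polynomial ℝ
abbrev A1 := AddMonoidAlgebra R1 ℤ
abbrev A2 := AddMonoidAlgebra R1 (ℤ × ℤ)
abbrev A4 := AddMonoidAlgebra R1 (ℤ × ℤ × ℤ × ℤ)

/-- evaluation of the coefficients -/
def cf (ρ : ℝ) : R1 →+* ℂ := Complex.ofRealHom.comp (Polynomial.evalRingHom ρ)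

lemma cf_eq (ρ : ℝ) (p : R1) : cf ρ p = ((p.eval ρ : ℝ) : ℂ) := rfl

/-- linear functionals given by their values on monomials -/
def LM {G : Type} (M : G → ℕ → ℂ) (ρ : ℕ → ℝ) (n : ℕ) : AddMonoidAlgebra R1 G →+ ℂ :=
  AddMonoidAlgebra.liftNC (cf (ρ n)).toAddMonoidHom (fun g => M g.toAdd n)

variable {G : Type} {M M' : G → ℕ → ℂ} {ρ : ℕ → ℝ}

@[simp] lemma LM_single (g : G) (p : R1) (n : ℕ) :
    LM M ρ n (AddMonoidAlgebra.single g p) = cf (ρ n) p * M g n := by
  unfold LM
  rw [AddMonoidAlgebra.liftNC_single]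
  rfl

lemma cf_bdd (hρ : ∃ c, ∀ n, |ρ n| ≤ c) (p : R1) : ∃ C, 0 ≤ C ∧ ∀ n, ‖cf (ρ n) p‖ ≤ C := by
  obtain ⟨c, hc⟩ := hρ
  obtain ⟨C, hC⟩ := (isCompact_Icc (a := -c) (b := c)).exists_bound_of_continuousOn
    p.continuous.continuousOn
  refine ⟨|C|, abs_nonneg _, fun n => ?_⟩
  rw [cf_eq, Complex.norm_real]
  exact (hC _ (abs_le.1 (hc n))).trans (le_abs_self _)

lemma bd_null {a b : ℕ → ℂ} {C : ℝ} (hb : ∀ n, ‖b n‖ ≤ C) (ha : Tendsto a atTop (𝓝 0)) :
    Tendsto (fun n => b n * a n) atTop (𝓝 0) := by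
  have h1 : Tendsto (fun n => C * ‖a n‖) atTop (𝓝 0) := by
    simpa using ha.norm.const_mul C
  refine squeeze_zero_norm (fun n => ?_) h1
  rw [norm_mul]
  exact mul_le_mul_of_nonneg_right (hb n) (norm_nonneg _)

/-- functionals with null values on monomials are null -/
lemma LM_null (hρ : ∃ c, ∀ n, |ρ n| ≤ c) (hM : ∀ g, Tendsto (M g) atTop (𝓝 0))
    (p : AddMonoidAlgebra R1 G) : Tendsto (fun n => LM M ρ n p) atTop (𝓝 0) := by
  induction p using AddMonoidAlgebra.induction_linear with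
  | zero => simp
  | add p q h1 h2 => simpa using h1.add h2
  | single g c =>
    obtain ⟨C, -, hC⟩ := cf_bdd hρ c
    simp only [LM_single]
    exact bd_null hC (hM g)

lemma LM_add' (p : AddMonoidAlgebra R1 G) (n : ℕ) :
    LM (fun g n => M g n + M' g n) ρ n p = LM M ρ n p + LM M' ρ n p := by
  induction p using AddMonoidAlgebra.induction_linear with
  | zero => simp
  | add p q h1 h2 => simp only [map_add, h1, h2]; ring
  | single g c => simp only [LM_single]; ring

lemma LM_mul' (b : ℕ → ℂ) (p : AddMonoidAlgebra R1 G) (n : ℕ) :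
    LM (fun g n => b n * M g n) ρ n p = b n * LM M ρ n p := by
  induction p using AddMonoidAlgebra.induction_linear with
  | zero => simp
  | add p q h1 h2 => simp only [map_add, h1, h2]; ring
  | single g c => simp only [LM_single]; ring

lemma LM_sub' (p : AddMonoidAlgebra R1 G) (n : ℕ) :
    LM (fun g n => M g n - M' g n) ρ n p = LM M ρ n p - LM M' ρ n p := by
  induction p using AddMonoidAlgebra.induction_linear with
  | zero => simp
  | add p q h1 h2 => simp only [map_add, h1, h2]; ring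
  | single g c => simp only [LM_single]; ring

/-- constant coefficients -/
def CR (G : Type) [AddMonoid G] : R1 →+* AddMonoidAlgebra R1 G := AddMonoidAlgebra.singleZeroRingHom

lemma CR_eq {G : Type} [AddMonoid G] (p : R1) : CR G p = AddMonoidAlgebra.single 0 p := rfl

/-! ### the relations -/

/-- monomials -/
def X4 (a b i j : ℤ) : A4 := AddMonoidAlgebra.single (a, b, i, j) 1
/-- the parameter -/
def r4 : A4 := CR _ Polynomial.X

lemma X4_mul (a b i j a' b' i' j' : ℤ) : X4 a b i j * X4 a' b' i' j' =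
    X4 (a + a') (b + b') (i + i') (j + j') := by
  unfold X4
  rw [AddMonoidAlgebra.single_mul_single, mul_one]
  rfl

lemma X4_zero : X4 0 0 0 0 = 1 := rfl

def gS : A4 := X4 1 0 0 0 + X4 0 1 0 0 + r4 * (X4 0 0 1 0 + X4 0 0 0 1)
def gS' : A4 := X4 (-1) 0 0 0 + X4 0 (-1) 0 0 + r4 * (X4 0 0 (-1) 0 + X4 0 0 0 (-1))
def gN : A4 := X4 1 1 (-1) (-1) + X4 (-1) (-1) 1 1 - 2

/-- the ideal of relations -/
def J0 : Ideal A4 := Ideal.span {gS, gS', gN}

/-- asymptotic relations between the values -/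
structure Rel (D : (ℤ × ℤ × ℤ × ℤ) → ℕ → ℂ) (ρ : ℕ → ℝ) : Prop where
  bd : ∃ c, ∀ n, |ρ n| ≤ c
  rP : ∀ a b i j, Tendsto (fun n => D (a + 1, b, i, j) n + D (a, b + 1, i, j) n +
    (ρ n : ℂ) * (D (a, b, i + 1, j) n + D (a, b, i, j + 1) n)) atTop (𝓝 0)
  rM : ∀ a b i j, Tendsto (fun n => D (a - 1, b, i, j) n + D (a, b - 1, i, j) n +
    (ρ n : ℂ) * (D (a, b, i - 1, j) n + D (a, b, i, j - 1) n)) atTop (𝓝 0)
  rN : ∀ a b i j, Tendsto (fun n => D (a + 1, b + 1, i - 1, j - 1) n +
    D (a - 1, b - 1, i + 1, j + 1) n - 2 * D (a, b, i, j) n) atTop (𝓝 0)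

lemma sg_X4 (a b i j a' b' i' j' : ℤ) (p : R1) :
    (AddMonoidAlgebra.single (a, b, i, j) p : A4) * X4 a' b' i' j' =
    AddMonoidAlgebra.single (a + a', b + b', i + i', j + j') p := by
  unfold X4
  rw [AddMonoidAlgebra.single_mul_single, mul_one]
  rfl

lemma sg_r4 (a b i j a' b' i' j' : ℤ) (p : R1) :
    (AddMonoidAlgebra.single (a, b, i, j) p : A4) * (r4 * X4 a' b' i' j') =
    AddMonoidAlgebra.single (a + a', b + b', i + i', j + j') (p * Polynomial.X) := by
  unfold X4 r4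
  rw [CR_eq, AddMonoidAlgebra.single_mul_single, AddMonoidAlgebra.single_mul_single, mul_one,
    zero_add]
  rfl

theorem Rel.null {D : (ℤ × ℤ × ℤ × ℤ) → ℕ → ℂ} (H : Rel D ρ) {p : A4} (hp : p ∈ J0) :
    Tendsto (fun n => LM D ρ n p) atTop (𝓝 0) := by
  have base : ∀ g : A4, (∀ a b i j : ℤ, ∀ c : R1, Tendsto (fun n => LM D ρ n
      (AddMonoidAlgebra.single (a, b, i, j) c * g)) atTop (𝓝 0)) →
      ∀ q : A4, Tendsto (fun n => LM D ρ n (q * g)) atTop (𝓝 0) := by
    intro g hg q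
    induction q using AddMonoidAlgebra.induction_linear with
    | zero => simp
    | add p q h1 h2 => simpa [add_mul] using h1.add h2
    | single m c =>
      obtain ⟨a, b, i, j⟩ := m
      exact hg a b i j c
  have key : ∀ q : A4, Tendsto (fun n => LM D ρ n (q * p)) atTop (𝓝 0) := by
    unfold J0 Ideal.span at hp
    induction hp using Submodule.span_induction with
    | mem x hx =>
      simp only [Set.mem_insert_iff, Set.mem_singleton_iff] at hx
      rcases hx with rfl | rfl | rfl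
      · refine base _ fun a b i j c => ?_
        obtain ⟨C, -, hC⟩ := cf_bdd H.bd c
        refine (bd_null hC (H.rP a b i j)).congr fun n => ?_
        simp only [gS, mul_add, sg_X4, sg_r4, map_add, LM_single, map_mul, add_zero]
        have : cf (ρ n) Polynomial.X = (ρ n : ℂ) := by rw [cf_eq, Polynomial.eval_X]
        rw [this]; ring
      · refine base _ fun a b i j c => ?_
        obtain ⟨C, -, hC⟩ := cf_bdd H.bd c
        refine (bd_null hC (H.rM a b i j)).congr fun n => ?_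
        simp only [gS', mul_add, sg_X4, sg_r4, map_add, LM_single, map_mul, add_zero,
          ← sub_eq_add_neg]
        have : cf (ρ n) Polynomial.X = (ρ n : ℂ) := by rw [cf_eq, Polynomial.eval_X]
        rw [this]; ring
      · refine base _ fun a b i j c => ?_
        obtain ⟨C, -, hC⟩ := cf_bdd H.bd c
        refine (bd_null hC (H.rN a b i j)).congr fun n => ?_
        simp only [gN, mul_sub, mul_add, sg_X4, mul_two, map_add, map_sub, LM_single,
          ← sub_eq_add_neg]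
        ring
    | zero => intro q; simp
    | add x y _ _ h1 h2 =>
      intro q
      simpa [mul_add] using (h1 q).add (h2 q)
    | smul a x _ h1 =>
      intro q
      have := h1 (q * a)
      simpa [smul_eq_mul, mul_assoc] using this
  simpa using key 1

/-! ### power sums -/

/-- power sums as polynomials -/
theorem psum (K : Polynomial R1) : ∃ T : Polynomial R1, ∀ (Q : Type) [CommRing Q] (f : R1 →+* Q)
    (l m e : Q), l + m = 2 * (1 + f Polynomial.X ^ 2) - e →
    l * m = (1 - f Polynomial.X ^ 2) ^ 2 →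
    K.eval₂ f l + K.eval₂ f m = T.eval₂ f e := by
  -- the polynomials for the powers
  have pw : ∀ n : ℕ, ∃ T T' : Polynomial R1, ∀ (Q : Type) [CommRing Q] (f : R1 →+* Q)
      (l m e : Q), l + m = 2 * (1 + f Polynomial.X ^ 2) - e →
      l * m = (1 - f Polynomial.X ^ 2) ^ 2 →
      l ^ n + m ^ n = T.eval₂ f e ∧ l ^ (n + 1) + m ^ (n + 1) = T'.eval₂ f e := by
    intro n
    induction n with
    | zero =>
      refine ⟨2, Polynomial.C (2 * (1 + Polynomial.X ^ 2)) - Polynomial.X,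
        fun Q _ f l m e h1 _ => ⟨?_, ?_⟩⟩
      · simp [Polynomial.eval₂_ofNat]; norm_num
      · rw [Polynomial.eval₂_sub, Polynomial.eval₂_C, Polynomial.eval₂_X]
        simp only [zero_add, pow_one, map_mul, map_add, map_pow, map_one, map_ofNat]
        exact h1
    | succ n ih =>
      obtain ⟨T, T', h⟩ := ih
      refine ⟨T', (Polynomial.C (2 * (1 + Polynomial.X ^ 2)) - Polynomial.X) * T' -
        Polynomial.C ((1 - Polynomial.X ^ 2) ^ 2) * T, fun Q _ f l m e h1 h2 => ⟨(h Q f l m e h1 h2).2, ?_⟩⟩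
      obtain ⟨a1, a2⟩ := h Q f l m e h1 h2
      rw [Polynomial.eval₂_sub, Polynomial.eval₂_mul, Polynomial.eval₂_mul, Polynomial.eval₂_sub,
        Polynomial.eval₂_C, Polynomial.eval₂_C, Polynomial.eval₂_X]
      simp only [map_mul, map_add, map_sub, map_pow, map_one, map_ofNat]
      rw [← a1, ← a2, ← h1, ← h2]
      ring
  induction K using Polynomial.induction_on' with
  | add p q h1 h2 =>
    obtain ⟨T1, h1⟩ := h1
    obtain ⟨T2, h2⟩ := h2
    refine ⟨T1 + T2, fun Q _ f l m e a b => ?_⟩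
    rw [Polynomial.eval₂_add, Polynomial.eval₂_add, Polynomial.eval₂_add, ← h1 Q f l m e a b,
      ← h2 Q f l m e a b]
    ring
  | monomial n c =>
    obtain ⟨T, _, h⟩ := pw n
    refine ⟨Polynomial.C c * T, fun Q _ f l m e a b => ?_⟩
    rw [Polynomial.eval₂_monomial, Polynomial.eval₂_monomial, Polynomial.eval₂_mul,
      Polynomial.eval₂_C, ← (h Q f l m e a b).1]
    ring

/-- the basic polynomial -/
def F0 : Polynomial R1 :=
  (Polynomial.X ^ 2 - Polynomial.C (2 * (1 + Polynomial.X ^ 2)) * Polynomial.X +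
    Polynomial.C ((1 - Polynomial.X ^ 2) ^ 2)) *
  ((Polynomial.X - Polynomial.C (Polynomial.X ^ 2 - 1)) *
    (Polynomial.X + Polynomial.C (Polynomial.X ^ 2 - 1)))

lemma F0_ev {Q : Type} [CommRing Q] (f : R1 →+* Q) (z : Q) : F0.eval₂ f z =
    (z ^ 2 - 2 * (1 + f Polynomial.X ^ 2) * z + (1 - f Polynomial.X ^ 2) ^ 2) *
    ((z - (f Polynomial.X ^ 2 - 1)) * (z + (f Polynomial.X ^ 2 - 1))) := by
  unfold F0
  rw [Polynomial.eval₂_mul, Polynomial.eval₂_mul, Polynomial.eval₂_add, Polynomial.eval₂_sub,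
    Polynomial.eval₂_mul, Polynomial.eval₂_sub, Polynomial.eval₂_add, Polynomial.eval₂_pow,
    Polynomial.eval₂_C, Polynomial.eval₂_C, Polynomial.eval₂_C, Polynomial.eval₂_X]
  simp only [map_mul, map_add, map_sub, map_pow, map_one, map_ofNat]

lemma F0_sq {Q : Type} [CommRing Q] (f : R1 →+* Q) {l m e : Q}
    (h1 : l + m = 2 * (1 + f Polynomial.X ^ 2) - e) (h2 : l * m = (1 - f Polynomial.X ^ 2) ^ 2) :
    F0.eval₂ f l ^ 2 = e ^ 2 * (e - 4) * (e - 4 * f Polynomial.X ^ 2) * l ^ 4 := by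
  rw [F0_ev]
  obtain ⟨s, hs⟩ : ∃ s, s = f Polynomial.X ^ 2 := ⟨_, rfl⟩
  rw [← hs] at h1 h2 ⊢
  have e1 : l ^ 2 - 2 * (1 + s) * l + (1 - s) ^ 2 = - (e * l) := by
    linear_combination l * h1 - h2
  have e2 : (l - (s - 1)) ^ 2 = l * (4 - e) := by
    linear_combination l * h1 - h2
  have e3 : (l + (s - 1)) ^ 2 = l * (4 * s - e) := by
    linear_combination l * h1 - h2
  calc _ = (l ^ 2 - 2 * (1 + s) * l + (1 - s) ^ 2) ^ 2 * ((l - (s - 1)) ^ 2 *
        (l + (s - 1)) ^ 2) := by ring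
    _ = _ := by rw [e1, e2, e3]; ring

end

end Pool.Agent.Q191.TP
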