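import Pool.Agent.Q191.TP.Alg

/-! The main algebraic identity. -/
set_option autoImplicit false
open Filter Topology

namespace Pool.Agent.Q191.TP

noncomputable section

/-- evaluation of both variables -/
def ev2 (ρ x : ℝ) : Polynomial R1 →+* ℝ := Polynomial.eval₂RingHom (Polynomial.evalRingHom ρ) x

lemma ev2_C (ρ x : ℝ) (p : R1) : ev2 ρ x (Polynomial.C p) = p.eval ρ := by
  simp [ev2]
lemma ev2_X (ρ x : ℝ) : ev2 ρ x Polynomial.X = x := by
  simp [ev2]
lemma ev2_eq (ρ x : ℝ) (p : Polynomial R1) : ev2 ρ x p = p.eval₂ (Polynomial.evalRingHom ρ) x := rfl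

/-- powers of the variable -/
def T1 (m : ℤ) : A1 := AddMonoidAlgebra.single m 1
/-- the symbol of the Laplacian on joint products -/
def lf : A1 := CR ℤ (1 + Polynomial.X ^ 2) + CR ℤ Polynomial.X * (T1 1 + T1 (-1))
/-- the symbol of the Laplacian on products of one system -/
def ef : A1 := 2 + (T1 1 + T1 (-1))

/-- direction vectors -/
def vec (a b i j : ℤ) : ℤ →+ ℤ × ℤ × ℤ × ℤ where
  toFun m := (m * a, m * b, m * i, m * j)
  map_zero' := by simp
  map_add' x y := by simp [add_mul]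

/-- embeddings -/
def emb (a b i j : ℤ) : A1 →+* A4 := AddMonoidAlgebra.mapDomainRingHom R1 (vec a b i j)

lemma emb_single (a b i j m : ℤ) (p : R1) : emb a b i j (AddMonoidAlgebra.single m p) =
    AddMonoidAlgebra.single (m * a, m * b, m * i, m * j) p := by
  show AddMonoidAlgebra.mapDomain _ _ = _
  rw [AddMonoidAlgebra.mapDomain_single]
  rfl

lemma emb_CR (a b i j : ℤ) (p : R1) : emb a b i j (CR ℤ p) = CR _ p := by
  rw [CR_eq, emb_single, CR_eq]
  simp
  rfl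

lemma emb_eval (a b i j : ℤ) (P : Polynomial R1) (z : A1) :
    emb a b i j (P.eval₂ (CR ℤ) z) = P.eval₂ (CR _) (emb a b i j z) := by
  rw [Polynomial.hom_eval₂]
  congr 1
  refine RingHom.ext fun p => ?_
  rw [RingHom.comp_apply, emb_CR]

lemma emb_T (a b i j m : ℤ) : emb a b i j (T1 m) = X4 (m * a) (m * b) (m * i) (m * j) := by
  unfold T1 X4
  rw [emb_single]

/-- the polynomial in the Laplacian applied to the joint product -/
def FF (P : Polynomial R1) : A1 := (F0 * P).eval₂ (CR ℤ) lf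
/-- the first factor -/
def AA (T : Polynomial R1) : A1 := ef * (ef - 4) * T.eval₂ (CR ℤ) ef
/-- the second factor -/
def BB : A1 := (CR ℤ Polynomial.X) ^ 4 * (ef * (ef - 4))

/-- the relations in a commutative ring -/
theorem core {Q : Type} [CommRing Q] {r x x' y y' u u' v v' : Q} (hx : x * x' = 1)
    (hy : y * y' = 1) (hu : u * u' = 1) (hv : v * v' = 1) (hs : x + y + r * (u + v) = 0)
    (hs' : x' + y' + r * (u' + v') = 0) (hN : x * y * (u' * v') + x' * y' * (u * v) = 2) :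
    ((1 + r ^ 2) + r * (y' * v + y * v') = (1 + r ^ 2) + r * (x' * u + x * u')) ∧
    ((1 + r ^ 2) + r * (y' * u + y * u') = (1 + r ^ 2) + r * (x' * v + x * v')) ∧
    ((1 + r ^ 2) + r * (x' * u + x * u') + ((1 + r ^ 2) + r * (x' * v + x * v')) =
      2 * (1 + r ^ 2) - (2 + (x * y' + x' * y))) ∧
    (((1 + r ^ 2) + r * (x' * u + x * u')) * ((1 + r ^ 2) + r * (x' * v + x * v')) =
      (1 - r ^ 2) ^ 2) ∧
    (2 + (x * y' + x' * y) = r ^ 2 * (2 + (u * v' + u' * v))) := by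
  refine ⟨?_, ?_, ?_, ?_, ?_⟩
  · linear_combination (-(x + r * u)) * hs' + (y' + r * v') * hs + hx + r ^ 2 * hu - hy - r ^ 2 * hv
  · linear_combination (-(x + r * v)) * hs' + (y' + r * u') * hs + hx + r ^ 2 * hv - hy - r ^ 2 * hu
  · linear_combination x' * hs + x * hs' - 2 * hx
  · have e1 : (x + r * u) * (x + r * v) = - (x * y) + r ^ 2 * (u * v) := by
      linear_combination x * hs
    have e2 : (x' + r * u') * (x' + r * v') = - (x' * y') + r ^ 2 * (u' * v') := by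
      linear_combination x' * hs'
    have e3 : (1 + r ^ 2) + r * (x' * u + x * u') = (x + r * u) * (x' + r * u') := by
      linear_combination - hx - r ^ 2 * hu
    have e4 : (1 + r ^ 2) + r * (x' * v + x * v') = (x + r * v) * (x' + r * v') := by
      linear_combination - hx - r ^ 2 * hv
    have e5 : (x * y) * (x' * y') = 1 := by
      linear_combination (y * y') * hx + hy
    have e6 : (u * v) * (u' * v') = 1 := by
      linear_combination (v * v') * hu + hv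
    calc _ = ((x + r * u) * (x + r * v)) * ((x' + r * u') * (x' + r * v')) := by
          rw [e3, e4]; ring
      _ = (- (x * y) + r ^ 2 * (u * v)) * (- (x' * y') + r ^ 2 * (u' * v')) := by rw [e1, e2]
      _ = _ := by linear_combination e5 + r ^ 4 * e6 - r ^ 2 * hN
  · linear_combination (x' + y') * hs - r * (u + v) * hs' - hx - hy + r ^ 2 * hu + r ^ 2 * hv

/-- **The main identity** -/
theorem main_id (P : Polynomial R1) : ∃ T : Polynomial R1,
    (∀ ρ x a b : ℝ, a + b = 2 * (1 + ρ ^ 2) - x → a * b = (1 - ρ ^ 2) ^ 2 →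
      a ^ 4 * ev2 ρ a P ^ 2 + b ^ 4 * ev2 ρ b P ^ 2 = ev2 ρ x T) ∧
    emb (-1) 0 1 0 (FF P) * emb 0 (-1) 0 1 (FF P) + emb (-1) 0 0 1 (FF P) * emb 0 (-1) 1 0 (FF P) -
      emb 1 (-1) 0 0 (AA T) * emb 0 0 1 (-1) BB ∈ J0 := by
  obtain ⟨T, hT⟩ := psum (Polynomial.X ^ 4 * P ^ 2)
  refine ⟨T, fun ρ x a b h1 h2 => ?_, ?_⟩
  · have h3 : Polynomial.evalRingHom ρ Polynomial.X = ρ := by simp
    have := hT ℝ (Polynomial.evalRingHom ρ) a b x (by rw [h3]; exact h1) (by rw [h3]; exact h2)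
    rw [ev2_eq, ev2_eq, ev2_eq, ← this]
    simp only [Polynomial.eval₂_mul, Polynomial.eval₂_pow, Polynomial.eval₂_X]
  · obtain ⟨Q, iQ, g, hg0⟩ : ∃ (Q : Type) (_ : CommRing Q) (g : A4 →+* Q),
        ∀ p : A4, g p = 0 ↔ p ∈ J0 :=
      ⟨A4 ⧸ J0, inferInstance, Ideal.Quotient.mk J0, fun p => Ideal.Quotient.eq_zero_iff_mem⟩
    have m1 : gS ∈ J0 := Ideal.subset_span (by simp)
    have m2 : gS' ∈ J0 := Ideal.subset_span (by simp)
    have m3 : gN ∈ J0 := Ideal.subset_span (by simp)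
    rw [← hg0] at m1 m2 m3 ⊢
    -- names
    obtain ⟨r, hr⟩ : ∃ r, r = g r4 := ⟨_, rfl⟩
    obtain ⟨x, hx⟩ : ∃ x, x = g (X4 1 0 0 0) := ⟨_, rfl⟩
    obtain ⟨x', hx'⟩ : ∃ x', x' = g (X4 (-1) 0 0 0) := ⟨_, rfl⟩
    obtain ⟨y, hy⟩ : ∃ y, y = g (X4 0 1 0 0) := ⟨_, rfl⟩
    obtain ⟨y', hy'⟩ : ∃ y', y' = g (X4 0 (-1) 0 0) := ⟨_, rfl⟩
    obtain ⟨u, hu⟩ : ∃ u, u = g (X4 0 0 1 0) := ⟨_, rfl⟩
    obtain ⟨u', hu'⟩ : ∃ u', u' = g (X4 0 0 (-1) 0) := ⟨_, rfl⟩
    obtain ⟨v, hv⟩ : ∃ v, v = g (X4 0 0 0 1) := ⟨_, rfl⟩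
    obtain ⟨v', hv'⟩ : ∃ v', v' = g (X4 0 0 0 (-1)) := ⟨_, rfl⟩
    have ux : x * x' = 1 := by rw [hx, hx', ← map_mul, X4_mul]; exact map_one g
    have uy : y * y' = 1 := by rw [hy, hy', ← map_mul, X4_mul]; exact map_one g
    have uu : u * u' = 1 := by rw [hu, hu', ← map_mul, X4_mul]; exact map_one g
    have uv : v * v' = 1 := by rw [hv, hv', ← map_mul, X4_mul]; exact map_one g
    have n1 : x + y + r * (u + v) = 0 := by
      rw [← m1, gS, hx, hy, hr, hu, hv]; simp only [map_add, map_mul]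
    have n2 : x' + y' + r * (u' + v') = 0 := by
      rw [← m2, gS', hx', hy', hr, hu', hv']; simp only [map_add, map_mul]
    have n3 : x * y * (u' * v') + x' * y' * (u * v) = 2 := by
      have e1 : X4 1 1 (-1) (-1) = X4 1 0 0 0 * X4 0 1 0 0 * (X4 0 0 (-1) 0 * X4 0 0 0 (-1)) := by
        simp only [X4_mul]; rfl
      have e2 : X4 (-1) (-1) 1 1 = X4 (-1) 0 0 0 * X4 0 (-1) 0 0 * (X4 0 0 1 0 * X4 0 0 0 1) := by
        simp only [X4_mul]; rfl
      rw [gN, e1, e2] at m3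
      simp only [map_sub, map_add, map_mul, ← hx, ← hy, ← hu', ← hv', ← hx', ← hy', ← hu, ← hv]
        at m3
      have e3 : g (2 : A4) = 2 := map_ofNat g 2
      rw [e3] at m3
      exact sub_eq_zero.1 m3
    obtain ⟨c1, c2, c3, c4, c5⟩ := core ux uy uu uv n1 n2 n3
    -- the coefficients
    obtain ⟨f, hf⟩ : ∃ f : R1 →+* Q, f = g.comp (CR _) := ⟨_, rfl⟩
    have fX : f Polynomial.X = r := by rw [hf, hr]; rfl
    have f1 : f (1 + Polynomial.X ^ 2) = 1 + r ^ 2 := by rw [map_add, map_one, map_pow, fX]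
    have gev : ∀ (a b i j : ℤ) (F : Polynomial R1) (z : A1),
        g (emb a b i j (F.eval₂ (CR ℤ) z)) = F.eval₂ f (g (emb a b i j z)) := by
      intro a b i j F z
      rw [emb_eval, Polynomial.hom_eval₂, hf]
    have gl : ∀ a b i j : ℤ, g (emb a b i j lf) = (1 + r ^ 2) + r * (g (X4 a b i j) +
        g (X4 (-a) (-b) (-i) (-j))) := by
      intro a b i j
      have e1 : ∀ p, g (CR _ p) = f p := fun p => by rw [hf]; rfl
      unfold lf
      simp only [map_add, map_mul, emb_CR, emb_T, one_mul, neg_mul, e1]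
      rw [map_one, map_pow, fX]
    have ge : ∀ a b i j : ℤ, g (emb a b i j ef) = 2 + (g (X4 a b i j) +
        g (X4 (-a) (-b) (-i) (-j))) := by
      intro a b i j
      unfold ef
      simp only [map_add, emb_T, one_mul, neg_mul]
      rw [map_ofNat, map_ofNat]
    have L1 : g (emb (-1) 0 1 0 lf) = (1 + r ^ 2) + r * (x' * u + x * u') := by
      rw [gl, hx', hu, hx, hu', ← map_mul, ← map_mul, X4_mul, X4_mul]; rfl
    have L2 : g (emb 0 (-1) 0 1 lf) = (1 + r ^ 2) + r * (y' * v + y * v') := by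
      rw [gl, hy', hv, hy, hv', ← map_mul, ← map_mul, X4_mul, X4_mul]; rfl
    have L3 : g (emb (-1) 0 0 1 lf) = (1 + r ^ 2) + r * (x' * v + x * v') := by
      rw [gl, hx', hv, hx, hv', ← map_mul, ← map_mul, X4_mul, X4_mul]; rfl
    have L4 : g (emb 0 (-1) 1 0 lf) = (1 + r ^ 2) + r * (y' * u + y * u') := by
      rw [gl, hy', hu, hy, hu', ← map_mul, ← map_mul, X4_mul, X4_mul]; rfl
    have M1 : g (emb 1 (-1) 0 0 ef) = 2 + (x * y' + x' * y) := by
      rw [ge, hx', hy, hx, hy', ← map_mul, ← map_mul, X4_mul, X4_mul]; rfl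
    have M2 : g (emb 0 0 1 (-1) ef) = 2 + (u * v' + u' * v) := by
      rw [ge, hu', hv, hu, hv', ← map_mul, ← map_mul, X4_mul, X4_mul]; rfl
    obtain ⟨l, hl⟩ : ∃ l, l = (1 + r ^ 2) + r * (x' * u + x * u') := ⟨_, rfl⟩
    obtain ⟨m, hm⟩ : ∃ m, m = (1 + r ^ 2) + r * (x' * v + x * v') := ⟨_, rfl⟩
    obtain ⟨e, he⟩ : ∃ e, e = 2 + (x * y' + x' * y) := ⟨_, rfl⟩
    obtain ⟨d, hd⟩ : ∃ d, d = 2 + (u * v' + u' * v) := ⟨_, rfl⟩
    rw [← hl] at c1 c3 c4 L1
    rw [← hm] at c2 c3 c4 L3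
    rw [← he] at c3 c5 M1
    rw [← hd] at c5 M2
    rw [c1] at L2
    rw [c2] at L4
    have k1 : l + m = 2 * (1 + f Polynomial.X ^ 2) - e := by rw [fX]; exact c3
    have k2 : l * m = (1 - f Polynomial.X ^ 2) ^ 2 := by rw [fX]; exact c4
    have k1' : m + l = 2 * (1 + f Polynomial.X ^ 2) - e := by rw [← k1]; ring
    have k2' : m * l = (1 - f Polynomial.X ^ 2) ^ 2 := by rw [← k2]; ring
    have s1 := F0_sq f k1 k2
    have s2 := F0_sq f k1' k2'
    have s3 := hT _ f l m e k1 k2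
    simp only [Polynomial.eval₂_mul, Polynomial.eval₂_pow, Polynomial.eval₂_X] at s3
    have g4 : ∀ a b i j : ℤ, g (emb a b i j 4) = 4 := fun _ _ _ _ => by
      rw [map_ofNat, map_ofNat]
    have gA : g (emb 1 (-1) 0 0 (AA T)) = e * (e - 4) * T.eval₂ f e := by
      unfold AA
      simp only [map_mul, map_sub]
      rw [gev, M1, g4]
    have gB : g (emb 0 0 1 (-1) BB) = r ^ 4 * (d * (d - 4)) := by
      unfold BB
      simp only [map_mul, map_sub, map_pow]
      rw [M2, emb_CR, g4]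
      have e1 : g (CR _ Polynomial.X) = r := by rw [hr]; rfl
      rw [e1]
    have gF : ∀ a b i j : ℤ, g (emb a b i j (FF P)) = F0.eval₂ f (g (emb a b i j lf)) *
        P.eval₂ f (g (emb a b i j lf)) := by
      intro a b i j
      unfold FF
      rw [gev, Polynomial.eval₂_mul]
    rw [map_sub, map_add, map_mul, map_mul, map_mul, gF, gF, gF, gF, gA, gB, L1, L2, L3, L4, ← s3]
    rw [fX] at s1 s2
    linear_combination (P.eval₂ f l ^ 2) * s1 + (P.eval₂ f m ^ 2) * s2 +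
      (e * (e - 4) * (l ^ 4 * P.eval₂ f l ^ 2 + m ^ 4 * P.eval₂ f m ^ 2)) *
        ((e - 4 * r ^ 2 + r ^ 2 * d) * c5)

end

end Pool.Agent.Q191.TP
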