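import Pool.Agent.Q191.TP.Alg2
import Pool.Agent.W745.RW.Alg2
import Pool.Agent.W745.RW.Mom

/-! Evaluations on the circle and averages. -/
set_option autoImplicit false
open Filter Topology MeasureTheory

namespace Pool.Agent.Q191.TP

open Pool.Agent.W745.RW (CC GG eps)

noncomputable section

/-- characters -/
def chz (u : ℂˣ) : Multiplicative ℤ →* ℂ := (Units.coeHom ℂ).comp (zpowersHom ℂˣ u)

/-- evaluation at a nonzero complex number -/
def EV1 (ρ : ℝ) (u : ℂˣ) : A1 →+* ℂ :=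
  AddMonoidAlgebra.liftNCRingHom (cf ρ) (chz u) (fun _ _ => Commute.all _ _)

lemma EV1_single (ρ : ℝ) (u : ℂˣ) (m : ℤ) (p : R1) :
    EV1 ρ u (AddMonoidAlgebra.single m p) = cf ρ p * (u : ℂ) ^ m := by
  unfold EV1
  rw [AddMonoidAlgebra.liftNCRingHom_single]
  simp [chz]

lemma EV1_CR (ρ : ℝ) (u : ℂˣ) (p : R1) : EV1 ρ u (CR ℤ p) = cf ρ p := by
  rw [CR_eq, EV1_single]; simp

lemma EV1_T (ρ : ℝ) (u : ℂˣ) (m : ℤ) : EV1 ρ u (T1 m) = (u : ℂ) ^ m := by
  unfold T1; rw [EV1_single, map_one, one_mul]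

lemma EV1_eval (ρ : ℝ) (u : ℂˣ) (P : Polynomial R1) (z : A1) {x : ℝ} (hz : EV1 ρ u z = (x : ℂ)) :
    EV1 ρ u (P.eval₂ (CR ℤ) z) = ((ev2 ρ x P : ℝ) : ℂ) := by
  rw [Polynomial.hom_eval₂, hz]
  have e : (EV1 ρ u).comp (CR ℤ) = Complex.ofRealHom.comp (Polynomial.evalRingHom ρ) := by
    refine RingHom.ext fun p => ?_
    rw [RingHom.comp_apply, EV1_CR]; rfl
  rw [e, ev2_eq]
  have := Polynomial.hom_eval₂ P (Polynomial.evalRingHom ρ) Complex.ofRealHom x
  exact this.symm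

/-- points of the circle -/
def cu (θ : ℝ) : ℂˣ := Units.mk0 (Complex.exp (θ * Complex.I)) (Complex.exp_ne_zero _)

lemma cu_zpow (θ : ℝ) (m : ℤ) : ((cu θ : ℂˣ) : ℂ) ^ m = Complex.exp ((m * Complex.I) * θ) := by
  show (Complex.exp (θ * Complex.I)) ^ m = _
  rw [← Complex.exp_int_mul]
  congr 1; ring

lemma cu_neg (θ : ℝ) (m : ℤ) : (((cu θ)⁻¹ : ℂˣ) : ℂ) ^ m = Complex.exp (((-m : ℤ) * Complex.I) * θ) := by
  rw [← cu_zpow, Units.val_inv_eq_inv_val, inv_zpow, zpow_neg]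

lemma cu_sum (θ : ℝ) : ((cu θ : ℂˣ) : ℂ) ^ (1 : ℤ) + ((cu θ : ℂˣ) : ℂ) ^ (-1 : ℤ) =
    ((2 * Real.cos θ : ℝ) : ℂ) := by
  rw [cu_zpow, cu_zpow]
  push_cast
  rw [Complex.cos]
  have e1 : (1 : ℂ) * Complex.I * θ = θ * Complex.I := by ring
  have e2 : (-1 : ℂ) * Complex.I * θ = -θ * Complex.I := by ring
  rw [e1, e2]; ring

lemma cu_sum' (θ : ℝ) : (((cu θ)⁻¹ : ℂˣ) : ℂ) ^ (1 : ℤ) + (((cu θ)⁻¹ : ℂˣ) : ℂ) ^ (-1 : ℤ) =
    ((2 * Real.cos θ : ℝ) : ℂ) := by
  rw [← cu_sum, Units.val_inv_eq_inv_val, inv_zpow, inv_zpow, ← zpow_neg, ← zpow_neg, neg_neg,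
    add_comm]

lemma EV_ef {ρ : ℝ} {u : ℂˣ} {c : ℝ} (hu : (u : ℂ) ^ (1 : ℤ) + (u : ℂ) ^ (-1 : ℤ) =
    ((2 * c : ℝ) : ℂ)) : EV1 ρ u ef = ((2 + 2 * c : ℝ) : ℂ) := by
  unfold ef
  rw [map_add, map_add, EV1_T, EV1_T, hu, map_ofNat]
  push_cast; ring

lemma EV_lf {ρ : ℝ} {u : ℂˣ} {c : ℝ} (hu : (u : ℂ) ^ (1 : ℤ) + (u : ℂ) ^ (-1 : ℤ) =
    ((2 * c : ℝ) : ℂ)) : EV1 ρ u lf = ((1 + ρ ^ 2 + 2 * ρ * c : ℝ) : ℂ) := by
  unfold lf
  rw [map_add (EV1 ρ u), map_mul (EV1 ρ u), map_add (EV1 ρ u), EV1_T, EV1_T, hu, EV1_CR, EV1_CR,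
    cf_eq, cf_eq]
  simp only [Polynomial.eval_add, Polynomial.eval_one, Polynomial.eval_pow, Polynomial.eval_X]
  push_cast; ring

lemma ec_cont (ρ : ℝ) (p : A1) : Continuous fun θ : ℝ => EV1 ρ (cu θ) p := by
  induction p using AddMonoidAlgebra.induction_linear with
  | zero => simp only [map_zero]; exact continuous_const
  | add p q h1 h2 => simp only [map_add]; exact h1.add h2
  | single m c =>
    simp only [EV1_single, cu_zpow]
    fun_prop

lemma ec_cont' (ρ : ℝ) (p : A1) : Continuous fun θ : ℝ => EV1 ρ (cu θ)⁻¹ p := by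
  induction p using AddMonoidAlgebra.induction_linear with
  | zero => simp only [map_zero]; exact continuous_const
  | add p q h1 h2 => simp only [map_add]; exact h1.add h2
  | single m c =>
    simp only [EV1_single, cu_neg]
    fun_prop

lemma int_exp (m : ℤ) : ∫ θ in (0 : ℝ)..(2 * Real.pi), Complex.exp ((m * Complex.I) * θ) =
    if m = 0 then ((2 * Real.pi : ℝ) : ℂ) else 0 := by
  by_cases hm : m = 0
  · rw [if_pos hm, hm]
    simp
  · rw [if_neg hm]
    have hc : (m : ℂ) * Complex.I ≠ 0 := mul_ne_zero (by exact_mod_cast hm) Complex.I_ne_zero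
    rw [integral_exp_mul_complex hc]
    have e1 : (m : ℂ) * Complex.I * ((2 * Real.pi : ℝ) : ℂ) = m * (2 * Real.pi * Complex.I) := by
      push_cast; ring
    rw [e1, Complex.exp_int_mul_two_pi_mul_I]
    simp

/-- the two averages -/
def AM (ρ : ℝ) (p q : A1) : ℂ :=
  1 / (2 * Real.pi) * ∫ θ in (0 : ℝ)..(2 * Real.pi), EV1 ρ (cu θ) p * EV1 ρ (cu θ) q
def BM (ρ : ℝ) (p q : A1) : ℂ :=
  1 / (2 * Real.pi) * ∫ θ in (0 : ℝ)..(2 * Real.pi), EV1 ρ (cu θ) p * EV1 ρ (cu θ)⁻¹ q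

lemma AM_add_left (ρ : ℝ) (p p' q : A1) : AM ρ (p + p') q = AM ρ p q + AM ρ p' q := by
  unfold AM
  rw [← mul_add, ← intervalIntegral.integral_add]
  · simp only [map_add, add_mul]
  · exact ((ec_cont ρ p).mul (ec_cont ρ q)).intervalIntegrable _ _
  · exact ((ec_cont ρ p').mul (ec_cont ρ q)).intervalIntegrable _ _

lemma AM_add_right (ρ : ℝ) (p q q' : A1) : AM ρ p (q + q') = AM ρ p q + AM ρ p q' := by
  unfold AM
  rw [← mul_add, ← intervalIntegral.integral_add]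
  · simp only [map_add, mul_add]
  · exact ((ec_cont ρ p).mul (ec_cont ρ q)).intervalIntegrable _ _
  · exact ((ec_cont ρ p).mul (ec_cont ρ q')).intervalIntegrable _ _

lemma BM_add_left (ρ : ℝ) (p p' q : A1) : BM ρ (p + p') q = BM ρ p q + BM ρ p' q := by
  unfold BM
  rw [← mul_add, ← intervalIntegral.integral_add]
  · simp only [map_add, add_mul]
  · exact ((ec_cont ρ p).mul (ec_cont' ρ q)).intervalIntegrable _ _
  · exact ((ec_cont ρ p').mul (ec_cont' ρ q)).intervalIntegrable _ _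

lemma BM_add_right (ρ : ℝ) (p q q' : A1) : BM ρ p (q + q') = BM ρ p q + BM ρ p q' := by
  unfold BM
  rw [← mul_add, ← intervalIntegral.integral_add]
  · simp only [map_add, mul_add]
  · exact ((ec_cont ρ p).mul (ec_cont' ρ q)).intervalIntegrable _ _
  · exact ((ec_cont ρ p).mul (ec_cont' ρ q')).intervalIntegrable _ _

lemma AM_zero_left (ρ : ℝ) (q : A1) : AM ρ 0 q = 0 := by simp [AM]
lemma AM_zero_right (ρ : ℝ) (q : A1) : AM ρ q 0 = 0 := by simp [AM]
lemma BM_zero_left (ρ : ℝ) (q : A1) : BM ρ 0 q = 0 := by simp [BM]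
lemma BM_zero_right (ρ : ℝ) (q : A1) : BM ρ q 0 = 0 := by simp [BM]

lemma pi_id : (1 : ℂ) / (2 * Real.pi) * ((2 * Real.pi : ℝ) : ℂ) = 1 := by
  have : (Real.pi : ℂ) ≠ 0 := by exact_mod_cast Real.pi_ne_zero
  push_cast
  field_simp

lemma AM_single (ρ : ℝ) (m k : ℤ) (c d : R1) : AM ρ (AddMonoidAlgebra.single m c)
    (AddMonoidAlgebra.single k d) = cf ρ c * cf ρ d * (if m + k = 0 then 1 else 0) := by
  unfold AM
  have e : ∀ θ : ℝ, EV1 ρ (cu θ) (AddMonoidAlgebra.single m c) *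
      EV1 ρ (cu θ) (AddMonoidAlgebra.single k d) = (cf ρ c * cf ρ d) *
      Complex.exp (((m + k : ℤ) * Complex.I) * θ) := by
    intro θ
    rw [EV1_single, EV1_single, cu_zpow, cu_zpow]
    have : Complex.exp ((((m + k : ℤ) : ℂ) * Complex.I) * θ) =
        Complex.exp ((m * Complex.I) * θ) * Complex.exp ((k * Complex.I) * θ) := by
      rw [← Complex.exp_add]; congr 1; push_cast; ring
    rw [this]; ring
  simp only [e]
  rw [intervalIntegral.integral_const_mul, int_exp]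
  split_ifs with h
  · rw [mul_left_comm, pi_id]
  · simp

lemma BM_single (ρ : ℝ) (m k : ℤ) (c d : R1) : BM ρ (AddMonoidAlgebra.single m c)
    (AddMonoidAlgebra.single k d) = cf ρ c * cf ρ d * (if m - k = 0 then 1 else 0) := by
  unfold BM
  have e : ∀ θ : ℝ, EV1 ρ (cu θ) (AddMonoidAlgebra.single m c) *
      EV1 ρ (cu θ)⁻¹ (AddMonoidAlgebra.single k d) = (cf ρ c * cf ρ d) *
      Complex.exp (((m - k : ℤ) * Complex.I) * θ) := by
    intro θ
    rw [EV1_single, EV1_single, cu_zpow, cu_neg]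
    have : Complex.exp ((((m - k : ℤ) : ℂ) * Complex.I) * θ) =
        Complex.exp ((m * Complex.I) * θ) * Complex.exp (((-k : ℤ) * Complex.I) * θ) := by
      rw [← Complex.exp_add]; congr 1; push_cast; ring
    rw [this]; ring
  simp only [e]
  rw [intervalIntegral.integral_const_mul, int_exp]
  split_ifs with h
  · rw [mul_left_comm, pi_id]
  · simp

/-! ### the Gaussian values -/

/-- bilinear extension -/
lemma bil {Φ Ψ : A1 → A1 → ℂ}
    (z1 : ∀ q, Φ 0 q = 0) (z2 : ∀ q, Φ q 0 = 0) (a1 : ∀ p p' q, Φ (p + p') q = Φ p q + Φ p' q)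
    (a2 : ∀ p q q', Φ p (q + q') = Φ p q + Φ p q')
    (z1' : ∀ q, Ψ 0 q = 0) (z2' : ∀ q, Ψ q 0 = 0) (a1' : ∀ p p' q, Ψ (p + p') q = Ψ p q + Ψ p' q)
    (a2' : ∀ p q q', Ψ p (q + q') = Ψ p q + Ψ p q')
    (hs : ∀ (m k : ℤ) (c d : R1), Φ (AddMonoidAlgebra.single m c) (AddMonoidAlgebra.single k d) =
      Ψ (AddMonoidAlgebra.single m c) (AddMonoidAlgebra.single k d)) (p q : A1) : Φ p q = Ψ p q := by
  induction p using AddMonoidAlgebra.induction_linear with
  | zero => rw [z1, z1']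
  | add p p' h1 h2 => rw [a1, a1', h1, h2]
  | single m c =>
    induction q using AddMonoidAlgebra.induction_linear with
    | zero => rw [z2, z2']
    | add q q' h1 h2 => rw [a2, a2', h1, h2]
    | single k d => exact hs m k c d

/-- the Gaussian values of joint products -/
def K4 (g : ℤ × ℤ × ℤ × ℤ) (_n : ℕ) : ℂ := CC g.1 g.2.1 * CC g.2.2.1 g.2.2.2

lemma CC_val (a b : ℤ) : CC a b = if a + b = 0 then (-1 : ℂ) ^ a else 0 := by
  unfold CC
  split_ifs with h
  · rcases Int.even_or_odd a with ha | ha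
    · rw [ha.neg_one_zpow, (Int.natAbs_even.2 ha).neg_one_pow]
    · rw [ha.neg_one_zpow, (Int.natAbs_odd.2 ha).neg_one_pow]
  · rfl

lemma m1_sq (a : ℤ) : (-1 : ℂ) ^ a * (-1) ^ a = 1 := by
  rw [← mul_zpow]; simp
lemma m1_neg (a : ℤ) : (-1 : ℂ) ^ (-a) = (-1) ^ a := by
  rw [zpow_neg, ← inv_zpow]; norm_num

variable {ρ : ℕ → ℝ}

lemma K4_13 (p q : A1) (n : ℕ) : LM K4 ρ n (emb (-1) 0 1 0 p * emb 0 (-1) 0 1 q) =
    AM (ρ n) p q := by
  refine bil (Φ := fun p q => LM K4 ρ n (emb (-1) 0 1 0 p * emb 0 (-1) 0 1 q))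
    (Ψ := AM (ρ n)) (by simp) (by simp) (fun _ _ _ => by simp [add_mul])
    (fun _ _ _ => by simp [mul_add]) (AM_zero_left _) (AM_zero_right _) (AM_add_left _)
    (AM_add_right _) (fun m k c d => ?_) p q
  rw [emb_single, emb_single, AddMonoidAlgebra.single_mul_single, LM_single, AM_single, map_mul]
  congr 1
  simp only [K4, Prod.mk_add_mk, mul_zero, mul_one, add_zero, zero_add,
    mul_neg, CC_val]
  by_cases h : m + k = 0
  · rw [if_pos (by omega), if_pos h, if_pos h, m1_neg, m1_sq]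
  · rw [if_neg (by omega), if_neg h, if_neg h]; simp

lemma K4_14 (p q : A1) (n : ℕ) : LM K4 ρ n (emb (-1) 0 0 1 p * emb 0 (-1) 1 0 q) =
    AM (ρ n) p q := by
  refine bil (Φ := fun p q => LM K4 ρ n (emb (-1) 0 0 1 p * emb 0 (-1) 1 0 q))
    (Ψ := AM (ρ n)) (by simp) (by simp) (fun _ _ _ => by simp [add_mul])
    (fun _ _ _ => by simp [mul_add]) (AM_zero_left _) (AM_zero_right _) (AM_add_left _)
    (AM_add_right _) (fun m k c d => ?_) p q
  rw [emb_single, emb_single, AddMonoidAlgebra.single_mul_single, LM_single, AM_single, map_mul]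
  congr 1
  simp only [K4, Prod.mk_add_mk, mul_zero, mul_one, add_zero, zero_add,
    mul_neg, CC_val]
  by_cases h : m + k = 0
  · rw [if_pos h, if_pos (by omega), if_pos (by omega), m1_neg]
    have : k = -m := by omega
    rw [this, m1_neg, m1_sq]
  · rw [if_neg h, if_neg (by omega)]; simp

lemma K4_xy (p q : A1) (n : ℕ) : LM K4 ρ n (emb 1 (-1) 0 0 p * emb 0 0 1 (-1) q) =
    EV1 (ρ n) (-1) p * EV1 (ρ n) (-1) q := by
  refine bil (Φ := fun p q => LM K4 ρ n (emb 1 (-1) 0 0 p * emb 0 0 1 (-1) q))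
    (Ψ := fun p q => EV1 (ρ n) (-1) p * EV1 (ρ n) (-1) q) (by simp) (by simp)
    (fun _ _ _ => by simp [add_mul])
    (fun _ _ _ => by simp [mul_add]) (by simp) (by simp) (fun _ _ _ => by simp [add_mul])
    (fun _ _ _ => by simp [mul_add]) (fun m k c d => ?_) p q
  rw [emb_single, emb_single, AddMonoidAlgebra.single_mul_single, LM_single, EV1_single,
    EV1_single, map_mul]
  simp only [K4, Prod.mk_add_mk, mul_zero, mul_one, add_zero, zero_add,
    mul_neg, CC_val]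
  rw [if_pos (by omega), if_pos (by omega)]
  push_cast
  ring

/-! ### one system -/

/-- embeddings into two variables -/
def vec2 (a b : ℤ) : ℤ →+ ℤ × ℤ where
  toFun m := (m * a, m * b)
  map_zero' := by simp
  map_add' x y := by simp [add_mul]

def emb2 (a b : ℤ) : A1 →+* A2 := AddMonoidAlgebra.mapDomainRingHom R1 (vec2 a b)

lemma emb2_single (a b m : ℤ) (p : R1) : emb2 a b (AddMonoidAlgebra.single m p) =
    AddMonoidAlgebra.single (m * a, m * b) p := by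
  show AddMonoidAlgebra.mapDomain _ _ = _
  rw [AddMonoidAlgebra.mapDomain_single]
  rfl

/-- the Gaussian values of the products of four elements of one system -/
def K2 (g : ℤ × ℤ) (_n : ℕ) : ℂ := GG g.1 (-g.1) g.2 (-g.2)
/-- the values of the excess -/
def e2 (g : ℤ × ℤ) (_n : ℕ) : ℂ := eps g.1 (-g.1) g.2 (-g.2)

lemma K2_val (p q : A1) (n : ℕ) : LM K2 ρ n (emb2 1 0 p * emb2 0 1 q) =
    EV1 (ρ n) (-1) p * EV1 (ρ n) (-1) q + AM (ρ n) p q + BM (ρ n) p q := by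
  refine bil (Φ := fun p q => LM K2 ρ n (emb2 1 0 p * emb2 0 1 q))
    (Ψ := fun p q => EV1 (ρ n) (-1) p * EV1 (ρ n) (-1) q + AM (ρ n) p q + BM (ρ n) p q)
    (by simp) (by simp)
    (fun _ _ _ => by simp [add_mul])
    (fun _ _ _ => by simp [mul_add]) (fun q => by simp [AM_zero_left, BM_zero_left])
    (fun q => by simp [AM_zero_right, BM_zero_right])
    (fun p p' q => by simp only [map_add, AM_add_left, BM_add_left]; ring)
    (fun p q q' => by simp only [map_add, AM_add_right, BM_add_right]; ring)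
    (fun m k c d => ?_) p q
  rw [emb2_single, emb2_single, AddMonoidAlgebra.single_mul_single, LM_single, EV1_single,
    EV1_single, map_mul, AM_single, BM_single]
  simp only [K2, GG, Prod.mk_add_mk, mul_zero, mul_one, add_zero, zero_add, CC_val]
  rw [if_pos (show m + -m = 0 by omega), if_pos (show k + -k = 0 by omega)]
  have h1 : (if m + k = 0 then (-1 : ℂ) ^ m else 0) * (if -m + -k = 0 then (-1 : ℂ) ^ (-m) else 0) =
      if m + k = 0 then 1 else 0 := by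
    by_cases h : m + k = 0
    · rw [if_pos h, if_pos (by omega), if_pos h, m1_neg, m1_sq]
    · rw [if_neg h, if_neg h]; simp
  have h2 : (if m + -k = 0 then (-1 : ℂ) ^ m else 0) * (if -m + k = 0 then (-1 : ℂ) ^ (-m) else 0) =
      if m - k = 0 then 1 else 0 := by
    by_cases h : m - k = 0
    · rw [if_pos (by omega), if_pos (by omega), if_pos h, m1_neg, m1_sq]
    · rw [if_neg (by omega), if_neg h]; simp
  rw [h1, h2]
  push_cast
  ring

lemma e2_val (p q : A1) (n : ℕ) : LM e2 ρ n (emb2 1 0 p * emb2 0 1 q) =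
    (EV1 (ρ n) 1 p * EV1 (ρ n) 1 q + 2 * (EV1 (ρ n) (-1) p * EV1 (ρ n) (-1) q)) / 3 := by
  refine bil (Φ := fun p q => LM e2 ρ n (emb2 1 0 p * emb2 0 1 q))
    (Ψ := fun p q => (EV1 (ρ n) 1 p * EV1 (ρ n) 1 q +
      2 * (EV1 (ρ n) (-1) p * EV1 (ρ n) (-1) q)) / 3)
    (by simp) (by simp)
    (fun _ _ _ => by simp [add_mul])
    (fun _ _ _ => by simp [mul_add]) (by simp) (by simp)
    (fun p p' q => by simp only [map_add]; ring)
    (fun p q q' => by simp only [map_add]; ring)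
    (fun m k c d => ?_) p q
  rw [emb2_single, emb2_single, AddMonoidAlgebra.single_mul_single, LM_single, EV1_single,
    EV1_single, map_mul, EV1_single, EV1_single]
  simp only [e2, eps, Prod.mk_add_mk, mul_zero, mul_one, add_zero, zero_add]
  have h1 : (if m % 2 = -m % 2 ∧ -m % 2 = k % 2 ∧ k % 2 = -k % 2 then (1 : ℂ) else -(1 / 3)) =
      (1 + 2 * ((-1) ^ m * (-1) ^ k)) / 3 := by
    rcases Int.even_or_odd (m + k) with h | h
    · rw [if_pos (by obtain ⟨s, hs⟩ := h; omega), ← zpow_add₀ (by norm_num), h.neg_one_zpow]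
      norm_num
    · rw [if_neg (by obtain ⟨s, hs⟩ := h; omega), ← zpow_add₀ (by norm_num), h.neg_one_zpow]
      norm_num
  rw [h1]
  push_cast
  simp only [one_zpow]
  ring

end

end Pool.Agent.Q191.TP
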