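import Pool.Agent.Y265.HY.JC6

/-! Two ladder systems with comparable parameters: quartic errors and quartic relations. -/
set_option autoImplicit false
open MeasureTheory Filter Topology Complex Set
open scoped ContDiff Real Manifold

namespace Pool.Agent.Q191.TP

open Pool.Agent.W745.RW Pool.Agent.TH294.RS Pool.Agent.Y265.HY

noncomputable section

variable {B : Set ℂ} {h k : ℕ → ℝ} {w v : ℤ → ℕ → ℂ → ℂ}

/-- `h |f|² → 0` locally uniformly -/
def Sm (B : Set ℂ) (h : ℕ → ℝ) (f : ℕ → ℂ → ℂ) : Prop :=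
  (∀ n, ContinuousOn (f n) B) ∧ ∀ K : Set ℂ, IsCompact K → K ⊆ B → ∀ ε : ℝ, 0 < ε →
    ∀ᶠ n in atTop, ∀ z ∈ K, h n * ‖f n z‖ ^ 2 ≤ ε

lemma Sm.of (H : SY B Complex.im h w) (hBU : B ⊆ UH) {f : ℕ → ℂ → ℂ} (hf : RP B h w f) :
    Sm B h f :=
  ⟨fun n => (hf.dec.m H).co n, fun _ hK hKB _ hε => sup_rp H hBU hf hK hKB hε⟩

lemma Sm.le {f : ℕ → ℂ → ℂ} (hf : Sm B k f) {c : ℝ} (hc : 0 < c) (hk : ∀ n, h n ≤ c * k n) :
    Sm B h f := by
  refine ⟨hf.1, fun K hK hKB ε hε => ?_⟩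
  filter_upwards [hf.2 K hK hKB (ε / c) (by positivity)] with n hn z hz
  have h1 := hn z hz
  rw [le_div_iff₀ hc] at h1
  calc h n * ‖f n z‖ ^ 2 ≤ c * k n * ‖f n z‖ ^ 2 :=
        mul_le_mul_of_nonneg_right (hk n) (by positivity)
    _ = k n * ‖f n z‖ ^ 2 * c := by ring
    _ ≤ ε := h1

/-- quartic errors vanish -/
theorem hE4g (hh : ∀ n, 0 ≤ h n) {R f g : ℕ → ℂ → ℂ} (hR : LB B 1 R)
    (hf : Sm B h f) (hg : Sm B h g) :
    WN B (fun n z => (h n : ℂ) * (R n z * (f n z * g n z))) := by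
  refine ⟨fun n => continuousOn_const.mul ((hR.co n).mul ((hf.1 n).mul (hg.1 n))), fun φ hφ => ?_⟩
  have hK : IsCompact (tsupport φ) := hφ.2.1
  obtain ⟨C, hC⟩ := l1b_of hR (tsupport φ) hK hφ.2.2
  obtain ⟨M', hM'⟩ := hK.exists_bound_of_continuousOn hφ.1.continuous.continuousOn
  set M := max M' 0 with hM
  have hM0 : 0 ≤ M := le_max_right _ _
  have hb : ∀ z ∈ tsupport φ, ‖φ z‖ ≤ M := fun z hz => (hM' z hz).trans (le_max_left _ _)
  show Tendsto _ atTop (𝓝 0)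
  rw [Metric.tendsto_atTop']
  intro ε hε
  have hpos : 0 < ε / (2 * (M * (|C| + 1) + 1)) := by positivity
  have := ((hf.2 _ hK hφ.2.2 _ hpos).and (hg.2 _ hK hφ.2.2 _ hpos)).and hC
  rw [eventually_atTop] at this
  obtain ⟨N, hN⟩ := this
  refine ⟨N, fun n hn => ?_⟩
  obtain ⟨⟨h1, h1'⟩, h2⟩ := hN n hn.le
  rw [dist_zero_right]
  set η := ε / (2 * (M * (|C| + 1) + 1)) with hη
  have ip : IntegrableOn (fun z => ‖R n z‖) (tsupport φ) :=
    ContinuousOn.integrableOn_compact hK (((hR.co n).mono hφ.2.2).norm)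
  have e : ∫ z, (φ z : ℂ) * ((h n : ℂ) * (R n z * (f n z * g n z))) =
      ∫ z in tsupport φ, (φ z : ℂ) * ((h n : ℂ) * (R n z * (f n z * g n z))) := by
    refine (setIntegral_eq_integral_of_forall_compl_eq_zero (fun z hz => ?_)).symm
    rw [image_eq_zero_of_notMem_tsupport hz]; simp
  rw [e]
  have bb : ‖∫ z in tsupport φ, (φ z : ℂ) * ((h n : ℂ) * (R n z * (f n z * g n z)))‖ ≤
      ∫ z in tsupport φ, (M * η) * ‖R n z‖ := by
    refine norm_integral_le_of_norm_le (ip.const_mul _) ?_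
    refine (ae_restrict_iff' hK.measurableSet).2 (Eventually.of_forall fun z hz => ?_)
    have hp := hh n
    rw [norm_mul, norm_mul, norm_mul (R n z), norm_mul (f n z), Complex.norm_real,
      Complex.norm_real, Real.norm_eq_abs (h n), abs_of_nonneg hp]
    have a1 := hb z hz
    have a2 := h1 z hz
    have a3 := h1' z hz
    have a4 : h n * (‖f n z‖ * ‖g n z‖) ≤ η := by
      have : ‖f n z‖ * ‖g n z‖ ≤ (‖f n z‖ ^ 2 + ‖g n z‖ ^ 2) / 2 := by
        nlinarith [sq_nonneg (‖f n z‖ - ‖g n z‖)]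
      calc h n * (‖f n z‖ * ‖g n z‖) ≤ h n * ((‖f n z‖ ^ 2 + ‖g n z‖ ^ 2) / 2) := by gcongr
        _ ≤ η := by linarith
    calc ‖φ z‖ * (h n * (‖R n z‖ * (‖f n z‖ * ‖g n z‖))) =
          ‖φ z‖ * (h n * (‖f n z‖ * ‖g n z‖)) * ‖R n z‖ := by ring
      _ ≤ M * η * ‖R n z‖ := by gcongr
  refine bb.trans_lt ?_
  rw [integral_const_mul]
  have hC' : ∫ z in tsupport φ, ‖R n z‖ ≤ |C| + 1 := h2.trans (by linarith [le_abs_self C])
  calc M * η * ∫ z in tsupport φ, ‖R n z‖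
      ≤ M * η * (|C| + 1) := by gcongr
    _ = (M * (|C| + 1)) / (M * (|C| + 1) + 1) * (ε / 2) := by
        rw [hη]; field_simp
    _ ≤ 1 * (ε / 2) := by
        gcongr
        rw [div_le_one (by positivity)]; linarith
    _ < ε := by linarith

/-! ### bounded scalars -/

lemma LB.bm {p : ℕ} {f : ℕ → ℂ → ℂ} (hf : LB B p f) {b : ℕ → ℝ} {c : ℝ} (hb : ∀ n, |b n| ≤ c) :
    LB B p (fun n z => (b n : ℂ) * f n z) := by
  refine ⟨fun n => contDiffOn_const.mul (hf.sm n), fun K hK hKB => ?_⟩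
  obtain ⟨C, hC⟩ := hf.bd K hK hKB
  refine ⟨c ^ p * |C|, hC.mono fun n hn => ?_⟩
  have e : ∀ z, ‖(b n : ℂ) * f n z‖ ^ p = |b n| ^ p * ‖f n z‖ ^ p := fun z => by
    rw [norm_mul, Complex.norm_real, Real.norm_eq_abs, mul_pow]
  simp only [e]
  rw [integral_const_mul]
  have c0 : 0 ≤ c := (abs_nonneg _).trans (hb n)
  have h1 : |b n| ^ p ≤ c ^ p := pow_le_pow_left₀ (abs_nonneg _) (hb n) p
  have h2 : 0 ≤ ∫ z in K, ‖f n z‖ ^ p := integral_nonneg fun z => by positivity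
  exact mul_le_mul h1 (hn.trans (le_abs_self _)) h2 (by positivity)

lemma M2.bm (hB : IsOpen B) {m : ℕ} : ∀ {f : ℕ → ℂ → ℂ}, M2 B h m f → ∀ {b : ℕ → ℝ} {c : ℝ},
    (∀ n, |b n| ≤ c) → M2 B h m (fun n z => (b n : ℂ) * f n z) := by
  induction m with
  | zero => intro f H b c hb; exact LB.bm H hb
  | succ m ih =>
    intro f H b c hb
    have e : ∀ v, ∀ n, ∀ z ∈ B, hd h v (fun n z => (b n : ℂ) * f n z) n z =
        (b n : ℂ) * hd h v f n z := by
      intro v n z hz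
      simp only [hd]
      rw [fderiv_const_mul (fda hB (H.1.sm n) hz)]
      simp only [smul_apply, smul_eq_mul]
      ring
    exact ⟨LB.bm H.1 hb, (ih H.2.1 hb).congr hB (e 1), (ih H.2.2 hb).congr hB (e I)⟩

lemma M2.ch (hB : IsOpen B) (hp : ∀ n, 0 < h n) (kp : ∀ n, 0 < k n) {c : ℝ}
    (kh : ∀ n, k n ≤ c * h n) {m : ℕ} : ∀ {f : ℕ → ℂ → ℂ}, M2 B h m f → M2 B k m f := by
  induction m with
  | zero => intro f H; exact H
  | succ m ih =>
    intro f H
    have hb : ∀ n, |k n / h n| ≤ c := fun n => by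
      rw [abs_of_pos (div_pos (kp n) (hp n)), div_le_iff₀ (hp n)]
      exact kh n
    have e : ∀ v, ∀ n, ∀ z ∈ B, hd k v f n z = ((k n / h n : ℝ) : ℂ) * hd h v f n z := by
      intro v n z _
      have : (h n : ℂ) ≠ 0 := by exact_mod_cast (hp n).ne'
      simp only [hd]
      push_cast
      field_simp
    exact ⟨H.1, (M2.bm hB (ih H.2.1) hb).congr hB (e 1), (M2.bm hB (ih H.2.2) hb).congr hB (e I)⟩

lemma M2C.bm (hB : IsOpen B) {f : ℕ → ℂ → ℂ} (H : M2C B h f) {b : ℕ → ℝ} {c : ℝ}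
    (hb : ∀ n, |b n| ≤ c) : M2C B h (fun n z => (b n : ℂ) * f n z) := fun m => M2.bm hB (H m) hb

lemma M2C.ch (hB : IsOpen B) (hp : ∀ n, 0 < h n) (kp : ∀ n, 0 < k n) {c : ℝ}
    (kh : ∀ n, k n ≤ c * h n) {f : ℕ → ℂ → ℂ} (H : M2C B h f) : M2C B k f :=
  fun m => M2.ch hB hp kp kh (H m)

/-- two ladder systems with comparable parameters -/
structure S2 (B : Set ℂ) (h k : ℕ → ℝ) (w v : ℤ → ℕ → ℂ → ℂ) (c : ℝ) : Prop where
  H : SY B Complex.im h w
  G : SY B Complex.im k v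
  bu : B ⊆ UH
  h0 : EX B h w (w 0)
  g0 : EX B k v (v 0)
  cp : 0 < c
  hk : ∀ n, h n ≤ c * k n
  kh : ∀ n, k n ≤ c * h n

variable {c : ℝ}

lemma S2.symm (S : S2 B h k w v c) : S2 B k h v w c :=
  ⟨S.G, S.H, S.bu, S.g0, S.h0, S.cp, S.kh, S.hk⟩

lemma S2.s1 (S : S2 B h k w v c) {f : ℕ → ℂ → ℂ} (hf : RP B h w f) : Sm B h f :=
  Sm.of S.H S.bu hf
lemma S2.s2 (S : S2 B h k w v c) {f : ℕ → ℂ → ℂ} (hf : RP B k v f) : Sm B h f :=
  (Sm.of S.G S.bu hf).le S.cp S.hk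
lemma S2.m2 (S : S2 B h k w v c) {f : ℕ → ℂ → ℂ} (hf : M2C B k f) : M2C B h f :=
  M2C.ch S.H.op S.G.hpos S.H.hpos S.hk hf
lemma S2.e4 (S : S2 B h k w v c) {R f g : ℕ → ℂ → ℂ} (hR : LB B 1 R)
    (hf : Sm B h f) (hg : Sm B h g) : WN B (fun n z => (h n : ℂ) * (R n z * (f n z * g n z))) :=
  hE4g (fun n => (S.H.hpos n).le) hR hf hg

/-! ### the null form -/

/-- the quartic null form of two systems -/
def Q4 (h k : ℕ → ℝ) (f f' g g' : ℕ → ℂ → ℂ) (n : ℕ) (z : ℂ) : ℂ :=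
  P h f n z * P h f' n z * (M k g n z * M k g' n z) +
      M h f n z * M h f' n z * (P k g n z * P k g' n z) -
      2 * (f n z * f' n z) * (g n z * g' n z)

/-- its limit -/
def E4 (B : Set ℂ) (h k : ℕ → ℝ) (f f' g g' : ℕ → ℂ → ℂ) (z : ℂ) : ℂ :=
  lm B (P h f) (P h f') z * lm B (M k g) (M k g') z +
  lm B (M h f) (M h f') z * lm B (P k g) (P k g') z - 2 * lm B f f' z * lm B g g' z

/-- the null form converges weakly -/
def NQ (B : Set ℂ) (h k : ℕ → ℝ) (f f' g g' : ℕ → ℂ → ℂ) : Prop :=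
  WN B (fun n z => Q4 h k f f' g g' n z - E4 B h k f f' g g' z)

lemma NQ.s1 {f f' g g' : ℕ → ℂ → ℂ} (hw : NQ B h k f f' g g') : NQ B h k f' f g g' :=
  WN.congr hw fun n z _ => by
    unfold Q4 E4
    rw [lm_symm (P h f') (P h f), lm_symm (M h f') (M h f), lm_symm f' f]
    ring

lemma NQ.s2 {f f' g g' : ℕ → ℂ → ℂ} (hw : NQ B h k f f' g g') : NQ B k h g g' f f' :=
  WN.congr hw fun n z _ => by
    unfold Q4 E4
    ring

/-- multilinear extension of the null form -/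
lemma S2.ext (S : S2 B h k w v c) {f f' g g' : ℕ → ℂ → ℂ} (hf : RP B h w f)
    (hf' : RP B h w f') (hg : RP B k v g) (hg' : RP B k v g')
    (base : ∀ p, EX B h w p → NQ B h k p f' g g') : NQ B h k f f' g g' := by
  have H := S.H
  have G := S.G
  have hB := H.op
  have pf' := hf'.dec.sP H
  have mf' := hf'.dec.sM H
  induction hf with
  | ex hf => exact base _ hf
  | @add f1 f2 r1 r2 h1 h2 =>
    refine (WN.add h1 h2).congr fun n z hz => ?_
    have d1 := r1.dec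
    have d2 := r2.dec
    have q1 := lm_add H d1 d2 hf'.dec hz
    have q2 : lm B (P h (fun n z => f1 n z + f2 n z)) (P h f') z =
        lm B (P h f1) (P h f') z + lm B (P h f2) (P h f') z := by
      rw [lm_congr H ((d1.sP H).add (d2.sP H)) pf'
        (fun n z hz => P_add hB (d1.m H).sm (d2.m H).sm n hz) hz]
      exact lm_add H (d1.sP H) (d2.sP H) pf' hz
    have q3 : lm B (M h (fun n z => f1 n z + f2 n z)) (M h f') z =
        lm B (M h f1) (M h f') z + lm B (M h f2) (M h f') z := by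
      rw [lm_congr H ((d1.sM H).add (d2.sM H)) mf'
        (fun n z hz => M_add hB (d1.m H).sm (d2.m H).sm n hz) hz]
      exact lm_add H (d1.sM H) (d2.sM H) mf' hz
    simp only [Q4, E4]
    rw [q1, q2, q3, P_add hB (d1.m H).sm (d2.m H).sm n hz, M_add hB (d1.m H).sm (d2.m H).sm n hz]
    ring
  | @smul f1 b hc r1 h1 =>
    have d1 := r1.dec
    have m1 := d1.m H
    have e1 := (m1.smulc hB H.hlim (dd_sm hB hc)).smulc hB H.hlim (cxa H.sa)
    have e2 := (m1.smulc hB H.hlim (db_sm hB hc)).smulc hB H.hlim (cxa H.sa)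
    have E1 := S.e4 (LB.mul2 e1.lb (pf'.m H).lb) (S.s2 (hg.sM G)) (S.s2 (hg'.sM G))
    have E2 := S.e4 (LB.mul2 e2.lb (mf'.m H).lb) (S.s2 (hg.sP G)) (S.s2 (hg'.sP G))
    refine (((WNs hB h1 hc).add E1).add E2).congr fun n z hz => ?_
    have q1 := lm_smul H hc d1 hf'.dec hz
    have q2 : lm B (P h (fun n z => b z * f1 n z)) (P h f') z =
        b z * lm B (P h f1) (P h f') z := by
      rw [lm_congr H (((d1.sP H).smul hc).add (Dec.err e1)) pf'
        (fun n z hz => P_smul hB hc m1.sm n hz) hz, lm_add H ((d1.sP H).smul hc) (Dec.err e1) pf' hz,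
        lm_smul H hc (d1.sP H) pf' hz, lm_err H e1 pf' hz, add_zero]
    have q3 : lm B (M h (fun n z => b z * f1 n z)) (M h f') z =
        b z * lm B (M h f1) (M h f') z := by
      rw [lm_congr H (((d1.sM H).smul hc).add (Dec.err e2)) mf'
        (fun n z hz => M_smul hB hc m1.sm n hz) hz, lm_add H ((d1.sM H).smul hc) (Dec.err e2) mf' hz,
        lm_smul H hc (d1.sM H) mf' hz, lm_err H e2 mf' hz, add_zero]
    simp only [Q4, E4]
    rw [q1, q2, q3, P_smul hB hc m1.sm n hz, M_smul hB hc m1.sm n hz]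
    ring
  | @err e he =>
    have e1 := he.sP hB H.hlim H.sa
    have e2 := he.sM hB H.hlim H.sa
    have E1 := S.e4 (LB.mul2 e1.lb (pf'.m H).lb) (S.s2 (hg.sM G)) (S.s2 (hg'.sM G))
    have E2 := S.e4 (LB.mul2 e2.lb (mf'.m H).lb) (S.s2 (hg.sP G)) (S.s2 (hg'.sP G))
    have E3 := (S.e4 (LB.mul2 he.lb (hf'.dec.m H).lb) (S.s2 hg) (S.s2 hg')).cmul 2
    refine ((E1.add E2).sub E3).congr fun n z hz => ?_
    have q1 := lm_err H he hf'.dec hz
    have q2 : lm B (P h (fun n z => (h n : ℂ) * e n z)) (P h f') z = 0 := by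
      rw [lm_congr H (Dec.err e1) pf' (fun n z hz => P_h hB he.sm n hz) hz, lm_err H e1 pf' hz]
    have q3 : lm B (M h (fun n z => (h n : ℂ) * e n z)) (M h f') z = 0 := by
      rw [lm_congr H (Dec.err e2) mf' (fun n z hz => M_h hB he.sm n hz) hz, lm_err H e2 mf' hz]
    simp only [Q4, E4]
    rw [q1, q2, q3, P_h hB he.sm n hz, M_h hB he.sm n hz]
    ring
  | @congr f1 f2 r1 e h1 =>
    refine WN.congr h1 fun n z hz => ?_
    have d1 := r1.dec
    have q1 := lm_congr H d1 hf'.dec e hz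
    have q2 : lm B (P h f2) (P h f') z = lm B (P h f1) (P h f') z :=
      lm_congr H (d1.sP H) pf' (fun n z hz => P_cg hB e n hz) hz
    have q3 : lm B (M h f2) (M h f') z = lm B (M h f1) (M h f') z :=
      lm_congr H (d1.sM H) mf' (fun n z hz => M_cg hB e n hz) hz
    simp only [Q4, E4]
    rw [q1, q2, q3, P_cg hB e n hz, M_cg hB e n hz, e n z hz]

/-- the null form of exact solutions -/
theorem S2.nqx (S : S2 B h k w v c) {f f' g g' : ℕ → ℂ → ℂ} (hf : EX B h w f)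
    (hf' : EX B h w f') (hg : EX B k v g) (hg' : EX B k v g') : NQ B h k f f' g g' := by
  have H := S.H
  have G := S.G
  have l : ∀ {p q : ℕ → ℂ → ℂ}, Dec B h w p → Dec B h w q →
      PL B (fun n z => p n z * q n z) (lm B p q) := fun hp hq => PL.mul H hp hq (lm_wl H hp hq)
  have l' : ∀ {p q : ℕ → ℂ → ℂ}, Dec B k v p → Dec B k v q →
      PL B (fun n z => p n z * q n z) (lm B p q) := fun hp hq => PL.mul G hp hq (lm_wl G hp hq)
  exact null_tri H.op S.bu (fun n => hf.hc H hf' n) (fun n => hg.hc G hg' n)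
    (l hf.dec hf'.dec) (l (hf.dec.sP H) (hf'.dec.sP H)) (l (hf.dec.sM H) (hf'.dec.sM H))
    (l' hg.dec hg'.dec) (l' (hg.dec.sP G) (hg'.dec.sP G)) (l' (hg.dec.sM G) (hg'.dec.sM G))

/-- the null form for combinations of exact solutions -/
theorem S2.nq4 (S : S2 B h k w v c) {f f' g g' : ℕ → ℂ → ℂ} (hf : RP B h w f)
    (hf' : RP B h w f') (hg : RP B k v g) (hg' : RP B k v g') : NQ B h k f f' g g' := by
  refine S.ext hf hf' hg hg' fun p hp => ?_
  refine NQ.s1 (S.ext hf' (RP.ex hp) hg hg' fun p' hp' => ?_)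
  refine NQ.s2 (S.symm.ext hg hg' (RP.ex hp') (RP.ex hp) fun q hq => ?_)
  refine NQ.s1 (S.symm.ext hg' (RP.ex hq) (RP.ex hp') (RP.ex hp) fun q' hq' => ?_)
  exact S.symm.nqx hq' hq hp' hp

end

end Pool.Agent.Q191.TP
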