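import Pool.Agent.Q191.TP.E2

/-! Two ladder systems: the relations between the joint fourth moments. -/
set_option autoImplicit false
open MeasureTheory Filter Topology Complex Set
open scoped ContDiff Real Manifold

namespace Pool.Agent.Q191.TP

open Pool.Agent.W745.RW Pool.Agent.TH294.RS Pool.Agent.Y265.HY

noncomputable section

variable {B : Set ℂ} {h k : ℕ → ℝ} {w v : ℤ → ℕ → ℂ → ℂ} {c : ℝ}

/-- the ratio of the parameters -/
def rh (h k : ℕ → ℝ) (n : ℕ) : ℝ := h n / k n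

lemma S2.rhk (S : S2 B h k w v c) (n : ℕ) : ((rh h k n : ℝ) : ℂ) * (k n : ℂ) = (h n : ℂ) := by
  have := (S.G.hpos n).ne'
  rw [← ofReal_mul, rh, div_mul_cancel₀ _ this]

lemma S2.rpos (S : S2 B h k w v c) (n : ℕ) : 0 < rh h k n := div_pos (S.H.hpos n) (S.G.hpos n)

lemma S2.rbd (S : S2 B h k w v c) (n : ℕ) : |rh h k n| ≤ c := by
  rw [abs_of_pos (S.rpos n), rh, div_le_iff₀ (S.G.hpos n)]
  exact S.hk n

/-- joint products of the ladders -/
def F22 (w v : ℤ → ℕ → ℂ → ℂ) (a b i j : ℤ) (n : ℕ) (z : ℂ) : ℂ :=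
  w a n z * w b n z * (v i n z * v j n z)

lemma S2.co (S : S2 B h k w v c) (a b i j : ℤ) (n : ℕ) : ContinuousOn (F22 w v a b i j n) B :=
  (((S.H.bd a).co n).mul ((S.H.bd b).co n)).mul (((S.G.bd i).co n).mul ((S.G.bd j).co n))

lemma S2.quadP (S : S2 B h k w v c) (a b i j : ℤ) :
    WN B (fun n z => DP Complex.im (h n) (F22 w v a b i j n) z) ∧
    WN B (fun n z => DM Complex.im (h n) (F22 w v a b i j n) z) := by
  have H := S.H
  have G := S.G
  have hB := H.op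
  have hs : ∀ n, ContDiffOn ℝ ∞ (F22 w v a b i j n) B := fun n =>
    (((H.bd a).sm n).mul ((H.bd b).sm n)).mul (((G.bd i).sm n).mul ((G.bd j).sm n))
  have w0 : WN B (fun n z => (h n : ℂ) * F22 w v a b i j n z) :=
    S.e4 (LB.mul2 (H.bd a).lb (H.bd b).lb) (S.s2 (RP.W G S.g0 i)) (S.s2 (RP.W G S.g0 j))
  have h1 := parts' hB (G := F22 w v a b i j) hs w0 H.sa 1
  have h2 := (parts' hB (G := F22 w v a b i j) hs w0 H.sa I).cmul I
  exact ⟨(h1.sub h2).congr fun n z _ => by simp only [DP, dd, dx, dy]; ring,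
    (h1.add h2).congr fun n z _ => by simp only [DM, db, dx, dy]; ring⟩

/-- the raising relation -/
lemma S2.trP (S : S2 B h k w v c) (a b i j : ℤ) :
    WN B (fun n z => F22 w v (a + 1) b i j n z + F22 w v a (b + 1) i j n z +
      ((rh h k n : ℝ) : ℂ) * (F22 w v a b (i + 1) j n z + F22 w v a b i (j + 1) n z)) := by
  have H := S.H
  have G := S.G
  have hB := H.op
  obtain ⟨e1, he1, g1⟩ := H.up a
  obtain ⟨e2, he2, g2⟩ := H.up b
  obtain ⟨e3, he3, g3⟩ := G.up i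
  obtain ⟨e4, he4, g4⟩ := G.up j
  have T := (S.quadP a b i j).1
  have vs := fun x => S.s2 (RP.W G S.g0 x)
  have ws := fun x => S.s1 (RP.W H S.h0 x)
  have E1 := S.e4 (LB.mul2 he1.lb (H.bd b).lb) (vs i) (vs j)
  have E2 := S.e4 (LB.mul2 (H.bd a).lb he2.lb) (vs i) (vs j)
  have E3 := S.e4 (LB.mul2 he3.lb (G.bd j).lb) (ws a) (ws b)
  have E4 := S.e4 (LB.mul2 (G.bd i).lb he4.lb) (ws a) (ws b)
  refine (T.sub (((E1.add E2).add E3).add E4)).congr fun n z hz => ?_
  have c1 := g1 n z hz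
  have c2 := g2 n z hz
  have c3 := g3 n z hz
  have c4 := g4 n z hz
  have hk := S.rhk n
  have d1 := da hB ((H.bd a).sm n) hz
  have d2 := da hB ((H.bd b).sm n) hz
  have d3 := da hB ((G.bd i).sm n) hz
  have d4 := da hB ((G.bd j).sm n) hz
  simp only [DP] at c1 c2 c3 c4 ⊢
  have e0 : dd (F22 w v a b i j n) z = dd (fun z => w a n z * w b n z * (v i n z * v j n z)) z := rfl
  rw [e0, dd_mul (f := fun z => w a n z * w b n z) (g := fun z => v i n z * v j n z) (d1.mul d2)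
    (d3.mul d4), dd_mul d1 d2, dd_mul d3 d4]
  simp only [F22]
  linear_combination (-(w b n z * (v i n z * v j n z))) * c1 -
    (w a n z * (v i n z * v j n z)) * c2
    - ((rh h k n : ℝ) : ℂ) * (w a n z * w b n z * v j n z) * c3
    - ((rh h k n : ℝ) : ℂ) * (w a n z * w b n z * v i n z) * c4
    + (w a n z * w b n z * v j n z * ((z.im : ℂ) * dd (v i n) z - e3 n z) +
      w a n z * w b n z * v i n z * ((z.im : ℂ) * dd (v j n) z - e4 n z)) * hk

/-- the lowering relation -/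
lemma S2.trM (S : S2 B h k w v c) (a b i j : ℤ) :
    WN B (fun n z => F22 w v (a - 1) b i j n z + F22 w v a (b - 1) i j n z +
      ((rh h k n : ℝ) : ℂ) * (F22 w v a b (i - 1) j n z + F22 w v a b i (j - 1) n z)) := by
  have H := S.H
  have G := S.G
  have hB := H.op
  obtain ⟨e1, he1, g1⟩ := H.dn a
  obtain ⟨e2, he2, g2⟩ := H.dn b
  obtain ⟨e3, he3, g3⟩ := G.dn i
  obtain ⟨e4, he4, g4⟩ := G.dn j
  have T := (S.quadP a b i j).2
  have vs := fun x => S.s2 (RP.W G S.g0 x)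
  have ws := fun x => S.s1 (RP.W H S.h0 x)
  have E1 := S.e4 (LB.mul2 he1.lb (H.bd b).lb) (vs i) (vs j)
  have E2 := S.e4 (LB.mul2 (H.bd a).lb he2.lb) (vs i) (vs j)
  have E3 := S.e4 (LB.mul2 he3.lb (G.bd j).lb) (ws a) (ws b)
  have E4 := S.e4 (LB.mul2 (G.bd i).lb he4.lb) (ws a) (ws b)
  refine ((((E1.add E2).add E3).add E4).sub T).congr fun n z hz => ?_
  have c1 := g1 n z hz
  have c2 := g2 n z hz
  have c3 := g3 n z hz
  have c4 := g4 n z hz
  have hk := S.rhk n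
  have d1 := da hB ((H.bd a).sm n) hz
  have d2 := da hB ((H.bd b).sm n) hz
  have d3 := da hB ((G.bd i).sm n) hz
  have d4 := da hB ((G.bd j).sm n) hz
  simp only [DM] at c1 c2 c3 c4 ⊢
  have e0 : db (F22 w v a b i j n) z = db (fun z => w a n z * w b n z * (v i n z * v j n z)) z := rfl
  rw [e0, db_mul (f := fun z => w a n z * w b n z) (g := fun z => v i n z * v j n z) (d1.mul d2)
    (d3.mul d4), db_mul d1 d2, db_mul d3 d4]
  simp only [F22]
  linear_combination ((w b n z * (v i n z * v j n z))) * c1 +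
    (w a n z * (v i n z * v j n z)) * c2
    + ((rh h k n : ℝ) : ℂ) * (w a n z * w b n z * v j n z) * c3
    + ((rh h k n : ℝ) : ℂ) * (w a n z * w b n z * v i n z) * c4
    - (w a n z * w b n z * v j n z * ((z.im : ℂ) * db (v i n) z - e3 n z) +
      w a n z * w b n z * v i n z * ((z.im : ℂ) * db (v j n) z - e4 n z)) * hk

lemma S2.half (S : S2 B h k w v c) (a b i j : ℤ) :
    WN B (fun n z => P h (w a) n z * P h (w b) n z * (M k (v i) n z * M k (v j) n z) -
      F22 w v (a + 1) (b + 1) (i - 1) (j - 1) n z) := by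
  have H := S.H
  have G := S.G
  obtain ⟨e1, he1, g1'⟩ := H.up a
  obtain ⟨e2, he2, g2'⟩ := H.up b
  obtain ⟨e3, he3, g3'⟩ := G.dn i
  obtain ⟨e4, he4, g4'⟩ := G.dn j
  have g1 : ∀ n, ∀ z ∈ B, P h (w a) n z = w (a + 1) n z + (h n : ℂ) * e1 n z := g1'
  have g2 : ∀ n, ∀ z ∈ B, P h (w b) n z = w (b + 1) n z + (h n : ℂ) * e2 n z := g2'
  have g3 : ∀ n, ∀ z ∈ B, M k (v i) n z = - v (i - 1) n z + (k n : ℂ) * e3 n z := g3'
  have g4 : ∀ n, ∀ z ∈ B, M k (v j) n z = - v (j - 1) n z + (k n : ℂ) * e4 n z := g4'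
  have rP : ∀ x, RP B h w (P h (w x)) := fun x => (RP.W H S.h0 x).sP H
  have rM : ∀ x, RP B k v (M k (v x)) := fun x => (RP.W G S.g0 x).sM G
  have F1 := S.e4 (LB.mul2 he1.lb (((rP b).dec.m H)).lb) (S.s2 (rM i)) (S.s2 (rM j))
  have F2 := S.e4 (LB.mul2 he2.lb (H.bd (a + 1)).lb) (S.s2 (rM i)) (S.s2 (rM j))
  have F3 := S.symm.e4 (LB.mul2 he3.lb ((rM j).dec.m G).lb) (S.symm.s2 (RP.W H S.h0 (a + 1)))
    (S.symm.s2 (RP.W H S.h0 (b + 1)))
  have F4 := S.symm.e4 (LB.mul2 he4.lb (G.bd (i - 1)).lb) (S.symm.s2 (RP.W H S.h0 (a + 1)))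
    (S.symm.s2 (RP.W H S.h0 (b + 1)))
  refine (((F1.add F2).add F3).sub F4).congr fun n z hz => ?_
  have c1 := g1 n z hz
  have c2 := g2 n z hz
  have c3 := g3 n z hz
  have c4 := g4 n z hz
  simp only [F22]
  linear_combination (P h (w b) n z * (M k (v i) n z * M k (v j) n z)) * c1 +
    (w (a + 1) n z * (M k (v i) n z * M k (v j) n z)) * c2 +
    (w (a + 1) n z * w (b + 1) n z * M k (v j) n z) * c3 -
    (w (a + 1) n z * w (b + 1) n z * v (i - 1) n z) * c4

/-- the null form of the ladders -/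
theorem S2.nW (S : S2 B h k w v c) (a b i j : ℤ) :
    WN B (fun n z => F22 w v (a + 1) (b + 1) (i - 1) (j - 1) n z +
      F22 w v (a - 1) (b - 1) (i + 1) (j + 1) n z - 2 * F22 w v a b i j n z -
      (CC (a + 1) (b + 1) * CC (i - 1) (j - 1) + CC (a - 1) (b - 1) * CC (i + 1) (j + 1) -
        2 * (CC a b * CC i j))) := by
  have H := S.H
  have G := S.G
  have key : WN B (fun n z => Q4 h k (w a) (w b) (v i) (v j) n z -
      E4 B h k (w a) (w b) (v i) (v j) z) :=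
    S.nq4 (RP.W H S.h0 a) (RP.W H S.h0 b) (RP.W G S.g0 i) (RP.W G S.g0 j)
  refine ((key.sub (S.half a b i j)).sub (S.symm.half i j a b)).congr fun n z hz => ?_
  simp only [Q4, E4]
  rw [PPW H a b hz, MMW G i j hz, MMW H a b hz, PPW G i j hz, lmW H a b hz, lmW G i j hz]
  simp only [F22]
  ring

end

end Pool.Agent.Q191.TP
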