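import Pool.Agent.Q191.TP.Pr
import Pool.Agent.Q191.TP.Av

/-! The functions given by Laurent polynomials, and their integrals. -/
set_option autoImplicit false
open MeasureTheory Filter Topology Complex Set
open scoped ContDiff Real Manifold

namespace Pool.Agent.Q191.TP

open Pool.Agent.W745.RW Pool.Agent.TH294.RS Pool.Agent.Y265.HY

noncomputable section

variable {B : Set ℂ} {h k : ℕ → ℝ} {w v : ℤ → ℕ → ℂ → ℂ} {c : ℝ} {ρ : ℕ → ℝ}

/-! ### functions -/

/-- joint products -/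
def fg (w v : ℤ → ℕ → ℂ → ℂ) (ρ : ℕ → ℝ) (p : A1) (n : ℕ) (z : ℂ) : ℂ :=
  LM (fun m n => pr w v (-m) m n z) ρ n p
/-- products in one system -/
def ff (w : ℤ → ℕ → ℂ → ℂ) (ρ : ℕ → ℝ) (p : A1) (n : ℕ) (z : ℂ) : ℂ :=
  LM (fun m n => w m n z * w (-m) n z) ρ n p

lemma LM_co {G : Type} {U : G → ℕ → ℂ → ℂ} (hU : ∀ g n, ContinuousOn (U g n) B) (p : AddMonoidAlgebra R1 G)
    (n : ℕ) : ContinuousOn (fun z => LM (fun g n => U g n z) ρ n p) B := by
  induction p using AddMonoidAlgebra.induction_linear with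
  | zero => simp only [map_zero]; exact continuousOn_const
  | add p q h1 h2 => simp only [map_add]; exact h1.add h2
  | single m c => simp only [LM_single]; exact continuousOn_const.mul (hU m n)

lemma S2.fgc (S : S2 B h k w v c) (p : A1) (n : ℕ) : ContinuousOn (fg w v ρ p n) B :=
  LM_co (U := fun m n z => pr w v (-m) m n z) (fun m n => S.prc _ _ n) p n

lemma ffc (H : SY B Complex.im h w) (p : A1) (n : ℕ) : ContinuousOn (ff w ρ p n) B :=
  LM_co (U := fun m n z => w m n z * w (-m) n z) (fun m n => ((H.bd m).co n).mul ((H.bd (-m)).co n))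
    p n

/-- integral of a product of two linear expressions -/
lemma int_bil {U V : ℤ → ℕ → ℂ → ℂ} (hU : ∀ g n, ContinuousOn (U g n) B)
    (hV : ∀ g n, ContinuousOn (V g n) B) {φ : ℂ → ℝ} (hφ : TF B φ) (n : ℕ) {Ψ : A1 → A1 → ℂ}
    (z1' : ∀ q, Ψ 0 q = 0) (z2' : ∀ q, Ψ q 0 = 0) (a1' : ∀ p p' q, Ψ (p + p') q = Ψ p q + Ψ p' q)
    (a2' : ∀ p q q', Ψ p (q + q') = Ψ p q + Ψ p q')
    (hs : ∀ (m l : ℤ) (c d : R1), (cf (ρ n) c * cf (ρ n) d) * (∫ z, (φ z : ℂ) * (U m n z * V l n z)) =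
      Ψ (AddMonoidAlgebra.single m c) (AddMonoidAlgebra.single l d)) (p q : A1) :
    ∫ z, (φ z : ℂ) * (LM (fun g n => U g n z) ρ n p * LM (fun g n => V g n z) ρ n q) = Ψ p q := by
  have ii : ∀ p q : A1, Integrable (fun z => (φ z : ℂ) * (LM (fun g n => U g n z) ρ n p *
      LM (fun g n => V g n z) ρ n q)) := fun p q => TF.cint hφ ((LM_co hU p n).mul (LM_co hV q n))
  refine bil (Φ := fun p q => ∫ z, (φ z : ℂ) * (LM (fun g n => U g n z) ρ n p *
    LM (fun g n => V g n z) ρ n q)) (by simp) (by simp) (fun p p' q => ?_) (fun p q q' => ?_)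
    z1' z2' a1' a2' (fun m l c d => ?_) p q
  · rw [← integral_add (ii _ _) (ii _ _)]
    congr 1; funext z
    rw [map_add]; ring
  · rw [← integral_add (ii _ _) (ii _ _)]
    congr 1; funext z
    rw [map_add]; ring
  · rw [← hs, ← integral_const_mul]
    congr 1; funext z
    rw [LM_single, LM_single]; ring

/-- the integrals of the joint products of degree four -/
def D4f (w v : ℤ → ℕ → ℂ → ℂ) (φ : ℂ → ℝ) (g : ℤ × ℤ × ℤ × ℤ) (n : ℕ) : ℂ :=
  ∫ z, (φ z : ℂ) * F22 w v g.1 g.2.1 g.2.2.1 g.2.2.2 n z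

lemma S2.i13 (S : S2 B h k w v c) {φ : ℂ → ℝ} (hφ : TF B φ) (p q : A1) (n : ℕ) :
    ∫ z, (φ z : ℂ) * (fg w v ρ p n z * fg w v ρ q n z) =
      LM (D4f w v φ) ρ n (emb (-1) 0 1 0 p * emb 0 (-1) 0 1 q) := by
  refine int_bil (U := fun m n z => pr w v (-m) m n z) (V := fun m n z => pr w v (-m) m n z)
    (fun m n => S.prc _ _ n) (fun m n => S.prc _ _ n) hφ n
    (Ψ := fun p q => LM (D4f w v φ) ρ n (emb (-1) 0 1 0 p * emb 0 (-1) 0 1 q))
    (by simp) (by simp) (fun _ _ _ => by simp [add_mul]) (fun _ _ _ => by simp [mul_add])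
    (fun m l c d => ?_) p q
  rw [emb_single, emb_single, AddMonoidAlgebra.single_mul_single, LM_single, map_mul]
  congr 1
  simp only [D4f, Prod.mk_add_mk, mul_zero, mul_one, add_zero, zero_add, mul_neg]
  congr 1; funext z
  simp only [pr, F22]; ring

lemma S2.i14 (S : S2 B h k w v c) {φ : ℂ → ℝ} (hφ : TF B φ) (p q : A1) (n : ℕ) :
    ∫ z, (φ z : ℂ) * (fg w v ρ p n z * fg w v ρ q n z) =
      LM (D4f w v φ) ρ n (emb (-1) 0 0 1 p * emb 0 (-1) 1 0 q) := by
  refine int_bil (U := fun m n z => pr w v (-m) m n z) (V := fun m n z => pr w v (-m) m n z)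
    (fun m n => S.prc _ _ n) (fun m n => S.prc _ _ n) hφ n
    (Ψ := fun p q => LM (D4f w v φ) ρ n (emb (-1) 0 0 1 p * emb 0 (-1) 1 0 q))
    (by simp) (by simp) (fun _ _ _ => by simp [add_mul]) (fun _ _ _ => by simp [mul_add])
    (fun m l c d => ?_) p q
  rw [emb_single, emb_single, AddMonoidAlgebra.single_mul_single, LM_single, map_mul]
  congr 1
  simp only [D4f, Prod.mk_add_mk, mul_zero, mul_one, add_zero, zero_add, mul_neg]
  congr 1; funext z
  simp only [pr, F22]; ring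

lemma S2.ixy (S : S2 B h k w v c) {φ : ℂ → ℝ} (hφ : TF B φ) (p q : A1) (n : ℕ) :
    ∫ z, (φ z : ℂ) * (ff w ρ p n z * ff v ρ q n z) =
      LM (D4f w v φ) ρ n (emb 1 (-1) 0 0 p * emb 0 0 1 (-1) q) := by
  refine int_bil (U := fun m n z => w m n z * w (-m) n z) (V := fun m n z => v m n z * v (-m) n z)
    (fun m n => ((S.H.bd m).co n).mul ((S.H.bd (-m)).co n))
    (fun m n => ((S.G.bd m).co n).mul ((S.G.bd (-m)).co n)) hφ n
    (Ψ := fun p q => LM (D4f w v φ) ρ n (emb 1 (-1) 0 0 p * emb 0 0 1 (-1) q))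
    (by simp) (by simp) (fun _ _ _ => by simp [add_mul]) (fun _ _ _ => by simp [mul_add])
    (fun m l c d => ?_) p q
  rw [emb_single, emb_single, AddMonoidAlgebra.single_mul_single, LM_single, map_mul]
  congr 1
  simp only [D4f, Prod.mk_add_mk, mul_zero, mul_one, add_zero, zero_add, mul_neg]
  congr 1

/-- products of degree four in one system -/
def D2f (w : ℤ → ℕ → ℂ → ℂ) (φ : ℂ → ℝ) (g : ℤ × ℤ) (n : ℕ) : ℂ :=
  ∫ z, (φ z : ℂ) * F4 w g.1 (-g.1) g.2 (-g.2) n z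

lemma i12 (H : SY B Complex.im h w) {φ : ℂ → ℝ} (hφ : TF B φ) (p q : A1) (n : ℕ) :
    ∫ z, (φ z : ℂ) * (ff w ρ p n z * ff w ρ q n z) =
      LM (D2f w φ) ρ n (emb2 1 0 p * emb2 0 1 q) := by
  refine int_bil (U := fun m n z => w m n z * w (-m) n z) (V := fun m n z => w m n z * w (-m) n z)
    (fun m n => ((H.bd m).co n).mul ((H.bd (-m)).co n))
    (fun m n => ((H.bd m).co n).mul ((H.bd (-m)).co n)) hφ n
    (Ψ := fun p q => LM (D2f w φ) ρ n (emb2 1 0 p * emb2 0 1 q))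
    (by simp) (by simp) (fun _ _ _ => by simp [add_mul]) (fun _ _ _ => by simp [mul_add])
    (fun m l c d => ?_) p q
  rw [emb2_single, emb2_single, AddMonoidAlgebra.single_mul_single, LM_single, map_mul]
  congr 1
  simp only [D2f, Prod.mk_add_mk, mul_zero, mul_one, add_zero, zero_add]
  congr 1; funext z
  simp only [F4]; ring

/-! ### the relations -/

/-- deviation from the Gaussian values -/
def Dd (w v : ℤ → ℕ → ℂ → ℂ) (φ : ℂ → ℝ) (g : ℤ × ℤ × ℤ × ℤ) (n : ℕ) : ℂ :=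
  D4f w v φ g n - ((∫ z, φ z : ℝ) : ℂ) * K4 g n

lemma CC_up (a b : ℤ) : CC (a + 1) b + CC a (b + 1) = 0 := by
  rw [CC_val, CC_val]
  by_cases hab : a + 1 + b = 0
  · rw [if_pos hab, if_pos (by omega), zpow_add₀ (by norm_num)]; simp
  · rw [if_neg hab, if_neg (by omega)]; simp

lemma CC_dn (a b : ℤ) : CC (a - 1) b + CC a (b - 1) = 0 := by
  have := CC_up (a - 1) (b - 1)
  rw [sub_add_cancel, sub_add_cancel] at this
  rw [add_comm]; exact this

theorem S2.rel (S : S2 B h k w v c) {φ : ℂ → ℝ} (hφ : TF B φ) : Rel (Dd w v φ) (rh h k) := by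
  have ii : ∀ a b i j n, Integrable (fun z => (φ z : ℂ) * F22 w v a b i j n z) :=
    fun a b i j n => TF.cint hφ (S.co a b i j n)
  refine ⟨⟨c, S.rbd⟩, fun a b i j => ?_, fun a b i j => ?_, fun a b i j => ?_⟩
  · refine ((S.trP a b i j).nul φ hφ).congr fun n => ?_
    have e1 : ∫ z, (φ z : ℂ) * (F22 w v (a + 1) b i j n z + F22 w v a (b + 1) i j n z +
        ((rh h k n : ℝ) : ℂ) * (F22 w v a b (i + 1) j n z + F22 w v a b i (j + 1) n z)) =
        D4f w v φ (a + 1, b, i, j) n + D4f w v φ (a, b + 1, i, j) n + (rh h k n : ℂ) *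
          (D4f w v φ (a, b, i + 1, j) n + D4f w v φ (a, b, i, j + 1) n) := by
      simp only [D4f]
      rw [← integral_add (ii _ _ _ _ _) (ii _ _ _ _ _), ← integral_add (ii _ _ _ _ _) (ii _ _ _ _ _),
        ← integral_const_mul, ← integral_add]
      · congr 1; funext z; ring
      · exact (ii _ _ _ _ _).add (ii _ _ _ _ _)
      · exact ((ii _ _ _ _ _).add (ii _ _ _ _ _)).const_mul _
    rw [e1]
    simp only [Dd, K4]
    linear_combination (((∫ z, φ z : ℝ) : ℂ) * CC i j) * CC_up a b +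
      (((∫ z, φ z : ℝ) : ℂ) * (rh h k n : ℂ) * CC a b) * CC_up i j
  · refine ((S.trM a b i j).nul φ hφ).congr fun n => ?_
    have e1 : ∫ z, (φ z : ℂ) * (F22 w v (a - 1) b i j n z + F22 w v a (b - 1) i j n z +
        ((rh h k n : ℝ) : ℂ) * (F22 w v a b (i - 1) j n z + F22 w v a b i (j - 1) n z)) =
        D4f w v φ (a - 1, b, i, j) n + D4f w v φ (a, b - 1, i, j) n + (rh h k n : ℂ) *
          (D4f w v φ (a, b, i - 1, j) n + D4f w v φ (a, b, i, j - 1) n) := by
      simp only [D4f]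
      rw [← integral_add (ii _ _ _ _ _) (ii _ _ _ _ _), ← integral_add (ii _ _ _ _ _) (ii _ _ _ _ _),
        ← integral_const_mul, ← integral_add]
      · congr 1; funext z; ring
      · exact (ii _ _ _ _ _).add (ii _ _ _ _ _)
      · exact ((ii _ _ _ _ _).add (ii _ _ _ _ _)).const_mul _
    rw [e1]
    simp only [Dd, K4]
    linear_combination (((∫ z, φ z : ℝ) : ℂ) * CC i j) * CC_dn a b +
      (((∫ z, φ z : ℝ) : ℂ) * (rh h k n : ℂ) * CC a b) * CC_dn i j
  · refine ((S.nW a b i j).nul φ hφ).congr fun n => ?_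
    obtain ⟨κ, hκ⟩ : ∃ κ, κ = (CC (a + 1) (b + 1) * CC (i - 1) (j - 1) +
      CC (a - 1) (b - 1) * CC (i + 1) (j + 1) - 2 * (CC a b * CC i j)) := ⟨_, rfl⟩
    have i0 : Integrable (fun z => (φ z : ℂ) * κ) := TF.cint hφ continuousOn_const
    have e1 : ∫ z, (φ z : ℂ) * (F22 w v (a + 1) (b + 1) (i - 1) (j - 1) n z +
      F22 w v (a - 1) (b - 1) (i + 1) (j + 1) n z - 2 * F22 w v a b i j n z - κ) =
        D4f w v φ (a + 1, b + 1, i - 1, j - 1) n + D4f w v φ (a - 1, b - 1, i + 1, j + 1) n -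
        2 * D4f w v φ (a, b, i, j) n - ((∫ z, φ z : ℝ) : ℂ) * κ := by
      have e0 : ((∫ z, φ z : ℝ) : ℂ) * κ = ∫ z, (φ z : ℂ) * κ := by
        rw [integral_mul_const, integral_complex_ofReal]
      simp only [D4f]
      rw [e0, ← integral_add (ii _ _ _ _ _) (ii _ _ _ _ _), ← integral_const_mul, ← integral_sub,
        ← integral_sub _ i0]
      · congr 1; funext z; ring
      · exact ((ii _ _ _ _ _).add (ii _ _ _ _ _)).sub ((ii _ _ _ _ _).const_mul _)
      · exact (ii _ _ _ _ _).add (ii _ _ _ _ _)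
      · exact (ii _ _ _ _ _).const_mul _
    rw [← hκ, e1, hκ]
    simp only [Dd, K4]
    ring

end

end Pool.Agent.Q191.TP
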