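import Pool.Agent.Q191.TP.Po

/-! Vanishing of the joint products away from the exceptional frequencies. -/
set_option autoImplicit false
open MeasureTheory Filter Topology Complex Set
open scoped ContDiff Real Manifold

namespace Pool.Agent.Q191.TP

open Pool.Agent.W745.RW Pool.Agent.TH294.RS Pool.Agent.Y265.HY

noncomputable section

variable {B : Set ℂ} {h k : ℕ → ℝ} {w v : ℤ → ℕ → ℂ → ℂ} {c : ℝ} {r : ℝ} {τ : ℕ → ℝ}
  {g : ℕ → ℂ → ℝ}

lemma S3.f5 {h : ℕ → ℝ} (T : S3 B h τ (fun n z => (g n z : ℂ))) {φ : ℂ → ℝ} (hφ : TF B φ) :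
    ∃ C : ℝ, 0 ≤ C ∧ ∀ᶠ n in atTop, ∫ z, φ z * g n z ^ 2 ≤ C := by
  have l1 : LB B 1 (fun n z => (g n z : ℂ) * (g n z : ℂ)) := LB.mul2 T.lb T.lb
  obtain ⟨C, hC⟩ := l1.bdd hφ
  refine ⟨|C|, abs_nonneg _, hC.mono fun n hn => ?_⟩
  have e : ∫ z, (φ z : ℂ) * ((g n z : ℂ) * (g n z : ℂ)) = ((∫ z, φ z * g n z ^ 2 : ℝ) : ℂ) := by
    rw [← integral_complex_ofReal]
    congr 1; funext z
    push_cast; ring
  rw [e, Complex.norm_real, Real.norm_eq_abs] at hn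
  exact (le_abs_self _).trans (hn.trans (le_abs_self _))

lemma S3.gc {h : ℕ → ℝ} (T : S3 B h τ (fun n z => (g n z : ℂ))) (n : ℕ) :
    ContinuousOn (g n) B := by
  have := Complex.continuous_re.comp_continuousOn (T.lb.sm n).continuousOn
  exact this

/-- the pairing is bounded by the mean squares -/
lemma S2.Lq_le (S : S2 B h k w v c) {h' : ℕ → ℝ} (T : S3 B h' τ (fun n z => (g n z : ℂ)))
    {φ : ℂ → ℝ} (hφ : TF B φ) (h0 : ∀ z, 0 ≤ φ z) (P : Polynomial R1) (n : ℕ) :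
    ‖Lq w v (rh h k) (fun n z => (g n z : ℂ)) φ (FF P) n‖ ^ 2 ≤
      (∫ z, φ z * rF w v (rh h k) P n z ^ 2) * ∫ z, φ z * g n z ^ 2 := by
  have hB := S.H.op
  rw [← S.Lq_eq (fun n => (T.lb.sm n).continuousOn) hφ]
  have e : ∫ z, (φ z : ℂ) * (fg w v (rh h k) (FF P) n z * (g n z : ℂ)) =
      ((∫ z, φ z * (rF w v (rh h k) P n z * g n z) : ℝ) : ℂ) :=
    int_re hφ (fun z hz => S.rF_eq P n hz) (fun z _ => rfl)
  rw [e, Complex.norm_real, Real.norm_eq_abs, sq_abs]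
  exact JC.cs hB hφ h0 (S.rFc P n) (T.gc n)

/-- **finite frequency** -/
theorem S2.zero_fin (S : S2 B h k w v c) {φ : ℂ → ℝ} (hφ : TF B φ) (h0 : ∀ z, 0 ≤ φ z)
    (hρ : Tendsto (rh h k) atTop (𝓝 r)) (hr : 1 ≤ r) (τ0 : ∀ n, 0 ≤ τ n) {τ' : ℝ}
    (hτ : Tendsto τ atTop (𝓝 τ')) (T : S3 B h τ (fun n z => (g n z : ℂ)))
    (hnd : F0v r τ' ≠ 0) :
    Tendsto (fun n => Lq w v (rh h k) (fun n z => (g n z : ℂ)) φ 1 n) atTop (𝓝 0) := by
  obtain ⟨C, hC0, hC⟩ := T.f5 hφ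
  have τ'0 : 0 ≤ τ' := ge_of_tendsto' hτ τ0
  obtain ⟨κ, hκ⟩ : ∃ κ, κ = |F0v r τ'| := ⟨_, rfl⟩
  have κp : 0 < κ := by rw [hκ]; exact abs_pos.2 hnd
  rw [Metric.tendsto_atTop']
  intro ε0 hε0
  obtain ⟨ε, hε, hεε⟩ : ∃ ε : ℝ, 0 < ε ∧ ε < ε0 := ⟨ε0 / 2, by linarith, by linarith⟩
  obtain ⟨ε1, he1⟩ : ∃ x, x = (κ * ε / 4) ^ 2 / (C + 1) := ⟨_, rfl⟩
  have ε1p : 0 < ε1 := by rw [he1]; positivity
  obtain ⟨P, T', hP, hJ, hlt⟩ := choice hr τ'0 (I0 := ∫ z, φ z) ε1p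
  have m1 := S.mainI hφ h0 hρ hJ ε1p
  have ev : Tendsto (fun n => ev2 (rh h k n) (τ n) (F0 * P)) atTop (𝓝 (F0v r τ')) := by
    have := ev2_lim hρ hτ (F0 * P)
    rwa [map_mul, hP, mul_one, ev2_F0] at this
  have m2 : ∀ᶠ n in atTop, κ / 2 < |ev2 (rh h k n) (τ n) (F0 * P)| := by
    refine ev.abs.eventually (lt_mem_nhds ?_)
    rw [← hκ]; linarith
  have m3 : Tendsto (fun n => ((ev2 (rh h k n) (τ n) (F0 * P) : ℝ) : ℂ) *
      Lq w v (rh h k) (fun n z => (g n z : ℂ)) φ 1 n -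
      Lq w v (rh h k) (fun n z => (g n z : ℂ)) φ (FF P) n) atTop (𝓝 0) := by
    have k1 := S.pairP T τ0 hφ (F0 * P) (d := (F0 * P).natDegree) le_rfl
    have k2 : Tendsto (fun n => ((1 + τ n : ℝ) : ℂ) ^ (F0 * P).natDegree) atTop
        (𝓝 (((1 + τ' : ℝ) : ℂ) ^ (F0 * P).natDegree)) :=
      ((Complex.continuous_ofReal.tendsto _).comp (hτ.const_add 1)).pow _
    have k3 := k1.mul k2
    rw [zero_mul] at k3
    refine k3.congr fun n => ?_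
    have hp : ((1 + τ n : ℝ) : ℂ) ^ (F0 * P).natDegree ≠ 0 := pow_ne_zero _ (JC.nb (τ0 n))
    rw [div_mul_cancel₀ _ hp]
    rfl
  have m4 : ∀ᶠ n in atTop, ‖((ev2 (rh h k n) (τ n) (F0 * P) : ℝ) : ℂ) *
      Lq w v (rh h k) (fun n z => (g n z : ℂ)) φ 1 n -
      Lq w v (rh h k) (fun n z => (g n z : ℂ)) φ (FF P) n‖ < κ * ε / 4 := by
    have := m3.norm
    rw [norm_zero] at this
    exact this.eventually (gt_mem_nhds (by positivity))
  have all := ((m1.and m2).and m4).and hC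
  rw [eventually_atTop] at all
  obtain ⟨N, hN⟩ := all
  refine ⟨N, fun n hn => ?_⟩
  obtain ⟨⟨⟨n1, n2⟩, n4⟩, n5⟩ := hN n hn.le
  rw [dist_zero_right]
  refine lt_of_le_of_lt ?_ hεε
  have q1 : ∫ z, φ z * rF w v (rh h k) P n z ^ 2 ≤ ε1 := by linarith
  have q2 := S.Lq_le T hφ h0 P n
  have g0 : 0 ≤ ∫ z, φ z * g n z ^ 2 :=
    integral_nonneg fun z => mul_nonneg (h0 z) (sq_nonneg _)
  have q3 : ‖Lq w v (rh h k) (fun n z => (g n z : ℂ)) φ (FF P) n‖ ^ 2 ≤ (κ * ε / 4) ^ 2 := by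
    refine q2.trans ?_
    calc _ ≤ ε1 * (C + 1) := mul_le_mul q1 (by linarith) g0 ε1p.le
      _ = (κ * ε / 4) ^ 2 := by rw [he1]; field_simp
  have q4 : ‖Lq w v (rh h k) (fun n z => (g n z : ℂ)) φ (FF P) n‖ ≤ κ * ε / 4 :=
    abs_le_of_sq_le_sq' q3 (by positivity) |>.2
  have q5 : ‖((ev2 (rh h k n) (τ n) (F0 * P) : ℝ) : ℂ) *
      Lq w v (rh h k) (fun n z => (g n z : ℂ)) φ 1 n‖ ≤ κ * ε / 2 := by
    have := norm_add_le (((ev2 (rh h k n) (τ n) (F0 * P) : ℝ) : ℂ) *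
      Lq w v (rh h k) (fun n z => (g n z : ℂ)) φ 1 n -
      Lq w v (rh h k) (fun n z => (g n z : ℂ)) φ (FF P) n)
      (Lq w v (rh h k) (fun n z => (g n z : ℂ)) φ (FF P) n)
    rw [sub_add_cancel] at this
    linarith
  rw [norm_mul, Complex.norm_real, Real.norm_eq_abs] at q5
  have q6 : κ / 2 * ‖Lq w v (rh h k) (fun n z => (g n z : ℂ)) φ 1 n‖ ≤ κ / 2 * ε :=
    (mul_le_mul_of_nonneg_right n2.le (norm_nonneg _)).trans (by linarith)
  exact le_of_mul_le_mul_left q6 (by positivity)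

lemma F0_deg : (F0 * 1 : Polynomial R1).natDegree ≤ 4 := by
  rw [mul_one]
  unfold F0
  refine Polynomial.natDegree_mul_le.trans ?_
  have h1 : (Polynomial.X ^ 2 - Polynomial.C (2 * (1 + Polynomial.X ^ 2)) * Polynomial.X +
    Polynomial.C ((1 - Polynomial.X ^ 2) ^ 2) : Polynomial R1).natDegree ≤ 2 := by
    compute_degree
  have h2 : ((Polynomial.X - Polynomial.C (Polynomial.X ^ 2 - 1)) *
    (Polynomial.X + Polynomial.C (Polynomial.X ^ 2 - 1)) : Polynomial R1).natDegree ≤ 2 := by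
    compute_degree
  omega

/-- **infinite frequency** -/
theorem S2.zero_inf (S : S2 B h k w v c) {φ : ℂ → ℝ} (hφ : TF B φ) (h0 : ∀ z, 0 ≤ φ z)
    (hρ : Tendsto (rh h k) atTop (𝓝 r)) (τ0 : ∀ n, 0 ≤ τ n)
    (hτ : Tendsto τ atTop atTop) (T : S3 B h τ (fun n z => (g n z : ℂ))) :
    Tendsto (fun n => Lq w v (rh h k) (fun n z => (g n z : ℂ)) φ 1 n) atTop (𝓝 0) := by
  obtain ⟨C, hC0, hC⟩ := T.f5 hφ
  obtain ⟨T', -, hJ⟩ := main_id 1
  have m1 := S.mainI hφ h0 hρ hJ one_pos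
  obtain ⟨K, hK⟩ : ∃ K, K = |(∫ z, φ z) * (2 * gF r 1) + √(((∫ z, φ z) * (2 * gA r T')) *
        ((∫ z, φ z) * (2 * gA r (Polynomial.C (Polynomial.X ^ 4))))) + 1| := ⟨_, rfl⟩
  have rl : Tendsto (fun n => 1 + τ n) atTop atTop :=
    tendsto_atTop_add_const_left _ _ hτ
  have ri : Tendsto (fun n => (1 + τ n)⁻¹) atTop (𝓝 0) :=
    rl.inv_tendsto_atTop.congr fun n => rfl
  have k1 := S.pairP T τ0 hφ (F0 * 1) (d := 4) F0_deg
  have k2 : Tendsto (fun n => Lq w v (rh h k) (fun n z => (g n z : ℂ)) φ (FF 1) n /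
      ((1 + τ n : ℝ) : ℂ) ^ 4) atTop (𝓝 0) := by
    have b1 : ∀ᶠ n in atTop, ‖Lq w v (rh h k) (fun n z => (g n z : ℂ)) φ (FF 1) n‖ ≤
        √(K * C) := by
      filter_upwards [m1, hC] with n n1 n2
      have r0 : 0 ≤ ∫ z, φ z * rF w v (rh h k) 1 n z ^ 2 :=
        integral_nonneg fun z => mul_nonneg (h0 z) (sq_nonneg _)
      have g0 : 0 ≤ ∫ z, φ z * g n z ^ 2 :=
        integral_nonneg fun z => mul_nonneg (h0 z) (sq_nonneg _)
      have r1 : ∫ z, φ z * rF w v (rh h k) 1 n z ^ 2 ≤ K := by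
        have := le_abs_self ((∫ z, φ z) * (2 * gF r 1) + √(((∫ z, φ z) * (2 * gA r T')) *
          ((∫ z, φ z) * (2 * gA r (Polynomial.C (Polynomial.X ^ 4))))) + 1)
        rw [← hK] at this
        linarith
      have := S.Lq_le T hφ h0 1 n
      rw [← abs_norm]
      refine Real.abs_le_sqrt (this.trans ?_)
      exact mul_le_mul r1 n2 g0 (by rw [hK]; exact abs_nonneg _)
    have b2 : Tendsto (fun n => √(K * C) * |(1 + τ n)⁻¹ ^ 4|) atTop (𝓝 0) := by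
      have := ((ri.pow 4).abs).const_mul (√(K * C))
      simpa using this
    refine squeeze_zero_norm' (b1.mono fun n hn => ?_) b2
    rw [norm_div, norm_pow, Complex.norm_real, Real.norm_eq_abs, div_eq_mul_inv, abs_pow, abs_inv,
      inv_pow]
    exact mul_le_mul_of_nonneg_right hn (by positivity)
  have k5 : Tendsto (fun n => ev2 (rh h k n) (τ n) (F0 * 1) / (1 + τ n) ^ 4) atTop (𝓝 1) := by
    have e : ∀ n, ev2 (rh h k n) (τ n) (F0 * 1) / (1 + τ n) ^ 4 =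
        ((1 - (1 + τ n)⁻¹) ^ 2 - 2 * (1 + rh h k n ^ 2) * ((1 - (1 + τ n)⁻¹) * (1 + τ n)⁻¹) +
          (1 - rh h k n ^ 2) ^ 2 * (1 + τ n)⁻¹ ^ 2) *
        (((1 - (1 + τ n)⁻¹) - (rh h k n ^ 2 - 1) * (1 + τ n)⁻¹) *
          ((1 - (1 + τ n)⁻¹) + (rh h k n ^ 2 - 1) * (1 + τ n)⁻¹)) := by
      intro n
      have h1 : (1 + τ n) ≠ 0 := by have := τ0 n; positivity
      rw [mul_one, ev2_F0, F0v]
      field_simp
      ring
    simp only [e]
    have r2 := hρ.pow 2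
    have a1 := ri.const_sub 1
    have l1 := (((a1.pow 2).sub (((r2.const_add 1).const_mul 2).mul (a1.mul ri))).add
      (((r2.const_sub 1).pow 2).mul (ri.pow 2)))
    have l2 := (a1.sub ((r2.sub_const 1).mul ri)).mul (a1.add ((r2.sub_const 1).mul ri))
    have := l1.mul l2
    simpa using this
  have k5' : Tendsto (fun n => ((ev2 (rh h k n) (τ n) (F0 * 1) / (1 + τ n) ^ 4 : ℝ) : ℂ)) atTop
      (𝓝 1) := by
    have := (Complex.continuous_ofReal.tendsto _).comp k5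
    rw [Complex.ofReal_one] at this
    exact this
  have k6 := (k1.add k2).mul (k5'.inv₀ one_ne_zero)
  simp only [add_zero, zero_mul] at k6
  refine k6.congr' ?_
  filter_upwards [k5.eventually_ne one_ne_zero] with n hn
  have h1 : ((1 + τ n : ℝ) : ℂ) ≠ 0 := JC.nb (τ0 n)
  have h2 : ((ev2 (rh h k n) (τ n) (F0 * 1) : ℝ) : ℂ) ≠ 0 := by
    intro h
    apply hn
    rw [Complex.ofReal_eq_zero.1 h, zero_div]
  obtain ⟨X, hX⟩ : ∃ X, X = Lq w v (rh h k) (fun n z => (g n z : ℂ)) φ 1 n := ⟨_, rfl⟩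
  have e1 : Lq w v (rh h k) (fun n z => (g n z : ℂ)) φ
      (Polynomial.eval₂ (CR ℤ) lf (F0 * 1)) n =
      Lq w v (rh h k) (fun n z => (g n z : ℂ)) φ (FF 1) n := rfl
  rw [e1, ← hX, ← add_div, sub_add_cancel, Complex.ofReal_div, Complex.ofReal_pow]
  field_simp

end

end Pool.Agent.Q191.TP
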