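import Pool.Agent.Q191.TP.Sp

/-! The main inequality and the pairing with polynomials. -/
set_option autoImplicit false
open MeasureTheory Filter Topology Complex Set
open scoped ContDiff Real Manifold

namespace Pool.Agent.Q191.TP

open Pool.Agent.W745.RW Pool.Agent.TH294.RS Pool.Agent.Y265.HY

noncomputable section

variable {B : Set ℂ} {h k : ℕ → ℝ} {w v : ℤ → ℕ → ℂ → ℂ} {c : ℝ} {ρ : ℕ → ℝ} {r : ℝ}

/-! ### real functions -/

lemma sg2 (m : ℤ) : ((-1 : ℂ)) ^ m.natAbs * (-1) ^ (-m).natAbs = 1 := by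
  rw [Int.natAbs_neg, ← mul_pow]; simp

lemma conj_re {x : ℂ} (hx : (starRingEnd ℂ) x = x) : x = ((x.re : ℝ) : ℂ) :=
  (Complex.conj_eq_iff_real.1 hx).elim fun r hr => by rw [hr]; simp

lemma cf_conj (t : ℝ) (p : R1) : (starRingEnd ℂ) (cf t p) = cf t p := by
  rw [cf_eq, conj_ofReal]

lemma ff_conj (H : SY B Complex.im h w) (p : A1) (n : ℕ) {z : ℂ} (hz : z ∈ B) :
    (starRingEnd ℂ) (ff w ρ p n z) = ff w ρ p n z := by
  unfold ff
  induction p using AddMonoidAlgebra.induction_linear with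
  | zero => simp
  | add p q h1 h2 => rw [map_add, map_add, h1, h2]
  | single m c =>
    rw [LM_single, map_mul, map_mul, cf_conj, H.cj m n z hz, H.cj (-m) n z hz, neg_neg]
    linear_combination (cf (ρ n) c * w m n z * w (-m) n z) * sg2 m

/-- inversion -/
def inv1 : A1 →+* A1 := AddMonoidAlgebra.mapDomainRingHom R1 (negAddMonoidHom : ℤ →+ ℤ)

lemma inv1_single (m : ℤ) (p : R1) : inv1 (AddMonoidAlgebra.single m p) =
    AddMonoidAlgebra.single (-m) p := by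
  show AddMonoidAlgebra.mapDomain _ _ = _
  rw [AddMonoidAlgebra.mapDomain_single]
  rfl

lemma inv1_CR (p : R1) : inv1 (CR ℤ p) = CR ℤ p := by
  rw [CR_eq, inv1_single, neg_zero]

lemma inv1_lf : inv1 lf = lf := by
  unfold lf T1
  rw [map_add inv1, map_mul inv1, map_add inv1, inv1_CR, inv1_CR, inv1_single, inv1_single, neg_neg]
  rw [add_comm (AddMonoidAlgebra.single (-1) 1)]

lemma inv1_FF (P : Polynomial R1) : inv1 (FF P) = FF P := by
  unfold FF
  rw [Polynomial.hom_eval₂, inv1_lf]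
  congr 1
  refine RingHom.ext fun p => ?_
  rw [RingHom.comp_apply, inv1_CR]

lemma S2.fg_conj (S : S2 B h k w v c) (p : A1) (n : ℕ) {z : ℂ} (hz : z ∈ B) :
    (starRingEnd ℂ) (fg w v ρ p n z) = fg w v ρ (inv1 p) n z := by
  unfold fg
  induction p using AddMonoidAlgebra.induction_linear with
  | zero => simp
  | add p q h1 h2 => rw [map_add, map_add, map_add inv1, map_add, h1, h2]
  | single m c =>
    rw [inv1_single, LM_single, LM_single, map_mul, cf_conj]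
    congr 1
    simp only [pr]
    rw [map_mul, S.G.cj m n z hz, S.H.cj (-m) n z hz, neg_neg]
    linear_combination (v (-m) n z * w m n z) * sg2 m

/-- the real functions -/
def rF (w v : ℤ → ℕ → ℂ → ℂ) (ρ : ℕ → ℝ) (P : Polynomial R1) (n : ℕ) (z : ℂ) : ℝ :=
  (fg w v ρ (FF P) n z).re
def rA (w : ℤ → ℕ → ℂ → ℂ) (ρ : ℕ → ℝ) (T : Polynomial R1) (n : ℕ) (z : ℂ) : ℝ :=
  (ff w ρ (AA T) n z).re

lemma S2.rF_eq (S : S2 B h k w v c) (P : Polynomial R1) (n : ℕ) {z : ℂ} (hz : z ∈ B) :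
    fg w v ρ (FF P) n z = ((rF w v ρ P n z : ℝ) : ℂ) :=
  conj_re (by rw [S.fg_conj _ n hz, inv1_FF])

lemma rA_eq (H : SY B Complex.im h w) (T : Polynomial R1) (n : ℕ) {z : ℂ} (hz : z ∈ B) :
    ff w ρ (AA T) n z = ((rA w ρ T n z : ℝ) : ℂ) := conj_re (ff_conj H _ n hz)

lemma S2.rFc (S : S2 B h k w v c) (P : Polynomial R1) (n : ℕ) : ContinuousOn (rF w v ρ P n) B :=
  Complex.continuous_re.comp_continuousOn (S.fgc _ n)
lemma rAc (H : SY B Complex.im h w) (T : Polynomial R1) (n : ℕ) : ContinuousOn (rA w ρ T n) B :=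
  Complex.continuous_re.comp_continuousOn (ffc H _ n)

lemma int_re {φ : ℂ → ℝ} (hφ : TF B φ) {F G : ℂ → ℂ} {f g : ℂ → ℝ}
    (hF : ∀ z ∈ B, F z = ((f z : ℝ) : ℂ)) (hG : ∀ z ∈ B, G z = ((g z : ℝ) : ℂ)) :
    ∫ z, (φ z : ℂ) * (F z * G z) = ((∫ z, φ z * (f z * g z) : ℝ) : ℂ) := by
  rw [← integral_complex_ofReal]
  congr 1; funext z
  by_cases hz : z ∈ B
  · rw [hF z hz, hG z hz]; push_cast; ring
  · have : φ z = 0 := TF.zero hφ hz
    rw [this]; simp

/-- **The main inequality** -/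
theorem S2.mainI (S : S2 B h k w v c) {φ : ℂ → ℝ} (hφ : TF B φ) (h0 : ∀ z, 0 ≤ φ z)
    (hρ : Tendsto (rh h k) atTop (𝓝 r)) {P T : Polynomial R1}
    (hPT : emb (-1) 0 1 0 (FF P) * emb 0 (-1) 0 1 (FF P) +
      emb (-1) 0 0 1 (FF P) * emb 0 (-1) 1 0 (FF P) -
      emb 1 (-1) 0 0 (AA T) * emb 0 0 1 (-1) BB ∈ J0) {ε : ℝ} (hε : 0 < ε) :
    ∀ᶠ n in atTop, 2 * ∫ z, φ z * rF w v (rh h k) P n z ^ 2 ≤
      (∫ z, φ z) * (2 * gF r P) + √(((∫ z, φ z) * (2 * gA r T)) *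
        ((∫ z, φ z) * (2 * gA r (Polynomial.C (Polynomial.X ^ 4))))) + ε := by
  have hB := S.H.op
  have a1 := sp3 S.H S.bu S.h0 hφ hρ T
  have a2 := sp3 S.G S.bu S.g0 hφ hρ (Polynomial.C (Polynomial.X ^ 4))
  have a3 := S.sp4 hφ hρ hPT
  rw [BB_eq] at a3
  have e1 : ∀ n, ∫ z, (φ z : ℂ) * (ff w (rh h k) (AA T) n z * ff w (rh h k) (AA T) n z) =
      ((∫ z, φ z * (rA w (rh h k) T n z * rA w (rh h k) T n z) : ℝ) : ℂ) := fun n =>
    int_re hφ (fun z hz => rA_eq S.H T n hz) (fun z hz => rA_eq S.H T n hz)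
  have e2 : ∀ n, ∫ z, (φ z : ℂ) * (ff v (rh h k) (AA (Polynomial.C (Polynomial.X ^ 4))) n z *
      ff v (rh h k) (AA (Polynomial.C (Polynomial.X ^ 4))) n z) =
      ((∫ z, φ z * (rA v (rh h k) (Polynomial.C (Polynomial.X ^ 4)) n z *
        rA v (rh h k) (Polynomial.C (Polynomial.X ^ 4)) n z) : ℝ) : ℂ) := fun n =>
    int_re hφ (fun z hz => rA_eq S.G _ n hz) (fun z hz => rA_eq S.G _ n hz)
  have e3 : ∀ n, ∫ z, (φ z : ℂ) * (ff w (rh h k) (AA T) n z *
      ff v (rh h k) (AA (Polynomial.C (Polynomial.X ^ 4))) n z) =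
      ((∫ z, φ z * (rA w (rh h k) T n z *
        rA v (rh h k) (Polynomial.C (Polynomial.X ^ 4)) n z) : ℝ) : ℂ) := fun n =>
    int_re hφ (fun z hz => rA_eq S.H _ n hz) (fun z hz => rA_eq S.G _ n hz)
  have e4 : ∀ n, ∫ z, (φ z : ℂ) * (fg w v (rh h k) (FF P) n z * fg w v (rh h k) (FF P) n z) =
      ((∫ z, φ z * (rF w v (rh h k) P n z * rF w v (rh h k) P n z) : ℝ) : ℂ) := fun n =>
    int_re hφ (fun z hz => S.rF_eq P n hz) (fun z hz => S.rF_eq P n hz)
  simp only [e1] at a1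
  simp only [e2] at a2
  simp only [e3, e4] at a3
  have b1 := toR a1
  have b2 := toR a2
  have b3 : Tendsto (fun n => 2 * (∫ z, φ z * (rF w v (rh h k) P n z * rF w v (rh h k) P n z)) -
      ∫ z, φ z * (rA w (rh h k) T n z * rA v (rh h k) (Polynomial.C (Polynomial.X ^ 4)) n z)) atTop
      (𝓝 ((∫ z, φ z) * (2 * gF r P))) := toR (a3.congr fun n => by push_cast; ring)
  have b4 := (b1.mul b2).sqrt
  have b5 := (b3.add b4).eventually (gt_mem_nhds (lt_add_of_pos_right _ hε))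
  filter_upwards [b5] with n hn
  have cs1 := JC.cs hB hφ h0 (rAc (ρ := rh h k) S.H T n)
    (rAc (ρ := rh h k) S.G (Polynomial.C (Polynomial.X ^ 4)) n)
  have c1 : ∀ f : ℂ → ℝ, ∫ z, φ z * f z ^ 2 = ∫ z, φ z * (f z * f z) := fun f => by
    congr 1; funext z; ring
  rw [c1, c1] at cs1
  have c2 := Real.abs_le_sqrt cs1
  have c3 := (le_abs_self _).trans c2
  rw [c1]
  linarith

/-! ### pairing with polynomials -/

/-- the pairing functional -/
def Lq (w v : ℤ → ℕ → ℂ → ℂ) (ρ : ℕ → ℝ) (q : ℕ → ℂ → ℂ) (φ : ℂ → ℝ) (p : A1) (n : ℕ) : ℂ :=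
  LM (fun m n => PI w v q φ (-m) m n) ρ n p

lemma S2.Lq_eq (S : S2 B h k w v c) {q : ℕ → ℂ → ℂ} (hq : ∀ n, ContinuousOn (q n) B) {φ : ℂ → ℝ}
    (hφ : TF B φ) (p : A1) (n : ℕ) :
    ∫ z, (φ z : ℂ) * (fg w v ρ p n z * q n z) = Lq w v ρ q φ p n := by
  unfold fg Lq
  have ii : ∀ p : A1, Integrable (fun z => (φ z : ℂ) *
      (LM (fun m n => pr w v (-m) m n z) ρ n p * q n z)) := fun p =>
    TF.cint hφ ((S.fgc p n).mul (hq n))
  induction p using AddMonoidAlgebra.induction_linear with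
  | zero => simp
  | add p p' h1 h2 =>
    rw [map_add, ← h1, ← h2, ← integral_add (ii p) (ii p')]
    congr 1; funext z
    rw [map_add]; ring
  | single m c =>
    rw [LM_single, PI, ← integral_const_mul]
    congr 1; funext z
    rw [LM_single]; ring

lemma LM_CR {G : Type} [AddMonoid G] {M : G → ℕ → ℂ} (c : R1) (p : AddMonoidAlgebra R1 G) (n : ℕ) :
    LM M ρ n (CR G c * p) = cf (ρ n) c * LM M ρ n p := by
  induction p using AddMonoidAlgebra.induction_linear with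
  | zero => simp
  | add p q h1 h2 => rw [mul_add, map_add, map_add, h1, h2]; ring
  | single g d =>
    rw [CR_eq, AddMonoidAlgebra.single_mul_single, LM_single, LM_single, zero_add, map_mul]; ring

lemma lf_single (m : ℤ) (c : R1) : lf * (AddMonoidAlgebra.single m c : A1) =
    AddMonoidAlgebra.single m ((1 + Polynomial.X ^ 2) * c) +
    (AddMonoidAlgebra.single (1 + m) (Polynomial.X * c) +
      AddMonoidAlgebra.single (-1 + m) (Polynomial.X * c)) := by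
  unfold lf T1
  rw [CR_eq, CR_eq, mul_add, AddMonoidAlgebra.single_mul_single,
    AddMonoidAlgebra.single_mul_single, add_mul, add_mul, AddMonoidAlgebra.single_mul_single,
    AddMonoidAlgebra.single_mul_single, AddMonoidAlgebra.single_mul_single]
  simp only [zero_add, mul_one]

theorem S2.pairA (S : S2 B h k w v c) {τ : ℕ → ℝ} {q : ℕ → ℂ → ℂ} (T : S3 B h τ q) {φ : ℂ → ℝ}
    (hφ : TF B φ) (p : A1) : Tendsto (fun n => (τ n : ℂ) * Lq w v (rh h k) q φ p n -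
      Lq w v (rh h k) q φ (lf * p) n) atTop (𝓝 0) := by
  unfold Lq
  induction p using AddMonoidAlgebra.induction_linear with
  | zero => simp
  | add p p' h1 h2 =>
    have := h1.add h2
    rw [add_zero] at this
    refine this.congr fun n => ?_
    rw [mul_add, map_add, map_add]; ring
  | single m d =>
    obtain ⟨C, -, hC⟩ := cf_bdd ⟨c, S.rbd⟩ d
    refine (bd_null hC (S.pair T hφ (-m) m)).congr fun n => ?_
    rw [lf_single, map_add, map_add, LM_single, LM_single, LM_single, LM_single]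
    have e1 : cf (rh h k n) ((1 + Polynomial.X ^ 2) * d) =
        (1 + (rh h k n : ℂ) ^ 2) * cf (rh h k n) d := by
      rw [map_mul, cf_eq _ (1 + Polynomial.X ^ 2)]
      simp
    have e2 : cf (rh h k n) (Polynomial.X * d) = (rh h k n : ℂ) * cf (rh h k n) d := by
      rw [map_mul, cf_eq _ Polynomial.X]
      simp
    rw [e1, e2, show -(1 + m) = -m - 1 by ring, show 1 + m = m + 1 by ring,
      show -(-1 + m) = -m + 1 by ring, show -1 + m = m - 1 by ring]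
    ring

theorem S2.pairK (S : S2 B h k w v c) {τ : ℕ → ℝ} {q : ℕ → ℂ → ℂ} (T : S3 B h τ q)
    (τ0 : ∀ n, 0 ≤ τ n) {φ : ℂ → ℝ} (hφ : TF B φ) (i : ℕ) (p : A1) :
    Tendsto (fun n => ((τ n : ℂ) ^ i * Lq w v (rh h k) q φ p n -
      Lq w v (rh h k) q φ (lf ^ i * p) n) / ((1 + τ n : ℝ) : ℂ) ^ i) atTop (𝓝 0) := by
  induction i with
  | zero => simp
  | succ i ih =>
    have pp := S.pairA T hφ (lf ^ i * p)
    have b1 : ∀ n, ‖(τ n : ℂ) / ((1 + τ n : ℝ) : ℂ)‖ ≤ 1 := by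
      intro n
      have := τ0 n
      rw [norm_div, Complex.norm_real, Complex.norm_real, Real.norm_eq_abs, Real.norm_eq_abs,
        abs_of_nonneg this, abs_of_nonneg (by linarith : 0 ≤ 1 + τ n),
        div_le_one (by linarith)]
      linarith
    have t := (JC.mul_null ih b1).add (JC.mul_null pp fun n => JC.nb1 (τ0 n) (i + 1))
    rw [add_zero] at t
    refine t.congr fun n => ?_
    have := JC.nb (τ0 n)
    rw [show lf ^ (i + 1) * p = lf * (lf ^ i * p) by ring]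
    field_simp
    ring

theorem S2.pairP (S : S2 B h k w v c) {τ : ℕ → ℝ} {q : ℕ → ℂ → ℂ} (T : S3 B h τ q)
    (τ0 : ∀ n, 0 ≤ τ n) {φ : ℂ → ℝ} (hφ : TF B φ) (F : Polynomial R1) {d : ℕ}
    (hd : F.natDegree ≤ d) :
    Tendsto (fun n => (((ev2 (rh h k n) (τ n) F : ℝ) : ℂ) * Lq w v (rh h k) q φ 1 n -
      Lq w v (rh h k) q φ (F.eval₂ (CR ℤ) lf) n) / ((1 + τ n : ℝ) : ℂ) ^ d) atTop (𝓝 0) := by
  have t : Tendsto (fun n => ∑ i ∈ Finset.range (d + 1), cf (rh h k n) (F.coeff i) *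
      (1 / ((1 + τ n : ℝ) : ℂ) ^ (d - i) * (((τ n : ℂ) ^ i * Lq w v (rh h k) q φ 1 n -
      Lq w v (rh h k) q φ (lf ^ i * 1) n) / ((1 + τ n : ℝ) : ℂ) ^ i))) atTop (𝓝 0) := by
    have := tendsto_finsetSum (Finset.range (d + 1)) fun i _ => by
      obtain ⟨C, -, hC⟩ := cf_bdd ⟨c, S.rbd⟩ (F.coeff i)
      exact bd_null hC (JC.mul_null (S.pairK T τ0 hφ i 1) fun n => JC.nb1 (τ0 n) (d - i))
    simpa using this
  refine t.congr fun n => ?_
  have e1 : Lq w v (rh h k) q φ (F.eval₂ (CR ℤ) lf) n = ∑ i ∈ Finset.range (d + 1),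
      cf (rh h k n) (F.coeff i) * Lq w v (rh h k) q φ (lf ^ i * 1) n := by
    rw [Polynomial.eval₂_eq_sum_range' (CR ℤ) (Nat.lt_succ_of_le hd)]
    unfold Lq
    rw [map_sum]
    refine Finset.sum_congr rfl fun i _ => ?_
    rw [LM_CR, mul_one]
  have e2 : ((ev2 (rh h k n) (τ n) F : ℝ) : ℂ) = ∑ i ∈ Finset.range (d + 1),
      cf (rh h k n) (F.coeff i) * (τ n : ℂ) ^ i := by
    rw [ev2_eq, Polynomial.eval₂_eq_sum_range' _ (Nat.lt_succ_of_le hd)]
    push_cast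
    rfl
  rw [e1, e2, Finset.sum_mul, ← Finset.sum_sub_distrib, Finset.sum_div]
  refine Finset.sum_congr rfl fun i hi => ?_
  have hi' : i ≤ d := Nat.lt_succ_iff.1 (Finset.mem_range.1 hi)
  have hb := JC.nb (τ0 n)
  have e3 : ((1 + τ n : ℝ) : ℂ) ^ d = ((1 + τ n : ℝ) : ℂ) ^ (d - i) *
      ((1 + τ n : ℝ) : ℂ) ^ i := by
    rw [← pow_add, Nat.sub_add_cancel hi']
  rw [e3]
  field_simp

end

end Pool.Agent.Q191.TP
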