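import Pool.Agent.Q191.TP.Mn

/-! Choice of the polynomials. -/
set_option autoImplicit false
open MeasureTheory Filter Topology

namespace Pool.Agent.Q191.TP

noncomputable section

/-- continuity in both variables -/
lemma ev2_lim {ρ x : ℕ → ℝ} {r y : ℝ} (hρ : Tendsto ρ atTop (𝓝 r)) (hx : Tendsto x atTop (𝓝 y))
    (F : Polynomial R1) : Tendsto (fun n => ev2 (ρ n) (x n) F) atTop (𝓝 (ev2 r y F)) := by
  simp only [ev2_eq]
  induction F using Polynomial.induction_on' with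
  | add p q h1 h2 => simpa only [Polynomial.eval₂_add] using h1.add h2
  | monomial i c =>
    simp only [Polynomial.eval₂_monomial, Polynomial.coe_evalRingHom]
    exact ((c.continuous.tendsto r).comp hρ).mul (hx.pow i)

/-- the value of the basic polynomial -/
def F0v (r y : ℝ) : ℝ := (y ^ 2 - 2 * (1 + r ^ 2) * y + (1 - r ^ 2) ^ 2) *
    ((y - (r ^ 2 - 1)) * (y + (r ^ 2 - 1)))

lemma ev2_F0 (r y : ℝ) : ev2 r y F0 = F0v r y := by
  rw [ev2_eq, F0_ev]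
  simp [F0v]

/-- peaked polynomials -/
def PN (c τ : ℝ) (N : ℕ) : Polynomial R1 :=
  (1 - Polynomial.C (Polynomial.C c) * (Polynomial.X - Polynomial.C (Polynomial.C τ)) ^ 2) ^ N

lemma ev2_PN (c τ r y : ℝ) (N : ℕ) : ev2 r y (PN c τ N) = (1 - c * (y - τ) ^ 2) ^ N := by
  unfold PN
  rw [map_pow, map_sub, map_mul, map_pow, map_sub, map_one, ev2_C, ev2_C, ev2_X]
  simp

/-- the peaked function -/
lemma pk {M τ y : ℝ} (hM : 0 < M) (hy : |y - τ| ≤ M) : 0 ≤ 1 - 1 / M ^ 2 * (y - τ) ^ 2 ∧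
    1 - 1 / M ^ 2 * (y - τ) ^ 2 ≤ 1 ∧ (y ≠ τ → 1 - 1 / M ^ 2 * (y - τ) ^ 2 < 1) := by
  have h1 : (y - τ) ^ 2 ≤ M ^ 2 := by
    rw [← sq_abs (y - τ)]; exact pow_le_pow_left₀ (abs_nonneg _) hy 2
  have h2 : 1 / M ^ 2 * (y - τ) ^ 2 ≤ 1 := by
    rw [one_div, inv_mul_le_iff₀ (by positivity)]; linarith
  refine ⟨by linarith, by have : 0 ≤ 1 / M ^ 2 * (y - τ) ^ 2 := by positivity
                          linarith, fun h => ?_⟩
  have h3 : 0 < (y - τ) ^ 2 := by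
    have : y - τ ≠ 0 := sub_ne_zero.2 h
    positivity
  have : 0 < 1 / M ^ 2 * (y - τ) ^ 2 := by positivity
  linarith

lemma pk0 {M τ y : ℝ} (hM : 0 < M) (hy : |y - τ| ≤ M) (h : y ≠ τ) :
    Tendsto (fun N : ℕ => (1 - 1 / M ^ 2 * (y - τ) ^ 2) ^ N) atTop (𝓝 0) := by
  obtain ⟨a, b, c⟩ := pk hM hy
  exact tendsto_pow_atTop_nhds_zero_of_lt_one a (c h)

lemma pk1 {M τ y : ℝ} (hM : 0 < M) (hy : |y - τ| ≤ M) (N : ℕ) :
    |(1 - 1 / M ^ 2 * (y - τ) ^ 2) ^ N| ≤ 1 := by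
  obtain ⟨a, b, -⟩ := pk hM hy
  rw [abs_of_nonneg (pow_nonneg a N)]
  exact pow_le_one₀ a b

lemma cos_ae (c : ℝ) : ∀ᵐ θ : ℝ, Real.cos θ ≠ c := by
  have h6 : ∀ᵐ θ : ℝ, θ ∉ {θ : ℝ | Real.cos θ = c} :=
    measure_eq_zero_iff_ae_notMem.1 ((Pool.Agent.Y265.HY.JC.cnt _).measure_zero volume)
  filter_upwards [h6] with θ hθ h
  exact hθ h

/-- dominated convergence on the circle -/
lemma dom {f : ℕ → ℝ → ℝ} (hc : ∀ N, Continuous (f N)) {C : ℝ} (hb : ∀ N θ, |f N θ| ≤ C)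
    (hl : ∀ᵐ θ : ℝ, Tendsto (fun N => f N θ) atTop (𝓝 0)) :
    Tendsto (fun N => 1 / (2 * Real.pi) * ∫ θ in (0 : ℝ)..(2 * Real.pi), f N θ) atTop (𝓝 0) := by
  have key : Tendsto (fun N : ℕ => ∫ θ in (0 : ℝ)..(2 * Real.pi), f N θ) atTop
      (𝓝 (∫ _θ in (0 : ℝ)..(2 * Real.pi), (0 : ℝ))) := by
    refine intervalIntegral.tendsto_integral_filter_of_dominated_convergence (fun _ => C)
      (Eventually.of_forall fun N => (hc N).aestronglyMeasurable)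
      (Eventually.of_forall fun N => ae_of_all _ fun θ _ => hb N θ)
      (continuous_const.intervalIntegrable _ _) ?_
    filter_upwards [hl] with θ h _ using h
  have := key.const_mul (1 / (2 * Real.pi))
  simpa using this

lemma ev2_cont (r : ℝ) (F : Polynomial R1) : Continuous (fun y => ev2 r y F) := by
  simp only [ev2_eq]
  have : (fun y => F.eval₂ (Polynomial.evalRingHom r) y) = fun y =>
      (F.map (Polynomial.evalRingHom r)).eval y := by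
    funext y; rw [Polynomial.eval_map]
  rw [this]
  exact (F.map (Polynomial.evalRingHom r)).continuous

theorem gF_lim {r τ : ℝ} (hr : 1 ≤ r) (hτ : 0 ≤ τ) :
    Tendsto (fun N => gF r (PN (1 / (2 * (1 + r ^ 2) + τ + 1) ^ 2) τ N)) atTop (𝓝 0) := by
  obtain ⟨M, hM⟩ : ∃ M, M = 2 * (1 + r ^ 2) + τ + 1 := ⟨_, rfl⟩
  have M0 : 0 < M := by rw [hM]; positivity
  rw [← hM]
  unfold gF
  have hy : ∀ θ : ℝ, 0 ≤ 1 + r ^ 2 + 2 * r * Real.cos θ ∧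
      1 + r ^ 2 + 2 * r * Real.cos θ ≤ 2 * (1 + r ^ 2) := fun θ => by
    have h1 := Real.cos_le_one θ
    have h2 := Real.neg_one_le_cos θ
    constructor <;> nlinarith [sq_nonneg (1 - r)]
  have hM' : ∀ θ : ℝ, |1 + r ^ 2 + 2 * r * Real.cos θ - τ| ≤ M := fun θ => by
    have := hy θ
    rw [abs_le]
    constructor <;> nlinarith [this.1, this.2]
  obtain ⟨C, hC⟩ := (isCompact_Icc (a := (0 : ℝ)) (b := 2 * (1 + r ^ 2))).exists_bound_of_continuousOn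
    (ev2_cont r F0).continuousOn
  refine dom (C := C ^ 2) (fun N => ?_) (fun N θ => ?_) ?_
  · refine ((ev2_cont r _).comp ?_).pow 2
    fun_prop
  · rw [map_mul, ev2_PN, mul_pow, abs_mul, abs_pow, abs_pow]
    have h1 := hC _ ⟨(hy θ).1, (hy θ).2⟩
    rw [Real.norm_eq_abs] at h1
    have h2 := pk1 M0 (hM' θ) N
    have h3 : |ev2 r (1 + r ^ 2 + 2 * r * Real.cos θ) F0| ^ 2 ≤ C ^ 2 :=
      pow_le_pow_left₀ (abs_nonneg _) h1 2
    have h4 : |(1 - 1 / M ^ 2 * (1 + r ^ 2 + 2 * r * Real.cos θ - τ) ^ 2) ^ N| ^ 2 ≤ 1 :=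
      pow_le_one₀ (abs_nonneg _) h2
    calc _ ≤ C ^ 2 * 1 := mul_le_mul h3 h4 (by positivity) (by positivity)
      _ = C ^ 2 := mul_one _
  · filter_upwards [cos_ae ((τ - 1 - r ^ 2) / (2 * r))] with θ hθ
    have hne : 1 + r ^ 2 + 2 * r * Real.cos θ ≠ τ := by
      intro h
      apply hθ
      rw [eq_div_iff (by positivity)]
      linarith
    have h1 := (pk0 M0 (hM' θ) hne).const_mul (ev2 r (1 + r ^ 2 + 2 * r * Real.cos θ) F0)
    have h2 := h1.pow 2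
    rw [mul_zero, zero_pow two_ne_zero] at h2
    refine h2.congr fun N => ?_
    rw [map_mul, ev2_PN]

/-- the two roots -/
lemma roots {r x : ℝ} (hr : 1 ≤ r) (h0 : 0 ≤ x) (h4 : x ≤ 4) : ∃ a b : ℝ,
    a + b = 2 * (1 + r ^ 2) - x ∧ a * b = (1 - r ^ 2) ^ 2 ∧ 0 ≤ a ∧ 0 ≤ b ∧
    a ≤ 2 * (1 + r ^ 2) ∧ b ≤ 2 * (1 + r ^ 2) := by
  obtain ⟨S, hS⟩ : ∃ S, S = 2 * (1 + r ^ 2) - x := ⟨_, rfl⟩
  have r1 : 1 ≤ r ^ 2 := one_le_pow₀ hr
  have S0 : 0 ≤ S := by rw [hS]; linarith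
  have hd : 0 ≤ S ^ 2 - 4 * (1 - r ^ 2) ^ 2 := by
    have : S ^ 2 - 4 * (1 - r ^ 2) ^ 2 = (4 * r ^ 2 - x) * (4 - x) := by rw [hS]; ring
    rw [this]
    exact mul_nonneg (by linarith) (by linarith)
  have hq := Real.sq_sqrt hd
  have q0 := Real.sqrt_nonneg (S ^ 2 - 4 * (1 - r ^ 2) ^ 2)
  obtain ⟨s, hs⟩ : ∃ s, s = √(S ^ 2 - 4 * (1 - r ^ 2) ^ 2) := ⟨_, rfl⟩
  rw [← hs] at hq q0
  have sS : s ≤ S := by
    rw [hs]
    refine Real.sqrt_le_iff.2 ⟨S0, ?_⟩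
    nlinarith [sq_nonneg (1 - r ^ 2)]
  refine ⟨(S + s) / 2, (S - s) / 2, by rw [← hS]; ring, ?_, by linarith, by linarith, ?_, ?_⟩
  · nlinarith
  · rw [← sub_nonneg] at *; linarith
  · linarith

theorem gA_lim {r τ : ℝ} (hr : 1 ≤ r) (hτ : 0 ≤ τ) {T : ℕ → Polynomial R1}
    (hT : ∀ N, ∀ ρ x a b : ℝ, a + b = 2 * (1 + ρ ^ 2) - x → a * b = (1 - ρ ^ 2) ^ 2 →
      a ^ 4 * ev2 ρ a (PN (1 / (2 * (1 + r ^ 2) + τ + 1) ^ 2) τ N) ^ 2 +
      b ^ 4 * ev2 ρ b (PN (1 / (2 * (1 + r ^ 2) + τ + 1) ^ 2) τ N) ^ 2 = ev2 ρ x (T N)) :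
    Tendsto (fun N => gA r (T N)) atTop (𝓝 0) := by
  obtain ⟨M, hM⟩ : ∃ M, M = 2 * (1 + r ^ 2) + τ + 1 := ⟨_, rfl⟩
  have M0 : 0 < M := by rw [hM]; positivity
  rw [← hM] at hT
  unfold gA
  have hx : ∀ θ : ℝ, 0 ≤ 2 + 2 * Real.cos θ ∧ 2 + 2 * Real.cos θ ≤ 4 := fun θ =>
    ⟨by linarith [Real.neg_one_le_cos θ], by linarith [Real.cos_le_one θ]⟩
  have hb : ∀ y : ℝ, 0 ≤ y → y ≤ 2 * (1 + r ^ 2) → |y - τ| ≤ M := fun y h1 h2 => by
    rw [abs_le]; constructor <;> nlinarith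
  obtain ⟨L, hL⟩ : ∃ L, L = 2 * (1 + r ^ 2) := ⟨_, rfl⟩
  have L0 : 0 ≤ L := by rw [hL]; positivity
  refine dom (C := (16 * (2 * L ^ 4)) ^ 2) (fun N => ?_) (fun N θ => ?_) ?_
  · have := ev2_cont r (T N)
    fun_prop
  · obtain ⟨a, b, e1, e2, a0, b0, a1, b1⟩ := roots hr (hx θ).1 (hx θ).2
    rw [← hT N r _ a b e1 e2, ev2_PN, ev2_PN, abs_pow]
    refine pow_le_pow_left₀ (abs_nonneg _) ?_ 2
    have p1 := pk1 M0 (hb a a0 a1) N
    have p2 := pk1 M0 (hb b b0 b1) N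
    rw [← hL] at a1 b1
    have q1 : |a ^ 4 * ((1 - 1 / M ^ 2 * (a - τ) ^ 2) ^ N) ^ 2| ≤ L ^ 4 := by
      rw [abs_mul, abs_pow, abs_pow, abs_of_nonneg a0]
      calc _ ≤ L ^ 4 * 1 := mul_le_mul (pow_le_pow_left₀ a0 a1 4)
            (pow_le_one₀ (abs_nonneg _) p1) (by positivity) (by positivity)
        _ = _ := mul_one _
    have q2 : |b ^ 4 * ((1 - 1 / M ^ 2 * (b - τ) ^ 2) ^ N) ^ 2| ≤ L ^ 4 := by
      rw [abs_mul, abs_pow, abs_pow, abs_of_nonneg b0]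
      calc _ ≤ L ^ 4 * 1 := mul_le_mul (pow_le_pow_left₀ b0 b1 4)
            (pow_le_one₀ (abs_nonneg _) p2) (by positivity) (by positivity)
        _ = _ := mul_one _
    rw [abs_mul]
    refine mul_le_mul ?_ ((abs_add_le _ _).trans (by linarith)) (abs_nonneg _) (by norm_num)
    have := hx θ
    rw [abs_le]
    constructor <;> nlinarith
  · filter_upwards [cos_ae ((2 * (1 + r ^ 2) - τ - (1 - r ^ 2) ^ 2 / τ - 2) / 2)] with θ hθ
    obtain ⟨a, b, e1, e2, a0, b0, a1, b1⟩ := roots hr (hx θ).1 (hx θ).2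
    have one : ∀ y y' : ℝ, y + y' = 2 * (1 + r ^ 2) - (2 + 2 * Real.cos θ) →
        y * y' = (1 - r ^ 2) ^ 2 → 0 ≤ y → y ≤ 2 * (1 + r ^ 2) →
        Tendsto (fun N : ℕ => y ^ 4 * ((1 - 1 / M ^ 2 * (y - τ) ^ 2) ^ N) ^ 2) atTop (𝓝 0) := by
      intro y y' f1 f2 y0 y1
      by_cases hy : y = 0
      · rw [hy]
        simp
      · have hne : y ≠ τ := by
          intro h
          apply hθ
          rw [← h]
          have : (1 - r ^ 2) ^ 2 / y = y' := by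
            rw [← f2]; field_simp
          rw [this]
          linarith
        have h2 := ((pk0 M0 (hb y y0 y1) hne).pow 2).const_mul (y ^ 4)
        rw [zero_pow two_ne_zero, mul_zero] at h2
        exact h2
    have t1 := one a b e1 e2 a0 a1
    have t2 := one b a (by rw [add_comm]; exact e1) (by rw [mul_comm]; exact e2) b0 b1
    have t3 := ((t1.add t2).const_mul ((2 + 2 * Real.cos θ) * ((2 + 2 * Real.cos θ) - 4))).pow 2
    rw [add_zero, mul_zero, zero_pow two_ne_zero] at t3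
    refine t3.congr fun N => ?_
    rw [← hT N r _ a b e1 e2, ev2_PN, ev2_PN]

/-- **Choice of the polynomials** -/
theorem choice {r τ : ℝ} (hr : 1 ≤ r) (hτ : 0 ≤ τ) {I0 ε : ℝ} (hε : 0 < ε) :
    ∃ P T : Polynomial R1, ev2 r τ P = 1 ∧
    (emb (-1) 0 1 0 (FF P) * emb 0 (-1) 0 1 (FF P) +
      emb (-1) 0 0 1 (FF P) * emb 0 (-1) 1 0 (FF P) -
      emb 1 (-1) 0 0 (AA T) * emb 0 0 1 (-1) BB ∈ J0) ∧
    I0 * (2 * gF r P) + √((I0 * (2 * gA r T)) *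
        (I0 * (2 * gA r (Polynomial.C (Polynomial.X ^ 4))))) < ε := by
  have ex := fun N => main_id (PN (1 / (2 * (1 + r ^ 2) + τ + 1) ^ 2) τ N)
  choose T hT hJ using ex
  have l1 := gF_lim hr hτ
  have l2 := gA_lim hr hτ hT
  have l3 := ((l1.const_mul 2).const_mul I0).add
    (((l2.const_mul 2).const_mul I0).mul_const
      (I0 * (2 * gA r (Polynomial.C (Polynomial.X ^ 4))))).sqrt
  simp only [mul_zero, zero_mul, Real.sqrt_zero, add_zero] at l3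
  obtain ⟨N, hN⟩ := (l3.eventually (gt_mem_nhds hε)).exists
  refine ⟨_, T N, ?_, hJ N, hN⟩
  rw [ev2_PN]; simp

end

end Pool.Agent.Q191.TP
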