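import Pool.Agent.Q191.TP.E3

/-! The normalised Laplacian on joint products and the pairing with a third sequence. -/
set_option autoImplicit false
open MeasureTheory Filter Topology Complex Set
open scoped ContDiff Real Manifold

namespace Pool.Agent.Q191.TP

open Pool.Agent.W745.RW Pool.Agent.TH294.RS Pool.Agent.Y265.HY Pool.Agent.Y265.HY.PS
  Pool.Agent.Y265.HY.JC
open Pool.Agent.TH294.RG (sL sL_eq)

noncomputable section

variable {B : Set ℂ} {h k : ℕ → ℝ} {w v : ℤ → ℕ → ℂ → ℂ} {c : ℝ}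

lemma QE.bm (hB : IsOpen B) {f : ℕ → ℂ → ℂ} (hf : QE B h w f) {b : ℕ → ℝ} {c : ℝ}
    (hb : ∀ n, |b n| ≤ c) : QE B h w (fun n z => (b n : ℂ) * f n z) := by
  induction hf with
  | mul he hg => exact (QE.mul (M2C.bm hB he hb) hg).cg fun n z _ => by ring
  | add _ _ ih1 ih2 => exact (ih1.add ih2).cg fun n z _ => by ring
  | cg _ e ih => exact ih.cg fun n z hz => by rw [e n z hz]

/-- the product of two ladder elements -/
def pr (w v : ℤ → ℕ → ℂ → ℂ) (a i : ℤ) (n : ℕ) (z : ℂ) : ℂ := v i n z * w a n z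

lemma S2.prq (S : S2 B h k w v c) (a i : ℤ) : QE B h w (pr w v a i) :=
  QE.mul (S.m2 (S.G.bd i)) (RP.W S.H S.h0 a)

lemma S2.prc (S : S2 B h k w v c) (a i : ℤ) (n : ℕ) : ContinuousOn (pr w v a i n) B :=
  ((S.G.bd i).co n).mul ((S.H.bd a).co n)

theorem S2.sLp (S : S2 B h k w v c) (a i : ℤ) : ∃ Q1 Q2, QE B h w Q1 ∧ QE B k v Q2 ∧
    ∀ n, ∀ z ∈ B, sL Complex.im h (pr w v a i) n z =
      (1 + ((rh h k n : ℝ) : ℂ) ^ 2) * pr w v a i n z +
      ((rh h k n : ℝ) : ℂ) * (pr w v (a + 1) (i - 1) n z + pr w v (a - 1) (i + 1) n z) +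
      (h n : ℂ) * (Q1 n z + Q2 n z) := by
  have H := S.H
  have G := S.G
  have hB := H.op
  obtain ⟨e1, he1, g1⟩ := H.up a
  obtain ⟨e2, he2, g2⟩ := G.up i
  obtain ⟨f1, hf1, k1⟩ := H.dn (a + 1)
  obtain ⟨f2, hf2, k2⟩ := G.dn i
  obtain ⟨f3, hf3, k3⟩ := H.dn a
  obtain ⟨f4, hf4, k4⟩ := G.dn (i + 1)
  have rb := S.rbd
  have rw' := fun x => RP.W H S.h0 x
  have rv' := fun x => RP.W G S.g0 x
  have q0 : QE B h w (pr w v a i) := S.prq a i
  have sc1 : ∀ {f : ℕ → ℂ → ℂ}, M2C B h f → M2C B k f := fun hf => S.symm.m2 hf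
  have p1 : QE B h w (fun n z => ab Complex.im z * TH294.RS.sP Complex.im h (pr w v a i) n z) :=
    (q0.sP H).smulc H (ab_sm hB H.sa)
  have p2 : QE B h w (fun n z => f2 n z * w (a + 1) n z) := QE.mul (S.m2 hf2) (rw' _)
  have p3 : QE B h w (fun n z => ((rh h k n : ℝ) : ℂ) * (f4 n z * w a n z)) :=
    QE.bm hB (QE.mul (S.m2 hf4) (rw' _)) rb
  have p4' : QE B h w (fun n z => e2 n z * w a n z) := QE.mul (S.m2 he2) (rw' _)
  have p4 := p4'.sM H
  have r1 : QE B k v (fun n z => f1 n z * v i n z) := QE.mul (sc1 hf1) (rv' _)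
  have r2 : QE B k v (fun n z => ((rh h k n : ℝ) : ℂ) * (f3 n z * v (i + 1) n z)) :=
    QE.bm hB (QE.mul (sc1 hf3) (rv' _)) rb
  have r3' : QE B k v (fun n z => e1 n z * v i n z) := QE.mul (sc1 he1) (rv' _)
  have r3 := QE.bm hB (r3'.sM G) rb
  refine ⟨_, _, ((p1.sub H p2).sub H p3).sub H p4, ((r1.add r2).add r3).cmul G (-1),
    fun n z hz => ?_⟩
  have sw : ∀ x, ContDiffOn ℝ ∞ (w x n) B := fun x => (H.bd x).sm n
  have sv : ∀ x, ContDiffOn ℝ ∞ (v x n) B := fun x => (G.bd x).sm n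
  rw [sL_eq hB H.sa (q0.lb H).sm n hz]
  have hk := S.rhk n
  have eP : ∀ z ∈ B, TH294.RS.sP Complex.im h (pr w v a i) n z =
      (v i n z * w (a + 1) n z + ((rh h k n : ℝ) : ℂ) * (v (i + 1) n z * w a n z)) +
      (h n : ℂ) * (e1 n z * v i n z + e2 n z * w a n z) := by
    intro z hz
    have c1 := g1 n z hz
    have c2 := g2 n z hz
    have e0 : dd (pr w v a i n) z = dd (fun z => v i n z * w a n z) z := rfl
    simp only [TH294.RS.sP, DP] at c1 c2 ⊢
    rw [e0, dd_mul (fda hB (sv i) hz) (fda hB (sw a) hz)]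
    linear_combination (v i n z) * c1 + ((rh h k n : ℝ) : ℂ) * (w a n z) * c2 -
      (w a n z * ((z.im : ℂ) * dd (v i n) z - e2 n z)) * hk
  have eM : TH294.RS.sM Complex.im h (TH294.RS.sP Complex.im h (pr w v a i)) n z =
      DM Complex.im (h n) (fun z => (v i n z * w (a + 1) n z + ((rh h k n : ℝ) : ℂ) *
        (v (i + 1) n z * w a n z)) +
      (h n : ℂ) * (e1 n z * v i n z + e2 n z * w a n z)) z := DM_cg hB (h n) eP hz
  have s1 := fda hB ((sv i).mul (sw (a + 1))) hz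
  have s2 := fda hB ((sv (i + 1)).mul (sw a)) hz
  have s3 := fda hB ((r3'.lb G).sm n) hz
  have s4 := fda hB ((p4'.lb H).sm n) hz
  have s34 : DifferentiableAt ℝ (fun z => e1 n z * v i n z + e2 n z * w a n z) z := s3.add s4
  have eM2 : DM Complex.im (h n) (fun z => (v i n z * w (a + 1) n z + ((rh h k n : ℝ) : ℂ) *
        (v (i + 1) n z * w a n z)) +
      (h n : ℂ) * (e1 n z * v i n z + e2 n z * w a n z)) z =
      DM Complex.im (h n) (fun z => v i n z * w (a + 1) n z) z +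
      ((rh h k n : ℝ) : ℂ) * DM Complex.im (h n) (fun z => v (i + 1) n z * w a n z) z +
      (h n : ℂ) * (((rh h k n : ℝ) : ℂ) * TH294.RS.sM Complex.im k (fun n z => e1 n z * v i n z) n z +
        TH294.RS.sM Complex.im h (fun n z => e2 n z * w a n z) n z) := by
    simp only [DM, TH294.RS.sM]
    rw [Pool.Agent.Y265.HY.db_add (f := fun z => v i n z * w (a + 1) n z + ((rh h k n : ℝ) : ℂ) *
        (v (i + 1) n z * w a n z))
      (g := fun z => (h n : ℂ) * (e1 n z * v i n z + e2 n z * w a n z))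
      (s1.add (s2.const_mul _))
      (s34.const_mul _), Pool.Agent.Y265.HY.db_add s1 (s2.const_mul _), db_cm s2,
      db_cm s34, Pool.Agent.Y265.HY.db_add s3 s4]
    linear_combination (-(h n : ℂ) * ((z.im : ℂ) * db (fun z => e1 n z * v i n z) z)) * hk
  have m1 : DM Complex.im (h n) (fun z => v i n z * w (a + 1) n z) z =
      -(v i n z * w a n z) - ((rh h k n : ℝ) : ℂ) * (v (i - 1) n z * w (a + 1) n z) +
      (h n : ℂ) * (f1 n z * v i n z + f2 n z * w (a + 1) n z) := by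
    have c1 := k1 n z hz
    have c2 := k2 n z hz
    rw [add_sub_cancel_right] at c1
    simp only [DM] at c1 c2 ⊢
    rw [db_mul (fda hB (sv i) hz) (fda hB (sw (a + 1)) hz)]
    linear_combination (v i n z) * c1 + ((rh h k n : ℝ) : ℂ) * (w (a + 1) n z) * c2 -
      (w (a + 1) n z * ((z.im : ℂ) * db (v i n) z - f2 n z)) * hk
  have m2 : DM Complex.im (h n) (fun z => v (i + 1) n z * w a n z) z =
      -(v (i + 1) n z * w (a - 1) n z) - ((rh h k n : ℝ) : ℂ) * (v i n z * w a n z) +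
      (h n : ℂ) * (f3 n z * v (i + 1) n z + f4 n z * w a n z) := by
    have c1 := k3 n z hz
    have c2 := k4 n z hz
    rw [add_sub_cancel_right] at c2
    simp only [DM] at c1 c2 ⊢
    rw [db_mul (fda hB (sv (i + 1)) hz) (fda hB (sw a) hz)]
    linear_combination (v (i + 1) n z) * c1 + ((rh h k n : ℝ) : ℂ) * (w a n z) * c2 -
      (w a n z * ((z.im : ℂ) * db (v (i + 1) n) z - f4 n z)) * hk
  rw [eM, eM2, m1, m2]
  simp only [pr]
  ring

/-- the third sequence -/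
structure S3 (B : Set ℂ) (h : ℕ → ℝ) (τ : ℕ → ℝ) (q : ℕ → ℂ → ℂ) : Prop where
  lb : LB B 2 q
  eq : ∀ n, ∀ z ∈ B, (h n : ℂ) ^ 2 * ((z.im : ℂ) ^ 2 * lap (q n) z) = -((τ n : ℂ) * q n z)

/-- the pairing integrals -/
def PI (w v : ℤ → ℕ → ℂ → ℂ) (q : ℕ → ℂ → ℂ) (φ : ℂ → ℝ) (a i : ℤ) (n : ℕ) : ℂ :=
  ∫ z, (φ z : ℂ) * (pr w v a i n z * q n z)

/-- **Pairing** -/
theorem S2.pair (S : S2 B h k w v c) {τ : ℕ → ℝ} {q : ℕ → ℂ → ℂ} (T : S3 B h τ q) {φ : ℂ → ℝ}
    (hφ : TF B φ) (a i : ℤ) :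
    Tendsto (fun n => (τ n : ℂ) * PI w v q φ a i n - ((1 + ((rh h k n : ℝ) : ℂ) ^ 2) *
      PI w v q φ a i n + ((rh h k n : ℝ) : ℂ) * (PI w v q φ (a + 1) (i - 1) n +
        PI w v q φ (a - 1) (i + 1) n))) atTop (𝓝 0) := by
  have H := S.H
  have G := S.G
  have hB := H.op
  have p := pair1 H S.bu T.lb T.eq (S.prq a i) hφ
  obtain ⟨Q1, Q2, hQ1, hQ2, e⟩ := S.sLp a i
  have n1 := (qe_wn H S.bu hQ1 T.lb).nul φ hφ
  have n2 := (qe_wn G S.bu hQ2 (LB.bm T.lb S.rbd)).nul φ hφ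
  have t := Tendsto.add (Tendsto.add p n1) n2
  rw [add_zero, add_zero] at t
  refine t.congr fun n => ?_
  have cq : ContinuousOn (q n) B := (T.lb.sm n).continuousOn
  have ip : ∀ x y, Integrable (fun z => (φ z : ℂ) * (pr w v x y n z * q n z)) := fun x y =>
    TF.cint hφ ((S.prc x y n).mul cq)
  have i1 : Integrable (fun z => (φ z : ℂ) * ((h n : ℂ) * (Q1 n z * q n z))) :=
    TF.cint hφ (continuousOn_const.mul (((hQ1.lb H).co n).mul cq))
  have i2 : Integrable (fun z => (φ z : ℂ) * ((k n : ℂ) * (Q2 n z * ((rh h k n : ℂ) * q n z)))) :=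
    TF.cint hφ (continuousOn_const.mul (((hQ2.lb G).co n).mul (continuousOn_const.mul cq)))
  have e1 : ∫ z, (φ z : ℂ) * (sL Complex.im h (pr w v a i) n z * q n z) =
      ((1 + ((rh h k n : ℝ) : ℂ) ^ 2) * PI w v q φ a i n +
      ((rh h k n : ℝ) : ℂ) * (PI w v q φ (a + 1) (i - 1) n + PI w v q φ (a - 1) (i + 1) n)) +
      (∫ z, (φ z : ℂ) * ((h n : ℂ) * (Q1 n z * q n z))) +
      ∫ z, (φ z : ℂ) * ((k n : ℂ) * (Q2 n z * ((rh h k n : ℂ) * q n z))) := by
    unfold PI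
    have i3 : Integrable (fun z => (1 + ((rh h k n : ℝ) : ℂ) ^ 2) *
        ((φ z : ℂ) * (pr w v a i n z * q n z))) := (ip _ _).const_mul _
    have i4 : Integrable (fun z => ((rh h k n : ℝ) : ℂ) *
        ((φ z : ℂ) * (pr w v (a + 1) (i - 1) n z * q n z) +
          (φ z : ℂ) * (pr w v (a - 1) (i + 1) n z * q n z))) :=
      ((ip _ _).add (ip _ _)).const_mul _
    have i34 : Integrable (fun z => (1 + ((rh h k n : ℝ) : ℂ) ^ 2) *
        ((φ z : ℂ) * (pr w v a i n z * q n z)) + ((rh h k n : ℝ) : ℂ) *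
        ((φ z : ℂ) * (pr w v (a + 1) (i - 1) n z * q n z) +
          (φ z : ℂ) * (pr w v (a - 1) (i + 1) n z * q n z))) := i3.add i4
    have i5 : Integrable (fun z => (1 + ((rh h k n : ℝ) : ℂ) ^ 2) *
        ((φ z : ℂ) * (pr w v a i n z * q n z)) + ((rh h k n : ℝ) : ℂ) *
        ((φ z : ℂ) * (pr w v (a + 1) (i - 1) n z * q n z) +
          (φ z : ℂ) * (pr w v (a - 1) (i + 1) n z * q n z)) +
        (φ z : ℂ) * ((h n : ℂ) * (Q1 n z * q n z))) := i34.add i1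
    rw [← integral_add (ip _ _) (ip _ _), ← integral_const_mul, ← integral_const_mul,
      ← integral_add i3 i4, ← integral_add i34 i1, ← integral_add i5 i2]
    congr 1; funext z
    by_cases hz : z ∈ B
    · rw [e n z hz]
      have hk := S.rhk n
      linear_combination (-(φ z : ℂ) * Q2 n z * q n z) * hk
    · rw [TF.zero hφ hz]; simp
  rw [e1]
  simp only [PI]
  ring

end

end Pool.Agent.Q191.TP
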