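import Pool.Agent.Q191.TP.Fn

/-! Limits of the second moments. -/
set_option autoImplicit false
open MeasureTheory Filter Topology Complex Set
open scoped ContDiff Real Manifold

namespace Pool.Agent.Q191.TP

open Pool.Agent.W745.RW Pool.Agent.TH294.RS Pool.Agent.Y265.HY

noncomputable section

variable {B : Set ℂ} {h k : ℕ → ℝ} {w v : ℤ → ℕ → ℂ → ℂ} {c : ℝ} {ρ : ℕ → ℝ} {r : ℝ}

lemma LM_lim {G : Type} {K : G → ℕ → ℂ} (hK : ∀ g n, K g n = K g 0)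
    (hρ : Tendsto ρ atTop (𝓝 r)) (p : AddMonoidAlgebra R1 G) :
    Tendsto (fun n => LM K ρ n p) atTop (𝓝 (LM K (fun _ => r) 0 p)) := by
  induction p using AddMonoidAlgebra.induction_linear with
  | zero => simp
  | add p q h1 h2 => simpa only [map_add] using h1.add h2
  | single g c =>
    simp only [LM_single, cf_eq]
    have h1 := (c.continuous.tendsto r).comp hρ
    have h2 := ((Complex.continuous_ofReal.tendsto _).comp h1).mul_const (K g 0)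
    refine h2.congr fun n => ?_
    rw [hK g n]; rfl

/-- the values on monomials -/
lemma sp1 (H : SY B Complex.im h w) (hBU : B ⊆ UH) (h0 : EX B h w (w 0)) {φ : ℂ → ℝ}
    (hφ : TF B φ) (g : ℤ × ℤ) : Tendsto (fun n => D2f w φ g n - (((∫ z, φ z : ℝ) : ℂ) * K2 g n +
      D4 w φ 0 0 0 0 n * e2 g n)) atTop (𝓝 0) := by
  have h1 := (dd4 H hBU h0 hφ).even g.1 (-g.1) g.2 (-g.2) 0 (by ring)
  refine Tendsto.congr (fun n => ?_) h1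
  simp only [D2f, K2, e2, D4, mul_zero]
  ring

/-- the values on all Laurent polynomials -/
lemma sp2 (H : SY B Complex.im h w) (hBU : B ⊆ UH) (h0 : EX B h w (w 0)) {φ : ℂ → ℝ}
    (hφ : TF B φ) (hρ : Tendsto ρ atTop (𝓝 r)) {p : A2} (he : ∀ n, LM e2 ρ n p = 0) :
    Tendsto (fun n => LM (D2f w φ) ρ n p) atTop
      (𝓝 (((∫ z, φ z : ℝ) : ℂ) * LM K2 (fun _ => r) 0 p)) := by
  have hb : ∃ c, ∀ n, |ρ n| ≤ c := by
    obtain ⟨c, hc⟩ := (hρ.abs).bddAbove_range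
    exact ⟨c, fun n => hc ⟨n, rfl⟩⟩
  have h1 := LM_null hb (sp1 H hBU h0 hφ) p
  have h2 := (LM_lim (K := K2) (fun _ _ => rfl) hρ p).const_mul ((∫ z, φ z : ℝ) : ℂ)
  have h3 := h1.add h2
  rw [zero_add] at h3
  refine h3.congr fun n => ?_
  rw [LM_sub' (M := D2f w φ) (M' := fun g n => ((∫ z, φ z : ℝ) : ℂ) * K2 g n +
      D4 w φ 0 0 0 0 n * e2 g n), LM_add' (M := fun g n => ((∫ z, φ z : ℝ) : ℂ) * K2 g n)
      (M' := fun g n => D4 w φ 0 0 0 0 n * e2 g n),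
      LM_mul' (M := K2) (fun _ => ((∫ z, φ z : ℝ) : ℂ)), LM_mul' (M := e2) (D4 w φ 0 0 0 0), he]
  ring

/-! ### special elements -/

lemma BB_eq : BB = AA (Polynomial.C (Polynomial.X ^ 4)) := by
  unfold BB AA
  rw [Polynomial.eval₂_C, map_pow]
  ring

lemma EV_AA {ρ : ℝ} {u : ℂˣ} {c : ℝ} (hu : (u : ℂ) ^ (1 : ℤ) + (u : ℂ) ^ (-1 : ℤ) =
    ((2 * c : ℝ) : ℂ)) (T : Polynomial R1) : EV1 ρ u (AA T) =
      (((2 + 2 * c) * ((2 + 2 * c) - 4) * ev2 ρ (2 + 2 * c) T : ℝ) : ℂ) := by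
  unfold AA
  rw [map_mul, map_mul, map_sub, EV_ef hu, EV1_eval ρ u T ef (EV_ef hu), map_ofNat]
  push_cast; ring

lemma EV_FF {ρ : ℝ} {u : ℂˣ} {c : ℝ} (hu : (u : ℂ) ^ (1 : ℤ) + (u : ℂ) ^ (-1 : ℤ) =
    ((2 * c : ℝ) : ℂ)) (P : Polynomial R1) : EV1 ρ u (FF P) =
      ((ev2 ρ (1 + ρ ^ 2 + 2 * ρ * c) (F0 * P) : ℝ) : ℂ) := by
  unfold FF
  exact EV1_eval ρ u (F0 * P) lf (EV_lf hu)

lemma u_one : ((1 : ℂˣ) : ℂ) ^ (1 : ℤ) + ((1 : ℂˣ) : ℂ) ^ (-1 : ℤ) = ((2 * 1 : ℝ) : ℂ) := by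
  norm_num
lemma u_mone : ((-1 : ℂˣ) : ℂ) ^ (1 : ℤ) + ((-1 : ℂˣ) : ℂ) ^ (-1 : ℤ) = ((2 * (-1) : ℝ) : ℂ) := by
  norm_num

lemma AA_1 (ρ : ℝ) (T : Polynomial R1) : EV1 ρ 1 (AA T) = 0 := by
  rw [EV_AA u_one]; norm_num
lemma AA_m1 (ρ : ℝ) (T : Polynomial R1) : EV1 ρ (-1) (AA T) = 0 := by
  rw [EV_AA u_mone]; norm_num

/-- the Gaussian integrals -/
def gA (ρ : ℝ) (T : Polynomial R1) : ℝ := 1 / (2 * Real.pi) * ∫ θ in (0 : ℝ)..(2 * Real.pi),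
  ((2 + 2 * Real.cos θ) * ((2 + 2 * Real.cos θ) - 4) * ev2 ρ (2 + 2 * Real.cos θ) T) ^ 2
def gF (ρ : ℝ) (P : Polynomial R1) : ℝ := 1 / (2 * Real.pi) * ∫ θ in (0 : ℝ)..(2 * Real.pi),
  ev2 ρ (1 + ρ ^ 2 + 2 * ρ * Real.cos θ) (F0 * P) ^ 2

lemma AM_AA (ρ : ℝ) (T : Polynomial R1) : AM ρ (AA T) (AA T) = ((gA ρ T : ℝ) : ℂ) := by
  unfold AM gA
  simp only [EV_AA (cu_sum _)]
  rw [Complex.ofReal_mul, ← intervalIntegral.integral_ofReal]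
  push_cast
  congr 1
  refine intervalIntegral.integral_congr fun θ _ => ?_
  ring

lemma BM_AA (ρ : ℝ) (T : Polynomial R1) : BM ρ (AA T) (AA T) = ((gA ρ T : ℝ) : ℂ) := by
  unfold BM gA
  simp only [EV_AA (cu_sum _), EV_AA (cu_sum' _)]
  rw [Complex.ofReal_mul, ← intervalIntegral.integral_ofReal]
  push_cast
  congr 1
  refine intervalIntegral.integral_congr fun θ _ => ?_
  ring

lemma AM_FF (ρ : ℝ) (P : Polynomial R1) : AM ρ (FF P) (FF P) = ((gF ρ P : ℝ) : ℂ) := by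
  unfold AM gF
  simp only [EV_FF (cu_sum _)]
  rw [Complex.ofReal_mul, ← intervalIntegral.integral_ofReal]
  push_cast
  congr 1
  refine intervalIntegral.integral_congr fun θ _ => ?_
  ring

/-- second moments in one system -/
theorem sp3 (H : SY B Complex.im h w) (hBU : B ⊆ UH) (h0 : EX B h w (w 0)) {φ : ℂ → ℝ}
    (hφ : TF B φ) (hρ : Tendsto ρ atTop (𝓝 r)) (T : Polynomial R1) :
    Tendsto (fun n => ∫ z, (φ z : ℂ) * (ff w ρ (AA T) n z * ff w ρ (AA T) n z)) atTop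
      (𝓝 (((∫ z, φ z) * (2 * gA r T) : ℝ) : ℂ)) := by
  have h1 := sp2 H hBU h0 hφ hρ (p := emb2 1 0 (AA T) * emb2 0 1 (AA T)) (fun n => by
    rw [e2_val, AA_1, AA_m1]; ring)
  rw [K2_val, AA_m1, AM_AA, BM_AA] at h1
  have e : ((∫ z, φ z : ℝ) : ℂ) * (0 * 0 + ((gA r T : ℝ) : ℂ) + ((gA r T : ℝ) : ℂ)) =
      (((∫ z, φ z) * (2 * gA r T) : ℝ) : ℂ) := by push_cast; ring
  rw [e] at h1
  refine h1.congr fun n => ?_
  rw [i12 H hφ]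

/-- the joint second moment: the part which is Gaussian -/
theorem S2.sp4 (S : S2 B h k w v c) {φ : ℂ → ℝ} (hφ : TF B φ)
    (hρ : Tendsto (rh h k) atTop (𝓝 r)) {P T : Polynomial R1}
    (hPT : emb (-1) 0 1 0 (FF P) * emb 0 (-1) 0 1 (FF P) +
      emb (-1) 0 0 1 (FF P) * emb 0 (-1) 1 0 (FF P) -
      emb 1 (-1) 0 0 (AA T) * emb 0 0 1 (-1) BB ∈ J0) :
    Tendsto (fun n => 2 * (∫ z, (φ z : ℂ) * (fg w v (rh h k) (FF P) n z *
      fg w v (rh h k) (FF P) n z)) - ∫ z, (φ z : ℂ) * (ff w (rh h k) (AA T) n z *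
      ff v (rh h k) BB n z)) atTop (𝓝 (((∫ z, φ z) * (2 * gF r P) : ℝ) : ℂ)) := by
  have h1 := (S.rel hφ).null hPT
  have h2 := (LM_lim (K := K4) (fun _ _ => rfl) hρ (emb (-1) 0 1 0 (FF P) * emb 0 (-1) 0 1 (FF P) +
      emb (-1) 0 0 1 (FF P) * emb 0 (-1) 1 0 (FF P) -
      emb 1 (-1) 0 0 (AA T) * emb 0 0 1 (-1) BB)).const_mul ((∫ z, φ z : ℝ) : ℂ)
  have h3 := h1.add h2
  rw [zero_add, map_sub (LM K4 (fun _ => r) 0), map_add (LM K4 (fun _ => r) 0), K4_13, K4_14,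
    K4_xy, AA_m1, AM_FF] at h3
  have e : ((∫ z, φ z : ℝ) : ℂ) * (((gF r P : ℝ) : ℂ) + ((gF r P : ℝ) : ℂ) -
      0 * EV1 r (-1) BB) = (((∫ z, φ z) * (2 * gF r P) : ℝ) : ℂ) := by push_cast; ring
  rw [e] at h3
  refine h3.congr fun n => ?_
  have e1 : ∀ p : A4, LM (Dd w v φ) (rh h k) n p = LM (D4f w v φ) (rh h k) n p -
      ((∫ z, φ z : ℝ) : ℂ) * LM K4 (rh h k) n p := fun p => by
    have := LM_sub' (M := D4f w v φ) (M' := fun g n => ((∫ z, φ z : ℝ) : ℂ) * K4 g n)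
      (ρ := rh h k) p n
    rw [LM_mul' (M := K4) (fun _ => ((∫ z, φ z : ℝ) : ℂ))] at this
    exact this
  rw [e1, sub_add_cancel, map_sub, map_add, ← S.i13 hφ, ← S.i14 hφ, ← S.ixy hφ]
  ring

end

end Pool.Agent.Q191.TP
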