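import Pool.Agent.Q191.TP.Md

/-! Triple products of real sequences. -/
set_option autoImplicit false
open MeasureTheory Filter Topology Complex Set
open scoped ContDiff Real Manifold

namespace Pool.Agent.Q191.TP

open Pool.Agent.W745.RW Pool.Agent.TH294.RS Pool.Agent.Y265.HY
open Pool.Agent.Y265.HY.JC (hh)

noncomputable section

/-- quantum unique ergodicity in microlocal form -/
def QU (Ω : Set ℂ) (lam : ℕ → ℝ) (u : ℕ → ℂ → ℝ) : Prop :=
  ∀ φ, TF Ω φ → ∀ k : ℕ, Tendsto (fun n => ∫ z, ((φ z / z.im ^ 2 : ℝ) : ℂ) *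
      ((u n z : ℂ) * (FD (lam n))^[k] (fun w => (u n w : ℂ)) z)) atTop
      (𝓝 (if k = 0 then ((∫ z, φ z / z.im ^ 2 : ℝ) : ℂ) else 0))

/-- two sequences satisfying quantum unique ergodicity, with comparable eigenvalues, and a third
sequence -/
structure TD (Ω : Set ℂ) (lam mu nu : ℕ → ℝ) (u g q : ℕ → ℂ → ℝ) (c : ℝ) : Prop where
  op : IsOpen Ω
  hU : ∀ z ∈ Ω, 0 < z.im
  lp : ∀ n, 0 < lam n
  ll : Tendsto lam atTop atTop
  mp : ∀ n, 0 < mu n
  ml : Tendsto mu atTop atTop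
  np : ∀ n, 0 ≤ nu n
  us : ∀ n, ContDiffOn ℝ ∞ (u n) Ω
  gs : ∀ n, ContDiffOn ℝ ∞ (g n) Ω
  qs : ∀ n, ContDiffOn ℝ ∞ (q n) Ω
  ue : ∀ n, ∀ z ∈ Ω, z.im ^ 2 * lap (u n) z + lam n * u n z = 0
  ge : ∀ n, ∀ z ∈ Ω, z.im ^ 2 * lap (g n) z + mu n * g n z = 0
  qe : ∀ n, ∀ z ∈ Ω, z.im ^ 2 * lap (q n) z + nu n * q n z = 0
  uq : QU Ω lam u
  gq : QU Ω mu g
  qb : ∀ K : Set ℂ, IsCompact K → K ⊆ Ω → ∃ C : ℝ, ∀ᶠ n in atTop, ∫ z in K, q n z ^ 2 ≤ C
  cp : 0 < c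
  c1 : ∀ n, lam n ≤ c * mu n
  c2 : ∀ n, mu n ≤ c * lam n

variable {Ω : Set ℂ} {lam mu nu : ℕ → ℝ} {u g q : ℕ → ℂ → ℝ} {c : ℝ}

lemma TD.symm (D : TD Ω lam mu nu u g q c) : TD Ω mu lam nu g u q c :=
  ⟨D.op, D.hU, D.mp, D.ml, D.lp, D.ll, D.np, D.gs, D.us, D.qs, D.ge, D.ue, D.qe, D.gq, D.uq, D.qb,
    D.cp, D.c2, D.c1⟩

lemma TD.cmp (D : TD Ω lam mu nu u g q c) {σ : ℕ → ℕ} (hσ : Tendsto σ atTop atTop) :
    TD Ω (fun n => lam (σ n)) (fun n => mu (σ n)) (fun n => nu (σ n)) (fun n => u (σ n))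
      (fun n => g (σ n)) (fun n => q (σ n)) c where
  op := D.op
  hU := D.hU
  lp := fun n => D.lp _
  ll := D.ll.comp hσ
  mp := fun n => D.mp _
  ml := D.ml.comp hσ
  np := fun n => D.np _
  us := fun n => D.us _
  gs := fun n => D.gs _
  qs := fun n => D.qs _
  ue := fun n => D.ue _
  ge := fun n => D.ge _
  qe := fun n => D.qe _
  uq := fun φ hφ k => (D.uq φ hφ k).comp hσ
  gq := fun φ hφ k => (D.gq φ hφ k).comp hσ
  qb := fun K hK hKΩ => by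
    obtain ⟨C, hC⟩ := D.qb K hK hKΩ
    exact ⟨C, hσ.eventually hC⟩
  cp := D.cp
  c1 := fun n => D.c1 _
  c2 := fun n => D.c2 _

/-- the ladder of a sequence -/
abbrev lad (lam : ℕ → ℝ) (u : ℕ → ℂ → ℝ) : ℤ → ℕ → ℂ → ℂ :=
  ww Complex.im (hh lam) (fun n z => (u n z : ℂ))

lemma hle {a b c : ℝ} (ha : 0 < a) (hb : 0 < b) (hc : 0 < c) (h : b ≤ c * a) :
    1 / √a ≤ √c * (1 / √b) := by
  have h1 : √b ≤ √c * √a := by
    rw [← Real.sqrt_mul hc.le]; exact Real.sqrt_le_sqrt h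
  have h2 := Real.sqrt_pos.2 ha
  have h3 := Real.sqrt_pos.2 hb
  rw [mul_one_div, div_le_div_iff₀ h2 h3]
  linarith

lemma TD.s2 (D : TD Ω lam mu nu u g q c) : S2 Ω (hh lam) (hh mu) (lad lam u) (lad mu g) (√c) where
  H := (hyp_sys D.op D.hU D.lp D.ll D.us D.ue D.uq).1
  G := (hyp_sys D.op D.hU D.mp D.ml D.gs D.ge D.gq).1
  bu := D.hU
  h0 := (hyp_sys D.op D.hU D.lp D.ll D.us D.ue D.uq).2
  g0 := (hyp_sys D.op D.hU D.mp D.ml D.gs D.ge D.gq).2
  cp := Real.sqrt_pos.2 D.cp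
  hk := fun n => hle (D.lp n) (D.mp n) D.cp (D.c2 n)
  kh := fun n => hle (D.mp n) (D.lp n) D.cp (D.c1 n)

lemma TD.s3 (D : TD Ω lam mu nu u g q c) :
    S3 Ω (hh lam) (fun n => nu n / lam n) (fun n z => (q n z : ℂ)) where
  lb := by
    refine ⟨fun n => cxa (D.qs n), fun K hK hKΩ => ?_⟩
    obtain ⟨C, hC⟩ := D.qb K hK hKΩ
    refine ⟨C, hC.mono fun n hn => ?_⟩
    have e : ∀ z, ‖(q n z : ℂ)‖ ^ 2 = q n z ^ 2 := fun z => by
      rw [Complex.norm_real, Real.norm_eq_abs, sq_abs]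
    simp only [e]
    exact hn
  eq := by
    intro n z hz
    rw [Pool.Agent.TH294.RS.lap_re D.op (D.qs n) hz]
    have h1 := D.qe n z hz
    have h2 : (hh lam n) ^ 2 = 1 / lam n := by
      rw [div_pow, Real.sq_sqrt (D.lp n).le, one_pow]
    have h3 := (D.lp n).ne'
    have h4 : (hh lam n) ^ 2 * (z.im ^ 2 * lap (q n) z) = -(nu n / lam n * q n z) := by
      rw [h2]
      have : z.im ^ 2 * lap (q n) z = -(nu n * q n z) := by linarith
      rw [this]; field_simp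
    exact_mod_cast h4

/-- the triple product -/
def J3 (φ u g q : ℂ → ℝ) : ℝ := ∫ z, φ z * (u z * g z * q z)

lemma TD.jq (D : TD Ω lam mu nu u g q c) {φ : ℂ → ℝ} (hφ : TF Ω φ) (n : ℕ) :
    Lq (lad lam u) (lad mu g) (rh (hh lam) (hh mu)) (fun n z => (q n z : ℂ)) φ 1 n =
      ((J3 φ (u n) (g n) (q n) : ℝ) : ℂ) := by
  rw [← D.s2.Lq_eq (fun n => (D.s3.lb.sm n).continuousOn) hφ, J3, ← integral_complex_ofReal]
  congr 1; funext z
  have e1 : fg (lad lam u) (lad mu g) (rh (hh lam) (hh mu)) 1 n z = (u n z : ℂ) * (g n z : ℂ) := by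
    have e0 : (1 : A1) = AddMonoidAlgebra.single 0 1 := rfl
    have w1 : lad lam u 0 n z = (u n z : ℂ) := rfl
    have w2 : lad mu g 0 n z = (g n z : ℂ) := rfl
    rw [fg, e0, LM_single, map_one, pr, neg_zero, w1, w2]
    ring
  rw [e1]
  push_cast; ring

lemma rh_eq (n : ℕ) (h1 : 0 < lam n) (h2 : 0 < mu n) :
    rh (hh lam) (hh mu) n = √(mu n / lam n) := by
  have h3 := Real.sqrt_pos.2 h1
  have h4 := Real.sqrt_pos.2 h2
  rw [rh, hh, hh, Real.sqrt_div h2.le]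
  field_simp

/-- the exceptional polynomial -/
def GG4 (l m s : ℝ) : ℝ := (s ^ 2 - 2 * (l + m) * s + (l - m) ^ 2) * (s ^ 2 - (l - m) ^ 2)

lemma GG4_symm (l m s : ℝ) : GG4 l m s = GG4 m l s := by unfold GG4; ring

lemma GG4_F0v {l m s : ℝ} (hl : 0 < l) (hm : 0 < m) :
    GG4 l m s = l ^ 4 * F0v (√(m / l)) (s / l) := by
  have h1 : √(m / l) ^ 2 = m / l := Real.sq_sqrt (by positivity)
  unfold GG4 F0v
  rw [h1]
  field_simp
  ring

/-- the case `r ≥ 1` -/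
lemma TD.ge1 (D : TD Ω lam mu nu u g q c) {φ : ℂ → ℝ} (hφ : TF Ω φ) (h0 : ∀ z, 0 ≤ φ z) {r : ℝ}
    (hr : 1 ≤ r) (hρ : Tendsto (fun n => √(mu n / lam n)) atTop (𝓝 r))
    (hτ : Tendsto (fun n => nu n / lam n) atTop atTop ∨
      ∃ τ' : ℝ, Tendsto (fun n => nu n / lam n) atTop (𝓝 τ') ∧ F0v r τ' ≠ 0) :
    Tendsto (fun n => J3 φ (u n) (g n) (q n)) atTop (𝓝 0) := by
  have hρ' : Tendsto (rh (hh lam) (hh mu)) atTop (𝓝 r) :=
    hρ.congr fun n => (rh_eq n (D.lp n) (D.mp n)).symm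
  have t0 : ∀ n, 0 ≤ nu n / lam n := fun n => div_nonneg (D.np n) (D.lp n).le
  have key : Tendsto (fun n => Lq (lad lam u) (lad mu g) (rh (hh lam) (hh mu))
      (fun n z => (q n z : ℂ)) φ 1 n) atTop (𝓝 0) := by
    rcases hτ with h | ⟨τ', h, hn⟩
    · exact D.s2.zero_inf hφ h0 hρ' t0 h D.s3
    · exact D.s2.zero_fin hφ h0 hρ' hr t0 h D.s3 hn
  have k2 := (Complex.continuous_re.tendsto _).comp key
  rw [Complex.zero_re] at k2
  refine k2.congr fun n => ?_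
  simp only [Function.comp_def]
  rw [D.jq hφ, Complex.ofReal_re]

/-- **Triple products**, nonnegative test functions -/
theorem TD.pos (D : TD Ω lam mu nu u g q c) {φ : ℂ → ℝ} (hφ : TF Ω φ) (h0 : ∀ z, 0 ≤ φ z) {δ : ℝ}
    (hδ : 0 < δ) (hN : ∀ᶠ n in atTop, δ * lam n ^ 4 ≤ |GG4 (lam n) (mu n) (nu n)|) :
    Tendsto (fun n => J3 φ (u n) (g n) (q n)) atTop (𝓝 0) := by
  refine tendsto_of_subseq_tendsto fun ns hns => ?_
  obtain ⟨σ, hσ, hσ2⟩ := JC.sub_ratio (fun n => nu n / lam n)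
    (fun n => div_nonneg (D.np n) (D.lp n).le) ns
  have hs : Tendsto (fun n => ns (σ n)) atTop atTop := hns.comp hσ.tendsto_atTop
  have bd : ∀ n, √(mu (ns (σ n)) / lam (ns (σ n))) ∈ Set.Icc (√(1 / c)) (√c) := fun n => by
    have h1 := D.c1 (ns (σ n))
    have h2 := D.c2 (ns (σ n))
    have hl := D.lp (ns (σ n))
    have hc := D.cp
    refine ⟨Real.sqrt_le_sqrt ?_, Real.sqrt_le_sqrt ?_⟩
    · rw [div_le_div_iff₀ hc hl]; linarith
    · rw [div_le_iff₀ hl]; exact h2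
  obtain ⟨r, hr, κ, hκ, hκr⟩ := isCompact_Icc.tendsto_subseq bd
  have rp : 0 < r := lt_of_lt_of_le (Real.sqrt_pos.2 (by have := D.cp; positivity)) hr.1
  have hs2 : Tendsto (fun n => ns (σ (κ n))) atTop atTop := hs.comp hκ.tendsto_atTop
  have D1 := D.cmp hs2
  refine ⟨fun n => σ (κ n), ?_⟩
  have hρ1 : Tendsto (fun n => √(mu (ns (σ (κ n))) / lam (ns (σ (κ n))))) atTop (𝓝 r) := hκr
  have hρ2 : Tendsto (fun n => √(lam (ns (σ (κ n))) / mu (ns (σ (κ n))))) atTop (𝓝 r⁻¹) := by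
    refine (hρ1.inv₀ rp.ne').congr fun n => ?_
    rw [← Real.sqrt_inv, inv_div]
  -- nondegeneracy at the limit
  have lim1 : ∀ τ' : ℝ, Tendsto (fun n => nu (ns (σ (κ n))) / lam (ns (σ (κ n)))) atTop (𝓝 τ') →
      F0v r τ' ≠ 0 := by
    intro τ' hτ h
    have hc : Tendsto (fun n => |F0v (√(mu (ns (σ (κ n))) / lam (ns (σ (κ n)))))
        (nu (ns (σ (κ n))) / lam (ns (σ (κ n))))|) atTop (𝓝 |F0v r τ'|) := by
      refine Tendsto.abs ?_
      unfold F0v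
      have r2 := hρ1.pow 2
      exact (((hτ.pow 2).sub (((r2.const_add 1).const_mul 2).mul hτ)).add
        ((r2.const_sub 1).pow 2)).mul ((hτ.sub (r2.sub_const 1)).mul (hτ.add (r2.sub_const 1)))
    rw [h, abs_zero] at hc
    have : δ ≤ 0 := by
      refine ge_of_tendsto hc ((hs2.eventually hN).mono fun n hn => ?_)
      rw [GG4_F0v (D.lp _) (D.mp _), abs_mul, abs_of_pos (pow_pos (D.lp _) 4), mul_comm] at hn
      exact le_of_mul_le_mul_left hn (pow_pos (D.lp _) 4)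
    linarith
  by_cases h1 : 1 ≤ r
  · refine D1.ge1 hφ h0 h1 hρ1 ?_
    rcases hσ2 with h | ⟨R, hR0, hR⟩
    · exact Or.inl (h.comp hκ.tendsto_atTop)
    · have hR' := hR.comp hκ.tendsto_atTop
      exact Or.inr ⟨R, hR', lim1 R hR'⟩
  · have h2 : 1 ≤ r⁻¹ := (one_le_inv₀ rp).2 (not_le.1 h1).le
    have e0 : ∀ n, nu (ns (σ (κ n))) / mu (ns (σ (κ n))) =
        (√(lam (ns (σ (κ n))) / mu (ns (σ (κ n))))) ^ 2 *
          (nu (ns (σ (κ n))) / lam (ns (σ (κ n)))) := fun n => by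
      have := D.lp (ns (σ (κ n)))
      have := D.mp (ns (σ (κ n)))
      rw [Real.sq_sqrt (by positivity)]
      field_simp
    have key := D1.symm.ge1 hφ h0 h2 hρ2 (by
      rcases hσ2 with h | ⟨R, hR0, hR⟩
      · left
        simp only [e0]
        exact (hρ2.pow 2).pos_mul_atTop (by positivity) (h.comp hκ.tendsto_atTop)
      · right
        have hR' := hR.comp hκ.tendsto_atTop
        refine ⟨(r⁻¹) ^ 2 * R, ?_, ?_⟩
        · simp only [e0]
          exact (hρ2.pow 2).mul hR'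
        · have h3 := lim1 R hR'
          intro h4
          apply h3
          have e1 : F0v r R = r ^ 8 * F0v r⁻¹ (r⁻¹ ^ 2 * R) := by
            unfold F0v
            field_simp
            ring
          rw [e1, h4, mul_zero])
    refine key.congr fun n => ?_
    simp only [J3]
    congr 1; funext z; ring

/-- **Triple products** -/
theorem TD.off (D : TD Ω lam mu nu u g q c) {ψ : ℂ → ℝ} (hψ : TF Ω ψ) {δ : ℝ} (hδ : 0 < δ)
    (hN : ∀ᶠ n in atTop, δ * lam n ^ 4 ≤ |GG4 (lam n) (mu n) (nu n)|) :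
    Tendsto (fun n => J3 ψ (u n) (g n) (q n)) atTop (𝓝 0) := by
  obtain ⟨χ, hχ, hχ0, -, hχ1⟩ := Pool.Agent.Y265.RW.cutoff D.op hψ.2.1 hψ.2.2
  obtain ⟨M', hM'⟩ := hψ.2.1.exists_bound_of_continuousOn hψ.1.continuous.continuousOn
  obtain ⟨M, hM⟩ : ∃ M, M = max M' 0 := ⟨_, rfl⟩
  have M0 : 0 ≤ M := by rw [hM]; exact le_max_right _ _
  have t1 : TF Ω (fun z => ψ z + M * χ z) := by
    refine ⟨hψ.1.add (contDiff_const.mul hχ.1), hψ.2.1.add (hχ.2.1.mul_left), ?_⟩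
    refine (tsupport_add _ _).trans (Set.union_subset hψ.2.2 ?_)
    exact (tsupport_mul_subset_right (f := fun _ : ℂ => M)).trans hχ.2.2
  have p1 : ∀ z, 0 ≤ ψ z + M * χ z := by
    intro z
    by_cases hz : z ∈ tsupport ψ
    · rw [hχ1 z hz, mul_one]
      have h1 := hM' z hz
      rw [Real.norm_eq_abs] at h1
      have h2 := neg_abs_le (ψ z)
      have h3 : M' ≤ M := by rw [hM]; exact le_max_left _ _
      linarith
    · rw [image_eq_zero_of_notMem_tsupport hz, zero_add]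
      exact mul_nonneg M0 (hχ0 z)
  have k := (D.pos t1 p1 hδ hN).sub ((D.pos hχ hχ0 hδ hN).const_mul M)
  rw [mul_zero, sub_zero] at k
  refine k.congr fun n => ?_
  have c0 : ContinuousOn (fun z => u n z * g n z * q n z) Ω :=
    ((D.us n).continuousOn.mul (D.gs n).continuousOn).mul (D.qs n).continuousOn
  have i1 : Integrable (fun z => (ψ z + M * χ z) * (u n z * g n z * q n z)) :=
    Pool.Agent.W311.RW.int_mul D.op t1 c0
  have i2 : Integrable (fun z => χ z * (u n z * g n z * q n z)) :=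
    Pool.Agent.W311.RW.int_mul D.op hχ c0
  simp only [J3]
  rw [← integral_const_mul, ← integral_sub i1 (i2.const_mul _)]
  congr 1; funext z; ring

end

end Pool.Agent.Q191.TP
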